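import Mathlib
import Pool.Agent.Work.MP_b62148_ag.D9.Engine
import Pool.Agent.Work.MP_b62148_ag.D9odd.AStep
import Pool.Agent.Work.MP_b62148_ag.D9odd.Dbl

/-!
Pencils of quaternary quadratic forms over a double cover of an affine space.
-/

namespace Pool.Agent.Work.Pencil

open Matrix Polynomial Pool.Agent.Work.D9odd

section ring

variable {S A : Type*} [CommRing S] [CommRing A]

/-- the determinant of the pencil `N0 + r N1` -/
noncomputable def bdet (N0 N1 : Matrix (Fin 4) (Fin 4) S) : S[X] :=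
  (N0.map C + (X : S[X]) • N1.map C).det

theorem bdet_eval₂ (N0 N1 : Matrix (Fin 4) (Fin 4) S) (φ : S →+* A) (r : A) :
    (bdet N0 N1).eval₂ φ r = (N0.map φ + r • N1.map φ).det := by
  have h1 : (bdet N0 N1).eval₂ φ r = Polynomial.eval₂RingHom φ r (bdet N0 N1) := rfl
  rw [h1, bdet, RingHom.map_det]
  congr 1
  ext i j
  show Polynomial.eval₂ φ r (C (N0 i j) + X * C (N1 i j)) = φ (N0 i j) + r * φ (N1 i j)
  rw [Polynomial.eval₂_add, Polynomial.eval₂_mul, Polynomial.eval₂_C, Polynomial.eval₂_C,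
    Polynomial.eval₂_X]

theorem bdet_natDegree (N0 N1 : Matrix (Fin 4) (Fin 4) S) : (bdet N0 N1).natDegree ≤ 4 := by
  rw [bdet, add_comm]
  have := Polynomial.natDegree_det_X_add_C_le N1 N0
  rw [Fintype.card_fin] at this
  exact this

theorem bdet_sum (N0 N1 : Matrix (Fin 4) (Fin 4) S) (φ : S →+* A) (r : A) :
    (N0.map φ + r • N1.map φ).det = φ ((bdet N0 N1).coeff 0) + φ ((bdet N0 N1).coeff 1) * r +
      φ ((bdet N0 N1).coeff 2) * r ^ 2 + φ ((bdet N0 N1).coeff 3) * r ^ 3 +
      φ ((bdet N0 N1).coeff 4) * r ^ 4 := by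
  rw [← bdet_eval₂, Polynomial.eval₂_eq_sum_range' φ (Nat.lt_succ_of_le (bdet_natDegree N0 N1))]
  simp [Finset.sum_range_succ]

theorem bdet_coeff_zero (N0 N1 : Matrix (Fin 4) (Fin 4) S) : (bdet N0 N1).coeff 0 = N0.det := by
  have h := bdet_sum N0 N1 (RingHom.id S) 0
  have e : N0.map (RingHom.id S) + (0 : S) • N1.map (RingHom.id S) = N0 := by
    ext i j; simp
  rw [e] at h
  rw [h]
  simp

theorem bdet_map (N0 N1 : Matrix (Fin 4) (Fin 4) S) (φ : S →+* A) :
    bdet (N0.map φ) (N1.map φ) = (bdet N0 N1).map φ := by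
  have h1 := bdet_eval₂ N0 N1 ((Polynomial.C : A →+* A[X]).comp φ) (X : A[X])
  have h2 : (bdet N0 N1).eval₂ ((Polynomial.C : A →+* A[X]).comp φ) (X : A[X]) =
      (bdet N0 N1).map φ := rfl
  rw [← h2, h1, bdet]
  rfl

theorem bdet_eq_pdet {k : Type*} [Field k] (N0 N1 : Matrix (Fin 4) (Fin 4) k) :
    bdet N0 N1 = pdet N0 N1 := rfl

theorem map_symm {N : Matrix (Fin 4) (Fin 4) S} (h : Nᵀ = N) (φ : S →+* A) :
    (N.map φ)ᵀ = N.map φ := by
  rw [← Matrix.transpose_map, h]

end ring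

section engine

variable {R K T : Type*} [CommRing R] [IsDomain R] [Field K] [Algebra R K] [IsFractionRing R K]
  [CommRing T] [IsDomain T] [CharZero T]

/-- over the function field infinitely many members of the pencil vanish on a plane -/
theorem iso_infinite (N0 N1 : Matrix (Fin 4) (Fin 4) R) (h0 : N0ᵀ = N0) (h1 : N1ᵀ = N1)
    (a : Fin 4 → R) (ha : a ≠ 0) (haa : bf N0 a a = 0) (z : R) (hz : z ^ 2 = N0.det)
    (hz0 : z ≠ 0) (ev : R →+* T) (hev : ev z = 0) (hev1 : ev ((bdet N0 N1).coeff 1) ≠ 0) :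
    {r : K | IsoPlane (N0.map (algebraMap R K) + r • N1.map (algebraMap R K))}.Infinite := by
  have hinj := IsFractionRing.injective R K
  set i := algebraMap R K with hi
  have h2K : (2 : K) ≠ 0 := by
    intro h
    have h6 : (2 : R) = 0 := hinj (by rw [map_zero, map_ofNat]; exact h)
    have h7 : ev 2 = 0 := by rw [h6, map_zero]
    rw [map_ofNat] at h7
    exact two_ne_zero h7
  have hsum : ∀ r : K, (N0.map i + r • N1.map i).det = i z ^ 2 +
      i ((bdet N0 N1).coeff 1) * r + i ((bdet N0 N1).coeff 2) * r ^ 2 +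
      i ((bdet N0 N1).coeff 3) * r ^ 3 + i ((bdet N0 N1).coeff 4) * r ^ 4 := by
    intro r
    rw [bdet_sum, bdet_coeff_zero, ← hz, map_pow]
  have hzK : i z ≠ 0 := fun h => hz0 (hinj (by rw [h, map_zero]))
  have hdet0 : (N0.map i).det = i z ^ 2 := by
    have := hsum 0
    simpa using this
  have hiso0 : IsoPlane (N0.map i) := by
    refine isoPlane_of_isotropic _ (map_symm h0 i) _ hzK hdet0 (i ∘ a) ?_ ?_
    · intro h
      apply ha
      funext j
      apply hinj
      rw [Pi.zero_apply, map_zero]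
      exact congrFun h j
    · rw [← map_bf, haa, map_zero]
  refine double h2K (N0.map i) (N1.map i) (map_symm h0 i) (map_symm h1 i) hiso0
    (by rw [hdet0]; exact pow_ne_zero 2 hzK) ?_ ?_
  · intro hsq
    rw [← bdet_eq_pdet, bdet_map] at hsq
    have h3 := square_rel _ ((Polynomial.natDegree_map_le).trans (bdet_natDegree N0 N1)) hsq
    simp only [Polynomial.coeff_map, bdet_coeff_zero] at h3
    rw [← hz] at h3
    have h4 : ((bdet N0 N1).coeff 1 ^ 2 - 4 * z ^ 2 * (bdet N0 N1).coeff 2) ^ 2 =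
        64 * (z ^ 2) ^ 3 * (bdet N0 N1).coeff 4 := by
      apply hinj
      simp only [map_sub, map_mul, map_pow, map_ofNat] at h3 ⊢
      exact h3
    have h5 := congrArg ev h4
    simp only [map_sub, map_mul, map_pow, hev] at h5
    have h6 : ev ((bdet N0 N1).coeff 1) ^ 4 = 0 := by
      have : ev ((bdet N0 N1).coeff 1) ^ 4 =
        (ev ((bdet N0 N1).coeff 1) ^ 2 - ev 4 * 0 ^ 2 * ev ((bdet N0 N1).coeff 2)) ^ 2 := by ring
      rw [this, h5]
      ring
    exact hev1 (pow_eq_zero_iff (by norm_num) |>.mp h6)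
  · have h3 := D9.infinite_fraction (K := K) ev z ((bdet N0 N1).coeff 1)
      ((bdet N0 N1).coeff 2) ((bdet N0 N1).coeff 3) ((bdet N0 N1).coeff 4) hev hev1 hz0
    refine h3.mono fun r hr => ?_
    show IsSquare (N0.map i + r • N1.map i).det
    rw [hsum]
    exact hr

variable {k S : Type*} [Field k] [CommRing S]

/-- specialisation -/
theorem spec_zero (N0 N1 : Matrix (Fin 4) (Fin 4) S) (φ : S →+* R) (P : Set (R →+* k))
    (hP : ∀ r : R, (∀ p ∈ P, p r = 0) → r = 0) (ψ : S →+* K)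
    (hψ : ψ = (algebraMap R K).comp φ) (H : S[X])
    (hH : ∀ p ∈ P, ∀ r : k, IsoPlane (N0.map (p.comp φ) + r • N1.map (p.comp φ)) →
      (H.map (p.comp φ)).eval r = 0) (r : K)
    (hr : IsoPlane (N0.map ψ + r • N1.map ψ)) : (H.map ψ).eval r = 0 := by
  classical
  by_contra hne
  obtain ⟨x, y, hxy, hxx, hxy', hyy⟩ := hr
  obtain ⟨i, j, hij⟩ := minor_of_indep x y hxy
  set g := (H.map ψ).eval r with hg
  set m := x i * y j - x j * y i with hm
  obtain ⟨p, hp, f, ι, φ', hι, hι', hφ', hZ⟩ := D9.exists_spec (K := K) P hP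
    ({r, g⁻¹, m⁻¹} ∪ (Finset.univ.image x ∪ Finset.univ.image y))
  obtain ⟨r', hr'⟩ := hZ r (by simp)
  obtain ⟨g', hg'⟩ := hZ g⁻¹ (by simp)
  obtain ⟨m', hm'⟩ := hZ m⁻¹ (by simp)
  choose x' hx' using fun l : Fin 4 => hZ (x l) (by simp)
  choose y' hy' using fun l : Fin 4 => hZ (y l) (by simp)
  have fx : ι ∘ x' = x := funext hx'
  have fy : ι ∘ y' = y := funext hy'
  set α : R →+* Localization.Away f := algebraMap R (Localization.Away f) with hα
  set ψ' : S →+* Localization.Away f := α.comp φ with hψ'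
  have hιψ : ι.comp ψ' = ψ := by
    rw [hψ', ← RingHom.comp_assoc, hι', hψ]
  have hφψ : φ'.comp ψ' = p.comp φ := by
    rw [hψ', ← RingHom.comp_assoc, hφ']
  set N' : Matrix (Fin 4) (Fin 4) (Localization.Away f) := N0.map ψ' + r' • N1.map ψ' with hN'
  have hNι : N'.map ι = N0.map ψ + r • N1.map ψ := by
    rw [hN', ← hιψ, ← hr']
    ext a b
    simp
  have hNφ : N'.map φ' = N0.map (p.comp φ) + φ' r' • N1.map (p.comp φ) := by
    rw [hN', ← hφψ]
    ext a b
    simp
  have t1 : bf N' x' x' = 0 := by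
    apply hι; rw [map_bf, hNι, fx, map_zero, hxx]
  have t2 : bf N' x' y' = 0 := by
    apply hι; rw [map_bf, hNι, fx, fy, map_zero, hxy']
  have t3 : bf N' y' y' = 0 := by
    apply hι; rw [map_bf, hNι, fy, map_zero, hyy]
  have t4 : (x' i * y' j - x' j * y' i) * m' = 1 := by
    apply hι
    rw [map_mul, map_sub, map_mul, map_mul, hm', hx', hx', hy', hy', map_one, ← hm]
    exact mul_inv_cancel₀ hij
  have t5 : (H.map ψ').eval r' * g' = 1 := by
    apply hι
    have : ι ((H.map ψ').eval r') = (H.map ψ).eval r := by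
      rw [Polynomial.eval_map, Polynomial.eval_map, Polynomial.hom_eval₂, hιψ, hr']
    rw [map_mul, this, ← hg, hg', map_one]
    exact mul_inv_cancel₀ hne
  have hk : IsoPlane (N0.map (p.comp φ) + φ' r' • N1.map (p.comp φ)) := by
    rw [← hNφ]
    refine ⟨φ' ∘ x', φ' ∘ y', indep_of_minor _ _ i j ?_, ?_, ?_, ?_⟩
    · intro h0
      have := congrArg φ' t4
      rw [map_mul, map_sub, map_mul, map_mul, map_one] at this
      simp only [Function.comp_apply] at h0
      rw [h0, zero_mul] at this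
      exact zero_ne_one this
    · rw [← map_bf, t1, map_zero]
    · rw [← map_bf, t2, map_zero]
    · rw [← map_bf, t3, map_zero]
  have h6 := hH p hp _ hk
  have h7 := congrArg φ' t5
  have h8 : φ' ((H.map ψ').eval r') = (H.map (p.comp φ)).eval (φ' r') := by
    rw [Polynomial.eval_map, Polynomial.eval_map, Polynomial.hom_eval₂, hφψ]
  rw [map_mul, h8, h6, zero_mul, map_one] at h7
  exact zero_ne_one h7

end engine

end Pool.Agent.Work.Pencil
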