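import Mathlib
import Pool.Agent.Work.MP_b62148_ag.Pencil.Eng

/-!
The double cover branched along the determinant of the first member of the pencil.
-/

namespace Pool.Agent.Work.Pencil

open Matrix Polynomial Pool.Agent.Work.D9odd

section cover

variable {S : Type*} [CommRing S]

/-- the polynomial `Y ^ 2 - B` over `S` -/
noncomputable def cv (B : S) : S[X] := X ^ 2 - C B

theorem cv_monic [Nontrivial S] (B : S) : (cv B).Monic :=
  Polynomial.monic_X_pow_sub_C B two_ne_zero

theorem cv_natDegree [Nontrivial S] (B : S) : (cv B).natDegree = 2 :=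
  Polynomial.natDegree_X_pow_sub_C

theorem cv_irreducible [IsDomain S] (B : S) (hB : ¬ ∃ t, t ^ 2 = B) : Irreducible (cv B) := by
  rw [(cv_monic B).irreducible_iff_roots_eq_zero_of_degree_le_three
    (by rw [cv_natDegree]) (by rw [cv_natDegree]; norm_num)]
  by_contra hne
  obtain ⟨t, ht⟩ := Multiset.exists_mem_of_ne_zero hne
  have h1 := (Polynomial.mem_roots'.mp ht).2
  apply hB
  refine ⟨t, ?_⟩
  rw [Polynomial.IsRoot.def, cv] at h1
  simp only [Polynomial.eval_sub, Polynomial.eval_pow, Polynomial.eval_X, Polynomial.eval_C] at h1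
  exact sub_eq_zero.mp h1

/-- the ring homomorphism attached to a point -/
noncomputable def ptHom {A : Type*} [CommRing A] (B : S) (i : S →+* A) (z : A)
    (h : z ^ 2 = i B) : AdjoinRoot (cv B) →+* A :=
  AdjoinRoot.lift i z (by
    rw [cv, Polynomial.eval₂_sub, Polynomial.eval₂_pow, Polynomial.eval₂_X, Polynomial.eval₂_C,
      h, sub_self])

theorem ptHom_of {A : Type*} [CommRing A] (B : S) (i : S →+* A) (z : A)
    (h : z ^ 2 = i B) (p : S) : ptHom B i z h (AdjoinRoot.of (cv B) p) = i p :=
  AdjoinRoot.lift_of _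

theorem ptHom_root {A : Type*} [CommRing A] (B : S) (i : S →+* A) (z : A)
    (h : z ^ 2 = i B) : ptHom B i z h (AdjoinRoot.root (cv B)) = z :=
  AdjoinRoot.lift_root _

theorem exists_ab [Nontrivial S] (B : S) (r : AdjoinRoot (cv B)) : ∃ a b : S,
    r = AdjoinRoot.of (cv B) a + AdjoinRoot.of (cv B) b * AdjoinRoot.root (cv B) := by
  obtain ⟨g, rfl⟩ := AdjoinRoot.mk_surjective r
  have h1 : AdjoinRoot.mk (cv B) g = AdjoinRoot.mk (cv B) (g %ₘ cv B) := by
    rw [AdjoinRoot.mk_eq_mk]
    refine ⟨g /ₘ cv B, ?_⟩
    have := Polynomial.modByMonic_add_div g (cv B)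
    linear_combination -this
  have h2 : (g %ₘ cv B).natDegree < 2 := by
    have := Polynomial.natDegree_modByMonic_lt g (cv_monic B) (by
      intro h
      have := cv_natDegree B
      rw [h] at this
      simp at this)
    rwa [cv_natDegree] at this
  rw [h1]
  refine ⟨(g %ₘ cv B).coeff 0, (g %ₘ cv B).coeff 1, ?_⟩
  have h3 : g %ₘ cv B = C ((g %ₘ cv B).coeff 0) + C ((g %ₘ cv B).coeff 1) * X := by
    conv_lhs => rw [Polynomial.as_sum_range' _ 2 h2]
    simp [Finset.sum_range_succ, ← Polynomial.C_mul_X_pow_eq_monomial]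
  conv_lhs => rw [h3]
  rw [map_add, map_mul, AdjoinRoot.mk_C, AdjoinRoot.mk_C, AdjoinRoot.mk_X]

end cover

section dense

variable {k S Ω : Type*} [Field k] [CommRing S] [IsDomain S] [UniqueFactorizationMonoid S]
  [Field Ω] [CharZero Ω]

/-- the members of the pencil vanishing on a plane are dense -/
theorem dense_gen (pts : Set (S →+* k)) (N0 N1 : Matrix (Fin 4) (Fin 4) S) (h0 : N0ᵀ = N0)
    (h1 : N1ᵀ = N1) (a : Fin 4 → S) (ha : a ≠ 0) (haa : bf N0 a a = 0) (hB : N0.det ≠ 0)
    (t0 : S →+* Ω) (ht0 : t0 N0.det = 0) (ht1 : t0 ((bdet N0 N1).coeff 1) ≠ 0)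
    (hdense : ∀ a b : S, (∀ p ∈ pts, ∀ z : k, z ^ 2 = p N0.det → p a + z * p b = 0) →
      a = 0 ∧ b = 0) (H : S[X])
    (hH : ∀ p ∈ pts, ∀ r : k, IsoPlane (N0.map p + r • N1.map p) → (H.map p).eval r = 0) :
    H = 0 := by
  by_cases hsq : ∃ b, b ^ 2 = N0.det
  · -- the determinant is a square
    obtain ⟨b, hb⟩ := hsq
    have hb0 : b ≠ 0 := by
      rintro rfl
      apply hB
      rw [← hb]; ring
    have htb : t0 b = 0 := by
      rw [← hb, map_pow] at ht0
      exact pow_eq_zero_iff two_ne_zero |>.mp ht0
    have hinf := iso_infinite (K := FractionRing S) N0 N1 h0 h1 a ha haa b hb hb0 t0 htb ht1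
    have hspec := fun r hr => spec_zero (K := FractionRing S) N0 N1 (RingHom.id S) pts
      (by
        intro s hs
        refine (hdense s 0 ?_).1
        intro p hp z _
        rw [hs p hp, map_zero]; ring) (algebraMap S (FractionRing S)) rfl H
      (by
        intro p hp r hr
        exact hH p hp r hr) r hr
    have hH0 : H.map (algebraMap S (FractionRing S)) = 0 := by
      apply Polynomial.eq_zero_of_infinite_isRoot
      refine hinf.mono fun r hr => ?_
      exact hspec r hr
    exact Polynomial.map_injective _ (IsFractionRing.injective S (FractionRing S))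
      (by rw [hH0, Polynomial.map_zero])
  · set B := N0.det with hBdef
    have hirr := cv_irreducible B hsq
    have : IsDomain (AdjoinRoot (cv B)) := AdjoinRoot.isDomain_of_prime hirr.prime
    let R := AdjoinRoot (cv B)
    let K := FractionRing R
    let φ : S →+* R := AdjoinRoot.of (cv B)
    let z : R := AdjoinRoot.root (cv B)
    let ψ : S →+* K := (algebraMap R K).comp φ
    have hinj := IsFractionRing.injective R K
    have hz : z ^ 2 = φ B := by
      have h := AdjoinRoot.eval₂_root (cv B)
      rw [cv, Polynomial.eval₂_sub, Polynomial.eval₂_pow, Polynomial.eval₂_X,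
        Polynomial.eval₂_C] at h
      exact sub_eq_zero.mp h
    have e0 : (0 : Ω) ^ 2 = t0 B := by rw [ht0]; simp
    let ev : R →+* Ω := ptHom B t0 0 e0
    have hev : ev z = 0 := ptHom_root _ _ _ _
    have hev' : ∀ p : S, ev (φ p) = t0 p := fun p => ptHom_of _ _ _ _ p
    have hφinj : Function.Injective φ := by
      rw [injective_iff_map_eq_zero]
      intro p hp
      have h := AdjoinRoot.of.injective_of_degree_ne_zero (f := cv B) (by
        rw [Polynomial.degree_eq_natDegree (cv_monic B).ne_zero, cv_natDegree]; norm_num)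
      exact h (by rw [map_zero]; exact hp)
    have hz0 : z ≠ 0 := by
      intro h
      rw [h] at hz
      apply hB
      apply hφinj
      rw [map_zero, ← hz]; simp
    have hdetφ : (N0.map φ).det = φ B := (RingHom.map_det φ N0).symm
    have hiso' := iso_infinite (R := R) (K := K) (N0.map φ) (N1.map φ) (map_symm h0 φ)
      (map_symm h1 φ) (φ ∘ a) (by
        intro h
        apply ha
        funext j
        apply hφinj
        rw [Pi.zero_apply, map_zero]
        exact congrFun h j) (by rw [← map_bf, haa, map_zero]) z (by rw [hdetφ]; exact hz) hz0 ev hev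
      (by rw [bdet_map, Polynomial.coeff_map, hev']; exact ht1)
    let P : Set (R →+* k) := {q | ∃ p ∈ pts, ∃ (z' : k) (h : z' ^ 2 = p B), q = ptHom B p z' h}
    have hspec := fun r hr => spec_zero (R := R) (K := K) N0 N1 φ P
      (by
        intro s hs
        obtain ⟨c, d, rfl⟩ := exists_ab B s
        have hcd := hdense c d (by
          intro p hp z' hz'
          have h2 := hs (ptHom B p z' hz') ⟨p, hp, z', hz', rfl⟩
          rw [map_add, map_mul, ptHom_of, ptHom_of, ptHom_root] at h2
          rw [← h2]; ring)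
        rw [hcd.1, hcd.2]
        simp) ψ rfl H
      (by
        rintro q ⟨p, hp, z', hz', rfl⟩ r hr
        have e : (ptHom B p z' hz').comp φ = p := by
          refine RingHom.ext fun s => ?_
          exact ptHom_of B p z' hz' s
        rw [e] at hr ⊢
        exact hH p hp r hr) r hr
    have hψmap : ∀ N : Matrix (Fin 4) (Fin 4) S, (N.map φ).map (algebraMap R K) = N.map ψ := by
      intro N
      ext i j; rfl
    have hH0 : H.map ψ = 0 := by
      apply Polynomial.eq_zero_of_infinite_isRoot
      refine hiso'.mono fun r hr => ?_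
      show Polynomial.IsRoot _ r
      refine hspec r ?_
      have hr' : IsoPlane ((N0.map φ).map (algebraMap R K) + r • (N1.map φ).map (algebraMap R K)) :=
        hr
      rw [hψmap, hψmap] at hr'
      exact hr'
    have hψinj : Function.Injective ψ := hinj.comp hφinj
    exact Polynomial.map_injective ψ hψinj (by rw [hH0, Polynomial.map_zero])

end dense

end Pool.Agent.Work.Pencil
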