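import Mathlib
import Pool.Agent.Work.MP_b62148_ag.D9.ConicDense
import Pool.Agent.Work.MP_b62148_ag.D9odd.AMaps

/-!
Hyperplane sections of a family of quadric surfaces: rational points of the conics, from planes in
the quadratic forms.
-/

namespace Pool.Agent.Work.Pencil

open Matrix Pool.Agent.Work.D9odd

section forms

variable {S : Type*} [CommRing S]

/-- the bordered matrix -/
def bord (M : Matrix (Fin 4) (Fin 4) S) (l : Fin 4 → S) : Matrix (Fin 4 ⊕ Unit) (Fin 4 ⊕ Unit) S :=
  Matrix.fromBlocks M (Matrix.of fun i _ => l i) (Matrix.of fun _ j => l j) 0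

/-- vectors orthogonal to `l` -/
def hmat (l : Fin 4 → S) (i : Fin 4) : Matrix (Fin 4) (Fin 3) S :=
  Matrix.of fun a j => (if a = i.succAbove j then l i else 0) - (if a = i then l (i.succAbove j)
    else 0)

theorem hmat_mulVec_succ (l : Fin 4 → S) (i : Fin 4) (u : Fin 3 → S) (j : Fin 3) :
    (hmat l i *ᵥ u) (i.succAbove j) = l i * u j := by
  simp only [hmat, Matrix.mulVec, dotProduct, Matrix.of_apply, Fin.succAbove_ne, if_false, sub_zero]
  rw [Finset.sum_eq_single j]
  · simp
  · intro b _ hb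
    rw [if_neg]
    · ring
    · intro h
      exact hb (Fin.succAbove_right_injective h).symm
  · intro h
    exact absurd (Finset.mem_univ j) h

theorem hmat_mulVec_self (l : Fin 4 → S) (i : Fin 4) (u : Fin 3 → S) :
    (hmat l i *ᵥ u) i = - ∑ j, l (i.succAbove j) * u j := by
  simp only [hmat, Matrix.mulVec, dotProduct, Matrix.of_apply, if_true]
  rw [← Finset.sum_neg_distrib]
  refine Finset.sum_congr rfl fun j _ => ?_
  rw [if_neg (Fin.succAbove_ne i j).symm]
  ring

theorem hmat_orth (l : Fin 4 → S) (i : Fin 4) (u : Fin 3 → S) :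
    ∑ a, l a * (hmat l i *ᵥ u) a = 0 := by
  rw [Fin.sum_univ_succAbove _ i, hmat_mulVec_self]
  simp only [hmat_mulVec_succ]
  rw [mul_neg, Finset.mul_sum, ← sub_eq_neg_add, ← Finset.sum_sub_distrib]
  apply Finset.sum_eq_zero
  intro j _
  ring

theorem map_hmat {S' : Type*} [CommRing S'] (f : S →+* S') (l : Fin 4 → S) (i : Fin 4) :
    (hmat l i).map f = hmat (f ∘ l) i := by
  ext a j
  simp only [hmat, Matrix.map_apply, Matrix.of_apply, map_sub, Function.comp_apply]
  congr 1
  · split_ifs <;> simp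
  · split_ifs <;> simp

theorem det_sec_ne [IsDomain S] (h2 : (2 : S) ≠ 0) (M : Matrix (Fin 4) (Fin 4) S) (hM : Mᵀ = M)
    (l : Fin 4 → S) (i : Fin 4) (hi : l i ≠ 0) (hb : (bord M l).det ≠ 0) :
    ((hmat l i)ᵀ * M * hmat l i + ((hmat l i)ᵀ * M * hmat l i)ᵀ).det ≠ 0 := by
  set Q := (hmat l i)ᵀ * M * hmat l i with hQ
  have hQs : Qᵀ = Q := by
    rw [hQ, Matrix.transpose_mul, Matrix.transpose_mul, Matrix.transpose_transpose, hM,
      Matrix.mul_assoc]
  rw [hQs]
  intro h0
  obtain ⟨u, hu, hu0⟩ := Matrix.exists_mulVec_eq_zero_iff.mpr h0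
  have hu1 : Q *ᵥ u = 0 := by
    funext j
    have := congrFun hu0 j
    rw [Matrix.add_mulVec, Pi.add_apply, ← two_mul] at this
    exact (mul_eq_zero.mp this).resolve_left h2
  set w := hmat l i *ᵥ u with hw
  have hMw : (hmat l i)ᵀ *ᵥ (M *ᵥ w) = 0 := by
    rw [hw, Matrix.mulVec_mulVec, Matrix.mulVec_mulVec]; exact hu1
  have hrel : ∀ j : Fin 3, l i * (M *ᵥ w) (i.succAbove j) =
      l (i.succAbove j) * (M *ᵥ w) i := by
    intro j
    have h := congrFun hMw j
    rw [Matrix.mulVec, dotProduct, Fin.sum_univ_succAbove _ i] at h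
    simp only [hmat, Matrix.transpose_apply, Matrix.of_apply, if_true, Fin.succAbove_ne, if_false,
      sub_zero, Pi.zero_apply] at h
    rw [if_neg (Fin.succAbove_ne i j).symm, Finset.sum_eq_single j] at h
    · simp only [if_true] at h
      linear_combination h
    · intro b _ hb
      rw [if_neg]
      · ring
      · intro h'
        exact hb (Fin.succAbove_right_injective h')
    · intro h'
      exact absurd (Finset.mem_univ j) h'
  have hall : ∀ a : Fin 4, l i * (M *ᵥ w) a = l a * (M *ᵥ w) i := by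
    intro a
    rcases Fin.eq_self_or_eq_succAbove i a with rfl | ⟨j, rfl⟩
    · rfl
    · exact hrel j
  apply hb
  apply Matrix.exists_mulVec_eq_zero_iff.mp
  refine ⟨Sum.elim (l i • w) (fun _ => -(M *ᵥ w) i), ?_, ?_⟩
  · intro h
    apply hu
    funext j
    have h3 := congrFun h (Sum.inl (i.succAbove j))
    simp only [Sum.elim_inl, Pi.smul_apply, smul_eq_mul, Pi.zero_apply] at h3
    rw [hw, hmat_mulVec_succ] at h3
    have h4 := (mul_eq_zero.mp h3).resolve_left hi
    exact (mul_eq_zero.mp h4).resolve_left hi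
  · unfold bord
    rw [Matrix.fromBlocks_mulVec]
    funext a
    rcases a with a | a
    · simp only [Sum.elim_inl, Sum.elim_comp_inl, Sum.elim_comp_inr, Pi.add_apply, Pi.zero_apply,
        Matrix.mulVec_smul, Pi.smul_apply, smul_eq_mul]
      rw [hall a]
      simp [Matrix.mulVec, dotProduct]
    · simp only [Sum.elim_inr, Sum.elim_comp_inl, Sum.elim_comp_inr, Pi.add_apply, Pi.zero_apply]
      have := hmat_orth l i u
      rw [← hw] at this
      simp only [Matrix.mulVec, dotProduct, Matrix.of_apply, Matrix.zero_apply, Pi.smul_apply,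
        smul_eq_mul, zero_mul, Finset.sum_const_zero, add_zero]
      have e : ∑ x, l x * (l i * w x) = l i * ∑ x, l x * w x := by
        rw [Finset.mul_sum]
        refine Finset.sum_congr rfl fun x _ => ?_
        ring
      rw [e, this, mul_zero]

end forms

section points

variable {K : Type*} [Field K]

/-- a vector orthogonal to `l` comes from `hmat` -/
theorem exists_u (l : Fin 4 → K) (i : Fin 4) (hi : l i ≠ 0) (w : Fin 4 → K)
    (hw : ∑ a, l a * w a = 0) : hmat l i *ᵥ (fun j => w (i.succAbove j) / l i) = w := by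
  funext a
  rcases Fin.eq_self_or_eq_succAbove i a with h | ⟨j, rfl⟩
  · rw [h, hmat_mulVec_self]
    rw [Fin.sum_univ_succAbove _ i] at hw
    have e : ∑ j, l (i.succAbove j) * (w (i.succAbove j) / l i) =
        (∑ j, l (i.succAbove j) * w (i.succAbove j)) / l i := by
      rw [Finset.sum_div]
      refine Finset.sum_congr rfl fun j _ => ?_
      ring
    rw [e]
    field_simp
    linear_combination -hw
  · rw [hmat_mulVec_succ]
    field_simp

/-- a totally isotropic plane meets the hyperplane -/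
theorem exists_point (M : Matrix (Fin 4) (Fin 4) K) (hM : Mᵀ = M) (h : IsoPlane M)
    (l : Fin 4 → K) : ∃ w : Fin 4 → K, w ≠ 0 ∧ ∑ a, l a * w a = 0 ∧ bf M w w = 0 := by
  obtain ⟨x, y, hxy, hxx, hxy', hyy⟩ := h
  by_cases hx : ∑ a, l a * x a = 0
  · exact ⟨x, hxy.ne_zero 0, hx, hxx⟩
  · refine ⟨(∑ a, l a * y a) • x + (-∑ a, l a * x a) • y, ?_, ?_, ?_⟩
    · intro h0
      exact hx (by simpa using (LinearIndependent.pair_iff.mp hxy _ _ h0).2)
    · simp only [Pi.add_apply, Pi.smul_apply, smul_eq_mul, mul_add, Finset.sum_add_distrib]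
      have e1 : ∀ (c : K) (v : Fin 4 → K), ∑ a, l a * (c * v a) = c * ∑ a, l a * v a := by
        intro c v
        rw [Finset.mul_sum]
        refine Finset.sum_congr rfl fun a _ => ?_
        ring
      rw [e1, e1]; ring
    · have hyx : bf M y x = 0 := by rw [bf_comm hM]; exact hxy'
      simp only [bf_add_left, bf_add_right, bf_smul_left, bf_smul_right, hxx, hxy', hyx, hyy]
      ring

end points

section dense

open MvPolynomial

variable {L Ω τ : Type*} [Field L] [CharZero L] [Field Ω] [Algebra L Ω]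

theorem map_bf' {S A : Type*} [CommRing S] [CommRing A] (f : S →+* A) {n : Type*} [Fintype n]
    (N : Matrix n n S) (x y : n → S) : f (bf N x y) = bf (N.map f) (fun i => f (x i))
      (fun i => f (y i)) := map_bf f N x y

/-- the composite of `G` with the linear map `hmat` -/
noncomputable def comp3 (l : Fin 4 → MvPolynomial τ L) (i : Fin 4) (G : MvPolynomial (τ ⊕ Fin 4) L) :
    MvPolynomial (τ ⊕ Fin 3) L :=
  aeval (Sum.elim (fun t => X (Sum.inl t))
    (fun a => ∑ j, rename Sum.inl (hmat l i a j) * X (Sum.inr j))) G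

theorem aeval_comp3 (l : Fin 4 → MvPolynomial τ L) (i : Fin 4) (G : MvPolynomial (τ ⊕ Fin 4) L)
    (x : τ → Ω) (u : Fin 3 → Ω) : aeval (Sum.elim x u) (comp3 l i G) =
      aeval (Sum.elim x (hmat (fun a => aeval x (l a)) i *ᵥ u)) G := by
  unfold comp3
  rw [← AlgHom.comp_apply, comp_aeval]
  congr 2
  funext t
  rcases t with t | a
  · simp
  · simp only [Sum.elim_inr, map_sum, map_mul, aeval_X, Matrix.mulVec, dotProduct]
    refine Finset.sum_congr rfl fun j _ => ?_
    congr 1
    rw [aeval_rename]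
    have e : (Sum.elim x u) ∘ Sum.inl = x := rfl
    rw [e]
    have h := congrFun (congrFun (map_hmat ((aeval x : MvPolynomial τ L →ₐ[L] Ω).toRingHom) l i) a) j
    exact h

/-- **Sections.** -/
theorem dense_sec (M : Matrix (Fin 4) (Fin 4) (MvPolynomial τ L)) (hM : Mᵀ = M)
    (S : Set (τ → L)) (hS : ∀ G : MvPolynomial τ L, (∀ x ∈ S, eval x G = 0) → G = 0)
    (hiso : ∀ x ∈ S, IsoPlane (M.map (eval x))) (l : Fin 4 → MvPolynomial τ L)
    (hb : (bord M l).det ≠ 0) (G : MvPolynomial (τ ⊕ Fin 4) L)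
    (hG : ∀ x ∈ S, ∀ A : Fin 4 → L, A ≠ 0 → bf (M.map (eval x)) A A = 0 →
      ∑ a, eval x (l a) * A a = 0 → eval (Sum.elim x A) G = 0)
    (x : τ → Ω) (A : Fin 4 → Ω) (hA : bf (M.map (aeval x)) A A = 0)
    (hlA : ∑ a, aeval x (l a) * A a = 0) (hl : ∃ i, aeval x (l i) ≠ 0)
    (hsec : ∃ A' : Fin 4 → Ω, ∑ a, aeval x (l a) * A' a = 0 ∧ bf (M.map (aeval x)) A' A' ≠ 0) :
    aeval (Sum.elim x A) G = 0 := by
  classical
  obtain ⟨i, hi⟩ := hl
  have hli : l i ≠ 0 := by
    intro h
    rw [h, map_zero] at hi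
    exact hi rfl
  set H := hmat l i with hH
  set Q := Hᵀ * M * H with hQ
  have h2 : (2 : MvPolynomial τ L) ≠ 0 := two_ne_zero
  have hdet : (Q + Qᵀ).det ≠ 0 := det_sec_ne h2 M hM l i hli hb
  have hMs : ∀ x : τ → L, (M.map (eval x))ᵀ = M.map (eval x) := by
    intro x
    rw [← Matrix.transpose_map, hM]
  have hHe : ∀ x : τ → L, H.map (eval x) = hmat (fun a => eval x (l a)) i :=
    fun x => map_hmat _ _ _
  have hHa : ∀ x : τ → Ω, H.map (aeval x) = hmat (fun a => aeval x (l a)) i :=
    fun x => map_hmat ((aeval x : MvPolynomial τ L →ₐ[L] Ω).toRingHom) _ _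
  have hQe : ∀ (x : τ → L) (u : Fin 3 → L), D9.MC.qq (Q.map (eval x)) u =
      bf (M.map (eval x)) (hmat (fun a => eval x (l a)) i *ᵥ u)
        (hmat (fun a => eval x (l a)) i *ᵥ u) := by
    intro x u
    rw [← bf_congr, ← hHe]
    show bf (Q.map (eval x)) u u = _
    congr 1
    rw [hQ, Matrix.map_mul, Matrix.map_mul, Matrix.transpose_map]
  have hQa : ∀ (x : τ → Ω) (u : Fin 3 → Ω), D9.MC.qq (Q.map (aeval x)) u =
      bf (M.map (aeval x)) (hmat (fun a => aeval x (l a)) i *ᵥ u)
        (hmat (fun a => aeval x (l a)) i *ᵥ u) := by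
    intro x u
    rw [← bf_congr, ← hHa]
    show bf (Q.map (aeval x)) u u = _
    congr 1
    have e := Matrix.map_mul (L := Hᵀ * M) (M := H)
      (f := (aeval x : MvPolynomial τ L →ₐ[L] Ω).toRingHom)
    have e' := Matrix.map_mul (L := Hᵀ) (M := M)
      (f := (aeval x : MvPolynomial τ L →ₐ[L] Ω).toRingHom)
    have e3 : Q.map (aeval x) = (Hᵀ * M).map (aeval x) * H.map (aeval x) := e
    have e4 : (Hᵀ * M).map (aeval x) = Hᵀ.map (aeval x) * M.map (aeval x) := e'
    rw [e3, e4, Matrix.transpose_map]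
  -- the good points
  let S' : Set (τ → L) := {x | x ∈ S ∧ eval x (l i) ≠ 0}
  have hS' : ∀ G : MvPolynomial τ L, (∀ x ∈ S', eval x G = 0) → G = 0 := by
    intro G hG
    have := hS (G * l i) (by
      intro x hx
      rw [map_mul]
      by_cases h : eval x (l i) = 0
      · rw [h, mul_zero]
      · rw [hG x ⟨hx, h⟩, zero_mul])
    exact (mul_eq_zero.mp this).resolve_right hli
  have hsplit : ∀ x ∈ S', ∃ u : Fin 3 → L, u ≠ 0 ∧ D9.MC.qq (Q.map (eval x)) u = 0 := by
    rintro x ⟨hx, hxi⟩
    obtain ⟨w, hw, hlw, hqw⟩ := exists_point _ (hMs x) (hiso x hx) (fun a => eval x (l a))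
    have hu := exists_u (fun a => eval x (l a)) i hxi w hlw
    refine ⟨fun j => w (i.succAbove j) / eval x (l i), ?_, ?_⟩
    · intro h0
      apply hw
      rw [← hu, h0, Matrix.mulVec_zero]
    · rw [hQe, hu, hqw]
  have hu := exists_u (fun a => aeval x (l a)) i hi A hlA
  have key := D9.CD.dense_conic (Ω := Ω) Q hdet S' hS' hsplit (comp3 l i G) (by
      rintro y ⟨hy, hyi⟩ u hu0 hqu
      have e := aeval_comp3 (Ω := L) l i G y u
      rw [aeval_eq_eval, aeval_eq_eval] at e
      have e' : eval (Sum.elim y u) (comp3 l i G) =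
        eval (Sum.elim y (hmat (fun a => eval y (l a)) i *ᵥ u)) G := by
        rw [aeval_eq_eval] at e
        exact e
      rw [e']
      refine hG y hy _ ?_ ?_ ?_
      · intro h0
        apply hu0
        funext j
        have h3 := congrFun h0 (i.succAbove j)
        rw [hmat_mulVec_succ, Pi.zero_apply] at h3
        exact (mul_eq_zero.mp h3).resolve_left hyi
      · rw [← hQe]; exact hqu
      · exact hmat_orth _ _ _) x (fun j => A (i.succAbove j) / aeval x (l i))
      (by rw [hQa, hu]; exact hA) (by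
        obtain ⟨A', hlA', hA'⟩ := hsec
        have hu' := exists_u (fun a => aeval x (l a)) i hi A' hlA'
        refine ⟨fun j => A' (i.succAbove j) / aeval x (l i), ?_⟩
        rw [hQa, hu']
        exact hA')
  rw [aeval_comp3, hu] at key
  exact key

end dense

end Pool.Agent.Work.Pencil
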