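import Mathlib
import Pool.Agent.Work.MP_b62148_ag.Pencil.Cov
import Pool.Agent.Work.MP_b62148_ag.Pencil.Sec

/-!
Hyperplane sections of a pencil of quadric surfaces over an affine space: density over one field.
-/

namespace Pool.Agent.Work.Pencil

open Matrix MvPolynomial Pool.Agent.Work.D9odd

variable {k : Type*} [Field k] {n : ℕ}

/-- The matrix `N0(t) + r N1(t)`, where `t = (x_1, .., x_n)` and `r = x_0`. -/
noncomputable def penM (N0 N1 : Matrix (Fin 4) (Fin 4) (MvPolynomial (Fin n) k)) :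
    Matrix (Fin 4) (Fin 4) (MvPolynomial (Fin (n + 1)) k) :=
  N0.map (rename Fin.succ) + (X 0 : MvPolynomial (Fin (n + 1)) k) • N1.map (rename Fin.succ)

/-- the points of `z ^ 2 = B(t)` over `k` are dense -/
def CovDense (B : MvPolynomial (Fin n) k) : Prop :=
  ∀ a b : MvPolynomial (Fin n) k,
    (∀ (t : Fin n → k) (z : k), z ^ 2 = eval t B → eval t a + z * eval t b = 0) → a = 0 ∧ b = 0

/-- the points over `k` of the hyperplane section `l = 0` of `M` are dense -/
def SecDense (k : Type*) [Field k] (Ω : Type*) [Field Ω] [Algebra k Ω] {τ : Type*}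
    (M : Matrix (Fin 4) (Fin 4) (MvPolynomial τ k)) (l : Fin 4 → MvPolynomial τ k) : Prop :=
  ∀ G : MvPolynomial (τ ⊕ Fin 4) k,
    (∀ (x : τ → k) (A : Fin 4 → k), A ≠ 0 → bf (M.map (eval x)) A A = 0 →
      ∑ a, eval x (l a) * A a = 0 → eval (Sum.elim x A) G = 0) →
    ∀ (x : τ → Ω) (A : Fin 4 → Ω), bf (M.map (aeval x)) A A = 0 →
      ∑ a, aeval x (l a) * A a = 0 → (∃ i, aeval x (l i) ≠ 0) →
      (∃ A' : Fin 4 → Ω, ∑ a, aeval x (l a) * A' a = 0 ∧ bf (M.map (aeval x)) A' A' ≠ 0) →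
      aeval (Sum.elim x A) G = 0

theorem penM_symm {N0 N1 : Matrix (Fin 4) (Fin 4) (MvPolynomial (Fin n) k)} (h0 : N0ᵀ = N0)
    (h1 : N1ᵀ = N1) : (penM N0 N1)ᵀ = penM N0 N1 := by
  unfold penM
  rw [Matrix.transpose_add, Matrix.transpose_smul, ← Matrix.transpose_map, ← Matrix.transpose_map,
    h0, h1]

theorem penM_eval (N0 N1 : Matrix (Fin 4) (Fin 4) (MvPolynomial (Fin n) k)) (t : Fin n → k)
    (r : k) : (penM N0 N1).map (eval (Fin.cons r t)) =
      N0.map (eval t) + r • N1.map (eval t) := by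
  have hc : (Fin.cons r t : Fin (n + 1) → k) ∘ Fin.succ = t := by
    funext i
    simp
  ext i j
  simp only [penM, Matrix.map_apply, Matrix.add_apply, Matrix.smul_apply, smul_eq_mul, map_add,
    map_mul, eval_X, Fin.cons_zero, eval_rename, hc]

/-- Density over one field. -/
theorem same_field {Ω : Type*} [Field Ω] [CharZero k] [Algebra k Ω]
    (N0 N1 : Matrix (Fin 4) (Fin 4) (MvPolynomial (Fin n) k)) (h0 : N0ᵀ = N0) (h1 : N1ᵀ = N1)
    (a : Fin 4 → MvPolynomial (Fin n) k) (ha : a ≠ 0) (haa : bf N0 a a = 0) (hB : N0.det ≠ 0)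
    (t0 : Fin n → Ω) (ht0 : aeval t0 N0.det = 0)
    (ht1 : aeval t0 ((bdet N0 N1).coeff 1) ≠ 0) (hdense : CovDense N0.det)
    (l : Fin 4 → MvPolynomial (Fin (n + 1)) k) (hb : (bord (penM N0 N1) l).det ≠ 0) :
    SecDense k Ω (penM N0 N1) l := by
  have hΩ : CharZero Ω := charZero_of_injective_algebraMap (algebraMap k Ω).injective
  intro G hG x A hA hlA hl hsec
  refine dense_sec (penM N0 N1) (penM_symm h0 h1)
    {x | IsoPlane ((penM N0 N1).map (eval x))} ?_ (fun x hx => hx) l hb G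
    (fun x _ A hA0 hA hlA => hG x A hA0 hA hlA) x A hA hlA hl hsec
  intro g hg
  let H : Polynomial (MvPolynomial (Fin n) k) := finSuccEquiv k n g
  have hH : H = 0 := by
    refine dense_gen (k := k) (Ω := Ω) {p | ∃ t : Fin n → k, p = eval t} N0 N1 h0 h1 a ha haa hB
      (aeval t0 : MvPolynomial (Fin n) k →ₐ[k] Ω).toRingHom ht0 ht1 ?_ H ?_
    · intro c d hcd
      refine hdense c d fun t z hz => hcd (eval t) ⟨t, rfl⟩ z hz
    · rintro p ⟨t, rfl⟩ r hr
      have e := MvPolynomial.eval_eq_eval_mv_eval' t r g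
      show Polynomial.eval r (Polynomial.map (eval t) (finSuccEquiv k n g)) = 0
      rw [← e]
      apply hg
      show IsoPlane ((penM N0 N1).map (eval (Fin.cons r t)))
      rw [penM_eval]
      exact hr
  have : finSuccEquiv k n g = finSuccEquiv k n 0 := by rw [map_zero]; exact hH
  exact (finSuccEquiv k n).injective this

end Pool.Agent.Work.Pencil
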