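import Mathlib
import Pool.Agent.Work.MP_b62148_ag.Pencil.Same
import Pool.Agent.Work.MP_b62148_ag.D9odd.AFin
import Pool.Agent.Work.MP_b62148_ag.QLang

/-!
Potential density: finite extensions.
-/

namespace Pool.Agent.Work.Pencil

open Matrix MvPolynomial Pool.Agent.Work.D9odd

section sqfree

open Polynomial

variable {k : Type*} [Field k]

/-- square free part -/
theorem exists_sqfree (P : k[X]) (hP : P ≠ 0) : ∃ q s : k[X], P = q * s ^ 2 ∧ Squarefree q := by
  induction hn : P.natDegree using Nat.strong_induction_on generalizing P with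
  | _ n ih =>
    by_cases hsq : Squarefree P
    · exact ⟨P, 1, by ring, hsq⟩
    · unfold Squarefree at hsq
      push Not at hsq
      obtain ⟨x, ⟨P', hP'⟩, hx⟩ := hsq
      have hx0 : x ≠ 0 := by
        rintro rfl
        apply hP
        rw [hP']; ring
      have hP'0 : P' ≠ 0 := by
        rintro rfl
        apply hP
        rw [hP']; ring
      have hxd : 0 < x.natDegree := by
        rw [Nat.pos_iff_ne_zero]
        intro h0
        apply hx
        rw [Polynomial.eq_C_of_natDegree_eq_zero h0] at hx0 ⊢
        refine Polynomial.isUnit_C.mpr (isUnit_iff_ne_zero.mpr fun h => hx0 ?_)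
        rw [h, Polynomial.C_0]
      have hdeg : P'.natDegree < n := by
        rw [← hn, hP', Polynomial.natDegree_mul (mul_ne_zero hx0 hx0) hP'0,
          Polynomial.natDegree_mul hx0 hx0]
        omega
      obtain ⟨q, s, h1, h2⟩ := ih _ hdeg P' hP'0 rfl
      refine ⟨q, x * s, ?_, h2⟩
      rw [hP', h1]; ring

variable [CharZero k] {Ω : Type*} [Field Ω] [Algebra k Ω] [IsAlgClosed Ω]
  [Algebra.IsAlgebraic k Ω]

/-- infinitely many square values over a finite extension -/
theorem exists_sq_field (P g B1 : k[X]) (hP : P ≠ 0) (hgB : P = g ^ 2 * B1)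
    (hdeg : B1.natDegree ≤ 4) (W : Finset Ω) :
    ∃ L : IntermediateField k Ω, FiniteDimensional k L ∧ (W : Set Ω) ⊆ L ∧
      {t : L | IsSquare ((P.map (algebraMap k L)).eval t)}.Infinite := by
  classical
  have hB1 : B1 ≠ 0 := by
    rintro rfl
    apply hP
    rw [hgB, mul_zero]
  obtain ⟨q, s, hqs, hq⟩ := exists_sqfree B1 hB1
  have hq0 : q ≠ 0 := by
    rintro rfl
    apply hB1
    rw [hqs, zero_mul]
  have hs0 : s ≠ 0 := by
    rintro rfl
    apply hB1
    rw [hqs]; ring
  have hqdeg : q.natDegree ≤ 4 := by
    rw [hqs, Polynomial.natDegree_mul hq0 (pow_ne_zero 2 hs0)] at hdeg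
    omega
  have key : ∀ (L : IntermediateField k Ω) (t : L), IsSquare ((q.map (algebraMap k L)).eval t) →
      IsSquare ((P.map (algebraMap k L)).eval t) := by
    intro L t ht
    obtain ⟨w, hw⟩ := ht
    rw [hgB, hqs]
    simp only [Polynomial.map_mul, Polynomial.map_pow, Polynomial.eval_mul, Polynomial.eval_pow, hw]
    exact ⟨(g.map (algebraMap k L)).eval t * w * (s.map (algebraMap k L)).eval t, by ring⟩
  by_cases hd : q.natDegree = 0
  · -- constant
    obtain ⟨c, hc⟩ : ∃ c, q = Polynomial.C c := ⟨_, Polynomial.eq_C_of_natDegree_eq_zero hd⟩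
    obtain ⟨e, he⟩ := IsAlgClosed.exists_pow_nat_eq (algebraMap k Ω c) (n := 2) (by norm_num)
    let W' : Finset Ω := insert e W
    let L : IntermediateField k Ω := IntermediateField.adjoin k (W' : Set Ω)
    have hfd : FiniteDimensional k L := by
      apply IntermediateField.finiteDimensional_adjoin
      intro a _
      exact Algebra.IsIntegral.isIntegral a
    have heL : e ∈ L := IntermediateField.subset_adjoin k _ (by simp [W'])
    refine ⟨L, hfd, ?_, ?_⟩
    · intro w hw
      apply IntermediateField.subset_adjoin k _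
      simp only [W', Finset.coe_insert]
      exact Set.mem_insert_of_mem _ hw
    · have : {t : L | IsSquare ((P.map (algebraMap k L)).eval t)} = Set.univ := by
        rw [Set.eq_univ_iff_forall]
        intro t
        apply key
        rw [hc, Polynomial.map_C, Polynomial.eval_C]
        refine ⟨⟨e, heL⟩, ?_⟩
        apply (algebraMap L Ω).injective
        rw [map_mul]
        show algebraMap L Ω (algebraMap k L c) = e * e
        rw [← IsScalarTower.algebraMap_apply, ← he]
        ring
      rw [this]
      exact Set.infinite_univ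
  · -- a simple root
    have hsep : q.Separable := PerfectField.separable_iff_squarefree.mpr hq
    obtain ⟨v0, hv0⟩ := IsAlgClosed.exists_aeval_eq_zero Ω q (by
      intro h
      apply hd
      exact Polynomial.natDegree_eq_zero_iff_degree_le_zero.mpr h.le)
    have hv0' : Polynomial.aeval v0 (derivative q) ≠ 0 := by
      obtain ⟨u, w, huw⟩ := hsep
      intro h
      have := congrArg (Polynomial.aeval v0) huw
      rw [map_add, map_mul, map_mul, hv0, h, mul_zero, mul_zero, add_zero, map_one] at this
      exact zero_ne_one this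
    obtain ⟨L, hL, hW, hinf⟩ := exists_infinite_field q hqdeg v0 hv0 hv0' W
    refine ⟨L, hL, hW, ?_⟩
    refine (CPts_fst _ hinf).mono ?_
    rintro t ⟨z, hz⟩
    apply key
    exact ⟨z, by rw [← hz]; ring⟩

end sqfree

section cov

variable {k : Type*} [Field k]

/-- from polynomials in one variable with index in `Fin 1` to polynomials in one variable -/
noncomputable def toP (k : Type*) [Field k] : MvPolynomial (Fin 1) k →ₐ[k] Polynomial k :=
  aeval fun _ => Polynomial.X

theorem eval_toP (p : MvPolynomial (Fin 1) k) (t : Fin 1 → k) :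
    (toP k p).eval (t 0) = eval t p := by
  have h : (Polynomial.evalRingHom (t 0)).comp (toP k).toRingHom = eval t := by
    apply MvPolynomial.ringHom_ext
    · intro c
      simp [toP]
    · intro i
      fin_cases i
      simp [toP]
  rw [← h]
  rfl

theorem toP_injective : Function.Injective (toP k) := by
  let g : Polynomial k →ₐ[k] MvPolynomial (Fin 1) k := Polynomial.aeval (X 0)
  have h : g.comp (toP k) = AlgHom.id k _ := by
    apply MvPolynomial.algHom_ext
    intro i
    fin_cases i
    simp [g, toP]
  intro a b hab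
  have := congrArg g hab
  rw [← AlgHom.comp_apply, ← AlgHom.comp_apply, h] at this
  exact this

theorem toP_natDegree (p : MvPolynomial (Fin 1) k) : (toP k p).natDegree ≤ p.totalDegree := by
  unfold toP
  rw [MvPolynomial.aeval_def, MvPolynomial.eval₂_eq']
  refine (Polynomial.natDegree_sum_le _ _).trans ?_
  rw [Finset.fold_max_le]
  refine ⟨Nat.zero_le _, fun d hd => ?_⟩
  have h1 : ∏ i : Fin 1, (Polynomial.X : Polynomial k) ^ d i = Polynomial.X ^ d 0 := by simp
  simp only [Function.comp_apply]
  rw [h1]
  have h2 : (algebraMap k (Polynomial k)) (coeff d p) = Polynomial.C (coeff d p) := rfl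
  rw [h2]
  refine (Polynomial.natDegree_C_mul_X_pow_le _ _).trans ?_
  have h3 := MvPolynomial.le_totalDegree hd
  have h4 : (d.sum fun _ e => e) = d 0 := by
    rw [Finsupp.sum_fintype _ _ (fun _ => rfl)]
    simp
  rw [← h4]
  exact h3

theorem toP_map {L : Type*} [Field L] (f : k →+* L) (p : MvPolynomial (Fin 1) k) :
    toP L (MvPolynomial.map f p) = (toP k p).map f := by
  have h : (toP L).toRingHom.comp (MvPolynomial.map f) =
      (Polynomial.mapRingHom f).comp (toP k).toRingHom := by
    apply MvPolynomial.ringHom_ext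
    · intro c
      simp [toP]
    · intro i
      simp [toP]
  exact RingHom.congr_fun h p

/-- on the line it is enough to have infinitely many points -/
theorem covDense_one [CharZero k] (B : MvPolynomial (Fin 1) k) (hB : B ≠ 0)
    (hinf : {t : k | IsSquare ((toP k B).eval t)}.Infinite) : CovDense B := by
  intro a b hab
  have h1 : ∀ t ∈ {t : k | IsSquare ((toP k B).eval t)}, (toP k a).eval t = 0 ∧
      (toP k B * toP k b ^ 2).eval t = 0 := by
    rintro t ⟨z, hz⟩
    have ht : (toP k B).eval t = eval (fun _ : Fin 1 => t) B := eval_toP B (fun _ => t)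
    have e1 := hab (fun _ => t) z (by rw [← ht, hz]; ring)
    have e2 := hab (fun _ => t) (-z) (by rw [← ht, hz]; ring)
    have ea : (toP k a).eval t = eval (fun _ : Fin 1 => t) a := eval_toP a (fun _ => t)
    have eb : (toP k b).eval t = eval (fun _ : Fin 1 => t) b := eval_toP b (fun _ => t)
    rw [← ea, ← eb] at e1 e2
    have h2 : (2 : k) ≠ 0 := two_ne_zero
    constructor
    · have : 2 * (toP k a).eval t = 0 := by linear_combination e1 + e2
      exact (mul_eq_zero.mp this).resolve_left h2
    · have h3 : z * (toP k b).eval t = 0 := by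
        have : 2 * (z * (toP k b).eval t) = 0 := by linear_combination e1 - e2
        exact (mul_eq_zero.mp this).resolve_left h2
      rw [Polynomial.eval_mul, Polynomial.eval_pow, hz]
      linear_combination (z * (toP k b).eval t) * h3
  have ha : toP k a = 0 := Polynomial.eq_zero_of_infinite_isRoot _
    (hinf.mono fun t ht => (h1 t ht).1)
  have hb : toP k B * toP k b ^ 2 = 0 := Polynomial.eq_zero_of_infinite_isRoot _
    (hinf.mono fun t ht => (h1 t ht).2)
  have hB' : toP k B ≠ 0 := fun h => hB (toP_injective (by rw [h, map_zero]))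
  have hb' : toP k b = 0 := pow_eq_zero_iff two_ne_zero |>.mp
    ((mul_eq_zero.mp hb).resolve_left hB')
  exact ⟨toP_injective (by rw [ha, map_zero]), toP_injective (by rw [hb', map_zero])⟩

/-- density is preserved by extensions -/
theorem covDense_ext {L : Type*} [Field L] [Algebra k L] {n : ℕ} (B : MvPolynomial (Fin n) k)
    (h : CovDense B) : CovDense (MvPolynomial.map (algebraMap k L) B) := by
  classical
  -- apply a functional to the coefficients
  let ap : (L →ₗ[k] k) → MvPolynomial (Fin n) L → MvPolynomial (Fin n) k :=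
    fun f p => ∑ d ∈ p.support, monomial d (f (coeff d p))
  have hcoeff : ∀ f p d, coeff d (ap f p) = f (coeff d p) := by
    intro f p d
    simp only [ap, coeff_sum, coeff_monomial]
    rw [Finset.sum_ite_eq']
    split_ifs with hd
    · rfl
    · rw [MvPolynomial.notMem_support_iff.mp hd, map_zero]
  have heval : ∀ (f : L →ₗ[k] k) (p : MvPolynomial (Fin n) L) (t : Fin n → k),
      f (eval (fun i => algebraMap k L (t i)) p) = eval t (ap f p) := by
    intro f p t
    rw [MvPolynomial.eval_eq', map_sum]
    simp only [ap, map_sum, MvPolynomial.eval_monomial]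
    refine Finset.sum_congr rfl fun d _ => ?_
    have e : (∏ i, algebraMap k L (t i) ^ d i) = algebraMap k L (∏ i, t i ^ d i) := by
      rw [map_prod]
      simp only [map_pow]
    rw [e, mul_comm, ← Algebra.smul_def, map_smul, smul_eq_mul, mul_comm]
    congr 1
    rw [Finsupp.prod_fintype _ _ (fun i => pow_zero _)]
  intro a b hab
  have key : ∀ f : L →ₗ[k] k, ap f a = 0 ∧ ap f b = 0 := by
    intro f
    apply h
    intro t z hz
    have h1 := hab (fun i => algebraMap k L (t i)) (algebraMap k L z) (by
      have h3 := MvPolynomial.eval₂_comp_left (algebraMap k L) (RingHom.id k) t B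
      rw [RingHom.comp_id] at h3
      rw [← map_pow, hz, MvPolynomial.eval_map]
      exact h3)
    have h2 := congrArg f h1
    rw [map_add, map_zero, ← Algebra.smul_def, map_smul, heval, heval, smul_eq_mul] at h2
    exact h2
  have hsep : ∀ x : L, (∀ f : L →ₗ[k] k, f x = 0) → x = 0 := by
    intro x hx
    exact (Module.forall_dual_apply_eq_zero_iff k x).mp hx
  constructor
  · ext d
    rw [coeff_zero]
    apply hsep
    intro f
    rw [← hcoeff, (key f).1, coeff_zero]
  · ext d
    rw [coeff_zero]
    apply hsep
    intro f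
    rw [← hcoeff, (key f).2, coeff_zero]

end cov

section tsen

variable {Ω : Type*} [Field Ω] [IsAlgClosed Ω]

/-- Tsen -/
theorem exists_zero_one (N : Matrix (Fin 4) (Fin 4) (MvPolynomial (Fin 1) Ω)) :
    ∃ a : Fin 4 → MvPolynomial (Fin 1) Ω, a ≠ 0 ∧ bf N a a = 0 := by
  obtain ⟨v, hv, hvv⟩ := PD.exists_isotropic (K := Ω) (N := 4) (m := 1) (by norm_num)
    (fun i j => N i j)
  refine ⟨v, hv, ?_⟩
  rw [← hvv]
  simp only [bf, PD.bil, Matrix.mulVec, dotProduct, Finset.mul_sum]
  refine Finset.sum_congr rfl fun i _ => Finset.sum_congr rfl fun j _ => ?_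
  ring

end tsen

end Pool.Agent.Work.Pencil
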