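import Mathlib
import Pool.Agent.Work.MP_b62148_ag.Pencil.Pot

/-!
Potential density of all hyperplane sections of a pencil of quadric surfaces over an affine space.
-/

namespace Pool.Agent.Work.Pencil

open Matrix MvPolynomial Pool.Agent.Work.D9odd

section lift

variable {k Ω : Type*} [Field k] [Field Ω] [Algebra k Ω]

theorem lift_poly {τ : Type*} (L : IntermediateField k Ω) (p : MvPolynomial τ Ω)
    (h : ∀ d ∈ p.support, coeff d p ∈ L) :
    ∃ g : MvPolynomial τ L, MvPolynomial.map (algebraMap L Ω) g = p := by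
  classical
  refine ⟨∑ d ∈ p.support.attach, monomial d.1 ⟨coeff d.1 p, h d.1 d.2⟩, ?_⟩
  rw [map_sum]
  simp only [MvPolynomial.map_monomial]
  have : ∑ d ∈ p.support.attach, (monomial d.1) ((algebraMap L Ω) ⟨coeff d.1 p, h d.1 d.2⟩) =
      ∑ d ∈ p.support.attach, (monomial d.1) (coeff d.1 p) := rfl
  rw [this, Finset.sum_attach p.support (fun d => monomial d (coeff d p))]
  exact MvPolynomial.support_sum_monomial_coeff p

/-- the coefficients of a vector -/
noncomputable def coefs {τ : Type*} (a : Fin 4 → MvPolynomial τ Ω) : Finset Ω := by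
  classical
  exact Finset.univ.biUnion fun i => (a i).support.image fun d => coeff d (a i)

theorem lift_vec {τ : Type*} (L : IntermediateField k Ω) (a : Fin 4 → MvPolynomial τ Ω)
    (h : (coefs a : Set Ω) ⊆ L) :
    ∃ g : Fin 4 → MvPolynomial τ L, ∀ i, MvPolynomial.map (algebraMap L Ω) (g i) = a i := by
  classical
  have : ∀ i, ∃ g : MvPolynomial τ L, MvPolynomial.map (algebraMap L Ω) g = a i := by
    intro i
    apply lift_poly
    intro d hd
    apply h
    simp only [coefs, Finset.coe_biUnion, Finset.coe_image, Set.mem_iUnion]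
    exact ⟨i, by simp, d, hd, rfl⟩
  choose g hg using this
  exact ⟨g, hg⟩

end lift

section main

variable {k Ω : Type*} [Field k] [CharZero k] [Field Ω] [IsAlgClosed Ω] [Algebra k Ω] {n : ℕ}

/-- base change of a matrix of polynomials -/
noncomputable def baseM {L : Type*} [Field L] [Algebra k L] {τ : Type*}
    (N : Matrix (Fin 4) (Fin 4) (MvPolynomial τ k)) : Matrix (Fin 4) (Fin 4) (MvPolynomial τ L) :=
  N.map (MvPolynomial.map (algebraMap k L))

theorem baseM_det {L : Type*} [Field L] [Algebra k L] {τ : Type*}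
    (N : Matrix (Fin 4) (Fin 4) (MvPolynomial τ k)) :
    (baseM (L := L) N).det = MvPolynomial.map (algebraMap k L) N.det :=
  (RingHom.map_det (MvPolynomial.map (algebraMap k L)) N).symm

theorem aeval_map_base (L : IntermediateField k Ω) {τ : Type*} (t : τ → Ω)
    (p : MvPolynomial τ k) :
    aeval t (MvPolynomial.map (algebraMap k L) p) = aeval t p := by
  rw [MvPolynomial.aeval_map_algebraMap]

/-- the core: over a given field -/
theorem over_field (N0 N1 : Matrix (Fin 4) (Fin 4) (MvPolynomial (Fin n) k)) (h0 : N0ᵀ = N0)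
    (h1 : N1ᵀ = N1) (hB : N0.det ≠ 0) (t0 : Fin n → Ω) (ht0 : aeval t0 N0.det = 0)
    (ht1 : aeval t0 ((bdet N0 N1).coeff 1) ≠ 0) (a : Fin 4 → MvPolynomial (Fin n) Ω) (ha : a ≠ 0)
    (haa : bf (baseM (L := Ω) N0) a a = 0) (L : IntermediateField k Ω)
    (hW : (coefs a : Set Ω) ⊆ L)
    (hcov : CovDense (MvPolynomial.map (algebraMap k L) N0.det))
    (l : Fin 4 → MvPolynomial (Fin (n + 1)) L)
    (hb : (bord (penM (baseM (L := L) N0) (baseM (L := L) N1)) l).det ≠ 0) :
    SecDense L Ω (penM (baseM (L := L) N0) (baseM (L := L) N1)) l := by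
  obtain ⟨a', ha'⟩ := lift_vec L a hW
  have hinj : Function.Injective (MvPolynomial.map (σ := Fin n) (algebraMap L Ω)) :=
    MvPolynomial.map_injective _ (algebraMap L Ω).injective
  have hinj' : Function.Injective (MvPolynomial.map (σ := Fin n) (algebraMap k L)) :=
    MvPolynomial.map_injective _ (algebraMap k L).injective
  have hsym : ∀ {N : Matrix (Fin 4) (Fin 4) (MvPolynomial (Fin n) k)}, Nᵀ = N →
      (baseM (L := L) N)ᵀ = baseM (L := L) N := by
    intro N hN
    unfold baseM
    rw [← Matrix.transpose_map, hN]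
  have hmm : (baseM (L := L) N0).map (MvPolynomial.map (algebraMap L Ω)) = baseM (L := Ω) N0 := by
    refine Matrix.ext fun i j => ?_
    simp only [baseM, Matrix.map_apply]
    rw [MvPolynomial.map_map, ← IsScalarTower.algebraMap_eq]
  refine same_field (Ω := Ω) (baseM (L := L) N0) (baseM (L := L) N1) (hsym h0) (hsym h1) a' ?_ ?_ ?_
    t0 ?_ ?_ ?_ l hb
  · intro h
    apply ha
    funext i
    rw [← ha' i, h]
    simp
  · apply hinj
    rw [map_zero, ← haa, map_bf]
    congr 1
    · funext i
      exact ha' i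
    · funext i
      exact ha' i
  · rw [baseM_det]
    intro h
    exact hB (hinj' (by rw [h, map_zero]))
  · rw [baseM_det, aeval_map_base]; exact ht0
  · unfold baseM
    rw [bdet_map N0 N1 (MvPolynomial.map (algebraMap k L)), Polynomial.coeff_map, aeval_map_base]
    exact ht1
  · rw [baseM_det]; exact hcov

variable [Algebra.IsAlgebraic k Ω]

/-- Over a line: the determinant has at most four zeros of odd order. -/
theorem main_line (N0 N1 : Matrix (Fin 4) (Fin 4) (MvPolynomial (Fin 1) k)) (h0 : N0ᵀ = N0)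
    (h1 : N1ᵀ = N1) (hB : N0.det ≠ 0) (t0 : Fin 1 → Ω) (ht0 : aeval t0 N0.det = 0)
    (ht1 : aeval t0 ((bdet N0 N1).coeff 1) ≠ 0) (g B1 : MvPolynomial (Fin 1) k)
    (hgB : N0.det = g ^ 2 * B1) (hdeg : B1.totalDegree ≤ 4) :
    ∃ L : IntermediateField k Ω, FiniteDimensional k L ∧
      ∀ l : Fin 4 → MvPolynomial (Fin 2) L,
        (bord (penM (baseM (L := L) N0) (baseM (L := L) N1)) l).det ≠ 0 →
        SecDense L Ω (penM (baseM (L := L) N0) (baseM (L := L) N1)) l := by
  obtain ⟨a, ha, haa⟩ := exists_zero_one (baseM (L := Ω) N0)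
  obtain ⟨L, hL, hW, hinf⟩ := exists_sq_field (Ω := Ω) (toP k N0.det) (toP k g) (toP k B1)
    (fun h => hB (toP_injective (by rw [h, map_zero]))) (by rw [hgB, map_mul, map_pow])
    ((toP_natDegree B1).trans hdeg) (coefs a)
  refine ⟨L, hL, fun l hb => over_field N0 N1 h0 h1 hB t0 ht0 ht1 a ha haa L hW ?_ l hb⟩
  apply covDense_one
  · intro h
    exact hB (MvPolynomial.map_injective _ (algebraMap k L).injective (by rw [h, map_zero]))
  · rw [toP_map]
    exact hinf

/-- Over a space of any dimension. -/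
theorem main_space (N0 N1 : Matrix (Fin 4) (Fin 4) (MvPolynomial (Fin n) k)) (h0 : N0ᵀ = N0)
    (h1 : N1ᵀ = N1) (hB : N0.det ≠ 0) (t0 : Fin n → Ω) (ht0 : aeval t0 N0.det = 0)
    (ht1 : aeval t0 ((bdet N0 N1).coeff 1) ≠ 0) (a : Fin 4 → MvPolynomial (Fin n) Ω) (ha : a ≠ 0)
    (haa : bf (baseM (L := Ω) N0) a a = 0) (L1 : IntermediateField k Ω)
    (hL1 : FiniteDimensional k L1)
    (hcov : CovDense (MvPolynomial.map (algebraMap k L1) N0.det)) :
    ∃ L : IntermediateField k Ω, FiniteDimensional k L ∧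
      ∀ l : Fin 4 → MvPolynomial (Fin (n + 1)) L,
        (bord (penM (baseM (L := L) N0) (baseM (L := L) N1)) l).det ≠ 0 →
        SecDense L Ω (penM (baseM (L := L) N0) (baseM (L := L) N1)) l := by
  let L2 : IntermediateField k Ω := IntermediateField.adjoin k (coefs a : Set Ω)
  have hL2 : FiniteDimensional k L2 := by
    apply IntermediateField.finiteDimensional_adjoin
    intro x _
    exact Algebra.IsIntegral.isIntegral x
  let L : IntermediateField k Ω := L1 ⊔ L2
  have hL : FiniteDimensional k L := IntermediateField.finiteDimensional_sup L1 L2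
  have hW : (coefs a : Set Ω) ⊆ L := by
    intro x hx
    exact (le_sup_right : L2 ≤ L) (IntermediateField.subset_adjoin k _ hx)
  refine ⟨L, hL, fun l hb => over_field N0 N1 h0 h1 hB t0 ht0 ht1 a ha haa L hW ?_ l hb⟩
  have hle : L1 ≤ L := le_sup_left
  let _ : Algebra L1 L := (IntermediateField.inclusion hle).toRingHom.toAlgebra
  have h3 := covDense_ext (L := L) _ hcov
  have e : MvPolynomial.map (algebraMap L1 L) (MvPolynomial.map (algebraMap k L1) N0.det) =
      MvPolynomial.map (algebraMap k L) N0.det := by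
    rw [MvPolynomial.map_map]
    rfl
  rw [e] at h3
  exact h3

end main

end Pool.Agent.Work.Pencil
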