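import Mathlib
import Pool.Agent.Work.MP_b62148_ag.Pencil.Main

/-!
The case of one variable, with ordinary polynomials.
-/

namespace Pool.Agent.Work.Pencil

open Matrix MvPolynomial Pool.Agent.Work.D9odd

section conv

variable {k : Type*} [Field k]

/-- from polynomials in one variable to polynomials with index in `Fin 1` -/
noncomputable def ofP (k : Type*) [Field k] : Polynomial k →ₐ[k] MvPolynomial (Fin 1) k :=
  Polynomial.aeval (X 0)

theorem toP_ofP (p : Polynomial k) : toP k (ofP k p) = p := by
  have h : (toP k).comp (ofP k) = AlgHom.id k _ := by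
    apply Polynomial.algHom_ext
    simp [ofP, toP]
  exact AlgHom.congr_fun h p

theorem ofP_toP (p : MvPolynomial (Fin 1) k) : ofP k (toP k p) = p :=
  toP_injective (toP_ofP _)

theorem ofP_injective : Function.Injective (ofP k) := by
  intro a b h
  rw [← toP_ofP a, ← toP_ofP b, h]

theorem ofP_map {L : Type*} [Field L] (f : k →+* L) (p : Polynomial k) :
    ofP L (p.map f) = MvPolynomial.map f (ofP k p) := by
  apply toP_injective
  rw [toP_ofP, toP_map, toP_ofP]

theorem aeval_ofP {Ω : Type*} [Field Ω] [Algebra k Ω] (t : Ω) (p : Polynomial k) :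
    aeval (fun _ : Fin 1 => t) (ofP k p) = Polynomial.aeval t p := by
  have h : ((aeval (fun _ : Fin 1 => t)) : MvPolynomial (Fin 1) k →ₐ[k] Ω).comp (ofP k) =
      Polynomial.aeval t := by
    apply Polynomial.algHom_ext
    simp [ofP]
  exact AlgHom.congr_fun h p

theorem ofP_totalDegree (p : Polynomial k) : (ofP k p).totalDegree ≤ p.natDegree := by
  unfold ofP
  rw [Polynomial.aeval_eq_sum_range]
  refine (MvPolynomial.totalDegree_finset_sum _ _).trans (Finset.sup_le fun i hi => ?_)
  refine (MvPolynomial.totalDegree_smul_le _ _).trans ?_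
  rw [MvPolynomial.totalDegree_X_pow]
  have := Finset.mem_range.mp hi
  omega

theorem rename_ofP (p : Polynomial k) :
    rename (Fin.succ : Fin 1 → Fin 2) (ofP k p) = Polynomial.aeval (X 1) p := by
  have h : (rename (Fin.succ : Fin 1 → Fin 2)).comp (ofP k) =
      (Polynomial.aeval (X 1) : Polynomial k →ₐ[k] MvPolynomial (Fin 2) k) := by
    apply Polynomial.algHom_ext
    simp [ofP]
  exact AlgHom.congr_fun h p

/-- the matrix over `MvPolynomial (Fin 1)` -/
noncomputable def ofM (N : Matrix (Fin 4) (Fin 4) (Polynomial k)) :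
    Matrix (Fin 4) (Fin 4) (MvPolynomial (Fin 1) k) := N.map (ofP k)

theorem ofM_det (N : Matrix (Fin 4) (Fin 4) (Polynomial k)) : (ofM N).det = ofP k N.det :=
  (AlgHom.map_det (ofP k) N).symm

theorem ofM_symm {N : Matrix (Fin 4) (Fin 4) (Polynomial k)} (h : Nᵀ = N) :
    (ofM N)ᵀ = ofM N := by
  unfold ofM
  rw [← Matrix.transpose_map, h]

theorem ofM_bdet (N0 N1 : Matrix (Fin 4) (Fin 4) (Polynomial k)) (i : ℕ) :
    (bdet (ofM N0) (ofM N1)).coeff i = ofP k ((bdet N0 N1).coeff i) := by
  have h := bdet_map N0 N1 (ofP k).toRingHom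
  have h2 : bdet (ofM N0) (ofM N1) = (bdet N0 N1).map (ofP k).toRingHom := h
  rw [h2, Polynomial.coeff_map]
  rfl

/-- The matrix `N0(t) + r N1(t)`, where `r = X 0`, `t = X 1`, over the field `L`. -/
noncomputable def lineM (L : Type*) [Field L] [Algebra k L]
    (N0 N1 : Matrix (Fin 4) (Fin 4) (Polynomial k)) :
    Matrix (Fin 4) (Fin 4) (MvPolynomial (Fin 2) L) :=
  Matrix.of fun i j => Polynomial.aeval (X 1) (N0 i j) + X 0 * Polynomial.aeval (X 1) (N1 i j)

theorem lineM_eq {L : Type*} [Field L] [Algebra k L]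
    (N0 N1 : Matrix (Fin 4) (Fin 4) (Polynomial k)) :
    lineM L N0 N1 = penM (baseM (L := L) (ofM N0)) (baseM (L := L) (ofM N1)) := by
  have key : ∀ p : Polynomial k, rename (Fin.succ : Fin 1 → Fin 2)
      (MvPolynomial.map (algebraMap k L) (ofP k p)) =
      (Polynomial.aeval (X 1 : MvPolynomial (Fin 2) L) p) := by
    intro p
    rw [← ofP_map, rename_ofP, Polynomial.aeval_map_algebraMap]
  refine Matrix.ext fun i j => ?_
  simp only [lineM, penM, baseM, ofM, Matrix.of_apply, Matrix.add_apply, Matrix.smul_apply,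
    Matrix.map_apply, smul_eq_mul, key]

end conv

section main

variable {k Ω : Type*} [Field k] [CharZero k] [Field Ω] [IsAlgClosed Ω] [Algebra k Ω]
  [Algebra.IsAlgebraic k Ω]

/-- the two conditions on the field `L` -/
def GoodField (L : Type*) [Field L] [Algebra k L] (N0 : Matrix (Fin 4) (Fin 4) (Polynomial k)) :
    Prop :=
  (∃ a : Fin 4 → Polynomial L, a ≠ 0 ∧ bf (N0.map (Polynomial.map (algebraMap k L))) a a = 0) ∧
    {t : L | IsSquare (Polynomial.aeval t N0.det)}.Infinite

omit [IsAlgClosed Ω] [Algebra.IsAlgebraic k Ω] in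
theorem good_dense (N0 N1 : Matrix (Fin 4) (Fin 4) (Polynomial k)) (h0 : N0ᵀ = N0)
    (h1 : N1ᵀ = N1) (hB : N0.det ≠ 0) (t0 : Ω) (ht0 : Polynomial.aeval t0 N0.det = 0)
    (ht1 : Polynomial.aeval t0 ((bdet N0 N1).coeff 1) ≠ 0) (L : IntermediateField k Ω)
    (hL : GoodField L N0) (l : Fin 4 → MvPolynomial (Fin 2) L)
    (hb : (bord (lineM L N0 N1) l).det ≠ 0) : SecDense L Ω (lineM L N0 N1) l := by
  obtain ⟨⟨a, ha, haa⟩, hinf⟩ := hL
  rw [lineM_eq] at hb ⊢
  have hsym : ∀ {N : Matrix (Fin 4) (Fin 4) (Polynomial k)}, Nᵀ = N →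
      (baseM (L := L) (ofM N))ᵀ = baseM (L := L) (ofM N) := by
    intro N hN
    unfold baseM
    rw [← Matrix.transpose_map, ofM_symm hN]
  have hdet : (baseM (L := L) (ofM N0)).det =
      MvPolynomial.map (algebraMap k L) (ofP k N0.det) := by
    rw [baseM_det, ofM_det]
  have hdet0 : (baseM (L := L) (ofM N0)).det ≠ 0 := by
    rw [hdet]
    intro h
    apply hB
    apply ofP_injective
    rw [map_zero]
    exact MvPolynomial.map_injective _ (algebraMap k L).injective (by rw [h, map_zero])
  have hmap : ∀ p : Polynomial k, aeval (fun _ : Fin 1 => t0)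
      (MvPolynomial.map (algebraMap k L) (ofP k p)) = Polynomial.aeval t0 p := by
    intro p
    rw [MvPolynomial.aeval_map_algebraMap, aeval_ofP]
  refine same_field (Ω := Ω) (baseM (L := L) (ofM N0)) (baseM (L := L) (ofM N1)) (hsym h0)
    (hsym h1) (fun i => ofP L (a i)) ?_ ?_ hdet0 (fun _ => t0) ?_ ?_ ?_ l hb
  · intro h
    apply ha
    funext i
    apply ofP_injective
    rw [Pi.zero_apply, map_zero]
    exact congrFun h i
  · have h := congrArg (ofP L) haa
    have h2 := map_bf (ofP L).toRingHom (N0.map (Polynomial.map (algebraMap k L))) a a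
    have h3 : (ofP L).toRingHom (bf (N0.map (Polynomial.map (algebraMap k L))) a a) = 0 := by
      rw [haa, map_zero]
    rw [h2] at h3
    rw [← h3]
    congr 1
    refine Matrix.ext fun i j => ?_
    simp only [baseM, ofM, Matrix.map_apply]
    exact (ofP_map (algebraMap k L) (N0 i j)).symm
  · rw [hdet, hmap]; exact ht0
  · unfold baseM
    rw [bdet_map (ofM N0) (ofM N1) (MvPolynomial.map (algebraMap k L)), Polynomial.coeff_map,
      ofM_bdet, hmap]
    exact ht1
  · apply covDense_one _ hdet0
    rw [hdet, ← ofP_map, toP_ofP]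
    have e : ∀ t : L, (N0.det.map (algebraMap k L)).eval t = Polynomial.aeval t N0.det := by
      intro t
      rw [Polynomial.eval_map]
      rfl
    simp only [e]
    exact hinf

/-- a good finite extension -/
theorem exists_good (N0 : Matrix (Fin 4) (Fin 4) (Polynomial k)) (hB : N0.det ≠ 0)
    (g B1 : Polynomial k) (hgB : N0.det = g ^ 2 * B1) (hdeg : B1.natDegree ≤ 4) :
    ∃ L : IntermediateField k Ω, FiniteDimensional k L ∧ GoodField L N0 := by
  obtain ⟨a, ha, haa⟩ := exists_zero_one (baseM (L := Ω) (ofM N0))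
  obtain ⟨L, hL, hW, hinf⟩ := exists_sq_field (Ω := Ω) N0.det g B1 hB hgB hdeg (coefs a)
  refine ⟨L, hL, ?_, ?_⟩
  · obtain ⟨a', ha'⟩ := lift_vec L a hW
    have hinj : Function.Injective (MvPolynomial.map (σ := Fin 1) (algebraMap L Ω)) :=
      MvPolynomial.map_injective _ (algebraMap L Ω).injective
    refine ⟨fun i => toP L (a' i), ?_, ?_⟩
    · intro h
      apply ha
      funext i
      have h2 : a' i = 0 := toP_injective (by rw [map_zero]; exact congrFun h i)
      rw [← ha' i, h2]
      simp
    · apply ofP_injective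
      apply hinj
      rw [map_zero, map_zero, ← haa]
      have h2 := map_bf (ofP L).toRingHom (N0.map (Polynomial.map (algebraMap k L)))
        (fun i => toP L (a' i)) (fun i => toP L (a' i))
      have h3 : ofP L (bf (N0.map (Polynomial.map (algebraMap k L))) (fun i => toP L (a' i))
          (fun i => toP L (a' i))) = bf (baseM (L := L) (ofM N0)) a' a' := by
        refine h2.trans ?_
        congr 1
        · refine Matrix.ext fun i j => ?_
          simp only [baseM, ofM, Matrix.map_apply]
          exact ofP_map (algebraMap k L) (N0 i j)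
        · funext i
          exact ofP_toP _
        · funext i
          exact ofP_toP _
      rw [h3, map_bf]
      congr 1
      · refine Matrix.ext fun i j => ?_
        simp only [baseM, Matrix.map_apply]
        rw [MvPolynomial.map_map, ← IsScalarTower.algebraMap_eq]
      · funext i
        exact ha' i
      · funext i
        exact ha' i
  · have e : ∀ t : L, (N0.det.map (algebraMap k L)).eval t = Polynomial.aeval t N0.det := by
      intro t
      rw [Polynomial.eval_map]
      rfl
    simp only [e] at hinf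
    exact hinf

end main

end Pool.Agent.Work.Pencil
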