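import Mathlib
import Pool.Agent.Work.MP_b62148_ag.Pencil.Line

/-!
Translation of the parameter of the pencil.
-/

namespace Pool.Agent.Work.Pencil

open Matrix MvPolynomial Pool.Agent.Work.D9odd

section shift

variable {L : Type*} [Field L]

/-- the translation `x_0 ↦ x_0 + c` -/
noncomputable def sh (c : L) : MvPolynomial (Fin 2) L →ₐ[L] MvPolynomial (Fin 2) L :=
  aeval ![X 0 + C c, X 1]

theorem sh_sh (c : L) (p : MvPolynomial (Fin 2) L) : sh (-c) (sh c p) = p := by
  have h : (sh (-c)).comp (sh c) = AlgHom.id L _ := by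
    apply MvPolynomial.algHom_ext
    intro i
    fin_cases i
    · show sh (-c) (sh c (X 0)) = X 0
      simp [sh, MvPolynomial.algebraMap_eq]
    · show sh (-c) (sh c (X 1)) = X 1
      simp [sh]
  exact AlgHom.congr_fun h p

theorem sh_injective (c : L) : Function.Injective (sh c) := by
  intro a b h
  rw [← sh_sh c a, ← sh_sh c b, h]

theorem aeval_sh {A : Type*} [CommRing A] [Algebra L A] (c : L) (x : Fin 2 → A)
    (p : MvPolynomial (Fin 2) L) :
    aeval x (sh c p) = aeval ![x 0 + algebraMap L A c, x 1] p := by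
  unfold sh
  rw [← AlgHom.comp_apply, comp_aeval]
  congr 2
  funext i
  fin_cases i <;> simp

/-- the translation, with the fibre variables -/
noncomputable def sh6 (c : L) : MvPolynomial (Fin 2 ⊕ Fin 4) L →ₐ[L] MvPolynomial (Fin 2 ⊕ Fin 4) L :=
  aeval (Sum.elim ![X (Sum.inl 0) + C c, X (Sum.inl 1)] (fun a => X (Sum.inr a)))

theorem aeval_sh6 {A : Type*} [CommRing A] [Algebra L A] (c : L) (x : Fin 2 → A) (a : Fin 4 → A)
    (p : MvPolynomial (Fin 2 ⊕ Fin 4) L) :
    aeval (Sum.elim x a) (sh6 c p) = aeval (Sum.elim ![x 0 + algebraMap L A c, x 1] a) p := by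
  unfold sh6
  rw [← AlgHom.comp_apply, comp_aeval]
  congr 2
  funext i
  rcases i with i | i
  · fin_cases i <;> simp
  · simp

theorem bord_map {S A : Type*} [CommRing S] [CommRing A] (f : S →+* A)
    (M : Matrix (Fin 4) (Fin 4) S) (l : Fin 4 → S) :
    (bord (M.map f) (f ∘ l)).det = f (bord M l).det := by
  rw [RingHom.map_det]
  congr 1
  ext i j
  rcases i with i | i <;> rcases j with j | j <;> simp [bord]

theorem secDense_shift {Ω : Type*} [Field Ω] [Algebra L Ω] (c : L)
    (M : Matrix (Fin 4) (Fin 4) (MvPolynomial (Fin 2) L)) (l : Fin 4 → MvPolynomial (Fin 2) L)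
    (h : SecDense L Ω (M.map (sh c)) (fun i => sh c (l i))) : SecDense L Ω M l := by
  intro G hG x A hA hlA hl hsec
  have e2 : ∀ y : Fin 2 → L, (![y 0 + c - c, y 1] : Fin 2 → L) = y := by
    intro y; funext i; fin_cases i <;> simp
  set x' : Fin 2 → Ω := ![x 0 - algebraMap L Ω c, x 1] with hx'
  have ex : (![x' 0 + algebraMap L Ω c, x' 1] : Fin 2 → Ω) = x := by
    funext i
    fin_cases i <;> simp [hx']
  have hMa : ((M.map (sh c)).map (aeval x') : Matrix (Fin 4) (Fin 4) Ω) = M.map (aeval x) := by
    refine Matrix.ext fun i j => ?_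
    simp only [Matrix.map_apply]
    rw [aeval_sh, ex]
  have hla : ∀ i, aeval x' (sh c (l i)) = aeval x (l i) := by
    intro i
    rw [aeval_sh, ex]
  have hMe : ∀ y : Fin 2 → L, ((M.map (sh c)).map (eval y) : Matrix (Fin 4) (Fin 4) L) =
      M.map (eval ![y 0 + c, y 1]) := by
    intro y
    refine Matrix.ext fun i j => ?_
    simp only [Matrix.map_apply]
    have := aeval_sh c y (M i j)
    rw [aeval_eq_eval, aeval_eq_eval] at this
    exact this
  have hle : ∀ (y : Fin 2 → L) i, eval y (sh c (l i)) = eval ![y 0 + c, y 1] (l i) := by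
    intro y i
    have := aeval_sh c y (l i)
    rw [aeval_eq_eval, aeval_eq_eval] at this
    exact this
  have key := h (sh6 c G) (by
    intro y a ha hqa hla'
    have h3 := aeval_sh6 c y a G
    rw [aeval_eq_eval, aeval_eq_eval] at h3
    refine h3.trans ?_
    rw [hMe] at hqa
    simp only [hle] at hla'
    exact hG ![y 0 + c, y 1] a ha hqa hla') x' A (by rw [hMa]; exact hA)
    (by simp only [hla]; exact hlA) (by simp only [hla]; exact hl)
    (by simp only [hla, hMa]; exact hsec)
  rw [aeval_sh6, ex] at key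
  exact key

end shift

section main

variable {k : Type*} [Field k]

/-- the pencil at the origin `c` -/
noncomputable def mv (L : Type*) [Field L] [Algebra k L] (N0 N1 : Matrix (Fin 4) (Fin 4) (Polynomial k))
    (c : L) : Matrix (Fin 4) (Fin 4) (Polynomial L) :=
  N0.map (Polynomial.map (algebraMap k L)) +
    (Polynomial.C c : Polynomial L) • N1.map (Polynomial.map (algebraMap k L))

theorem mv_symm {L : Type*} [Field L] [Algebra k L] {N0 N1 : Matrix (Fin 4) (Fin 4) (Polynomial k)}
    (h0 : N0ᵀ = N0) (h1 : N1ᵀ = N1) (c : L) : (mv L N0 N1 c)ᵀ = mv L N0 N1 c := by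
  unfold mv
  rw [Matrix.transpose_add, Matrix.transpose_smul, ← Matrix.transpose_map, ← Matrix.transpose_map,
    h0, h1]

theorem lineM_mv {L : Type*} [Field L] [Algebra k L] (N0 N1 : Matrix (Fin 4) (Fin 4) (Polynomial k))
    (c : L) : lineM L (mv L N0 N1 c) (N1.map (Polynomial.map (algebraMap k L))) =
      (lineM L N0 N1).map (sh c) := by
  have h1 : ∀ p : Polynomial k, sh c (Polynomial.aeval (X 1 : MvPolynomial (Fin 2) L) p) =
      Polynomial.aeval (X 1 : MvPolynomial (Fin 2) L) p := by
    intro p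
    have h := Polynomial.aeval_algHom_apply ((sh c).restrictScalars k)
      (X 1 : MvPolynomial (Fin 2) L) p
    have h2 : ((sh c).restrictScalars k) (X 1) = X 1 := by
      show sh c (X 1) = X 1
      simp [sh]
    rw [h2] at h
    exact h.symm
  refine Matrix.ext fun i j => ?_
  simp only [lineM, mv, Matrix.of_apply, Matrix.add_apply, Matrix.smul_apply, Matrix.map_apply,
    smul_eq_mul, map_add, map_mul, h1, Polynomial.aeval_map_algebraMap]
  have e1 : (Polynomial.aeval (X 1 : MvPolynomial (Fin 2) L)) (Polynomial.C c) = C c := by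
    rw [Polynomial.aeval_C]
    rfl
  have e2 : sh c (X 0) = X 0 + C c := by simp [sh]
  rw [e1, e2]
  ring

end main

end Pool.Agent.Work.Pencil
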