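import Mathlib
import Pool.Agent.Work.MP_b62148_ag.Pencil.Shift

/-!
Final form: the origin of the pencil is any point of the algebraic closure.
-/

namespace Pool.Agent.Work.Pencil

open Matrix MvPolynomial Pool.Agent.Work.D9odd

section expand

variable {k Ω : Type*} [Field k] [Field Ω] [Algebra k Ω]

/-- substitution `r ↦ r0 + s`, `t ↦ t` -/
noncomputable def sub2 (r0 : Ω) : MvPolynomial (Fin 2) k →ₐ[k] Polynomial (Polynomial Ω) :=
  aeval ![Polynomial.C (Polynomial.C r0) + Polynomial.X, Polynomial.C Polynomial.X]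

theorem derivative_sub2 (r0 : Ω) (F : MvPolynomial (Fin 2) k) :
    Polynomial.derivative (sub2 r0 F) = sub2 r0 (pderiv 0 F) := by
  induction F using MvPolynomial.induction_on with
  | C a =>
    rw [pderiv_C, map_zero, sub2, aeval_C]
    have : algebraMap k (Polynomial (Polynomial Ω)) a =
        Polynomial.C (Polynomial.C (algebraMap k Ω a)) := rfl
    rw [this, Polynomial.derivative_C]
  | add p q hp hq => simp only [map_add, hp, hq]
  | mul_X p i hp =>
    rw [map_mul, Polynomial.derivative_mul, hp, (pderiv 0).leibniz, map_add, smul_eq_mul,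
      smul_eq_mul, map_mul, map_mul]
    fin_cases i
    · have h1 : sub2 (k := k) r0 (X 0) = Polynomial.C (Polynomial.C r0) + Polynomial.X := by
        simp [sub2]
      have h2 : (pderiv 0) (X 0 : MvPolynomial (Fin 2) k) = 1 := pderiv_X_self 0
      simp only [Fin.zero_eta, h1, h2, map_one]
      simp
      ring
    · have h1 : sub2 (k := k) r0 (X 1) = Polynomial.C Polynomial.X := by
        simp [sub2]
      have h2 : (pderiv 0) (X 1 : MvPolynomial (Fin 2) k) = 0 := by
        rw [pderiv_X_of_ne]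
        decide
      simp only [Fin.mk_one, h1, h2, map_zero]
      simp
      ring

theorem sub2_aeval_X1 (r0 : Ω) (p : Polynomial k) :
    sub2 (k := k) r0 (Polynomial.aeval (X 1) p) = Polynomial.C (p.map (algebraMap k Ω)) := by
  have h1 := Polynomial.aeval_algHom_apply (sub2 (k := k) r0) (X 1 : MvPolynomial (Fin 2) k) p
  rw [← h1]
  have h2 : sub2 (k := k) r0 (X 1) = Polynomial.C Polynomial.X := by simp [sub2]
  rw [h2]
  have h3 : (Polynomial.aeval (Polynomial.C Polynomial.X : Polynomial (Polynomial Ω)) :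
      Polynomial k →ₐ[k] _) p = Polynomial.eval₂ ((Polynomial.C : Polynomial Ω →+* _).comp
        ((Polynomial.C : Ω →+* Polynomial Ω).comp (algebraMap k Ω)))
        (Polynomial.C Polynomial.X) p := rfl
  rw [h3, ← Polynomial.hom_eval₂]
  rw [← Polynomial.eval₂_map, Polynomial.eval₂_C_X]

/-- the determinant of the pencil, expanded at `r0` -/
theorem sub2_det (r0 : Ω) (N0 N1 : Matrix (Fin 4) (Fin 4) (Polynomial k)) :
    sub2 r0 (lineM k N0 N1).det =
      bdet (mv Ω N0 N1 r0) (N1.map (Polynomial.map (algebraMap k Ω))) := by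
  rw [AlgHom.map_det, bdet]
  congr 1
  refine Matrix.ext fun i j => ?_
  show sub2 r0 (lineM k N0 N1 i j) = _
  simp only [lineM, Matrix.of_apply, map_add, map_mul, sub2_aeval_X1]
  have h1 : sub2 (k := k) r0 (X 0) = Polynomial.C (Polynomial.C r0) + Polynomial.X := by
    simp [sub2]
  rw [h1]
  simp only [mv, Matrix.add_apply, Matrix.smul_apply, Matrix.map_apply, smul_eq_mul, map_add,
    map_mul]
  ring

/-- the value at `r0` -/
noncomputable def at0 (r0 : Ω) : MvPolynomial (Fin 2) k →ₐ[k] Polynomial Ω :=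
  aeval ![Polynomial.C r0, Polynomial.X]

theorem at0_eq (r0 : Ω) (F : MvPolynomial (Fin 2) k) :
    (sub2 r0 F).coeff 0 = at0 r0 F := by
  rw [Polynomial.coeff_zero_eq_eval_zero]
  have h : ((Polynomial.evalRingHom (0 : Polynomial Ω)).comp (sub2 (k := k) r0).toRingHom) =
      (at0 (k := k) r0).toRingHom := by
    apply MvPolynomial.ringHom_ext
    · intro c
      show Polynomial.eval 0 (sub2 r0 (C c)) = at0 r0 (C c)
      rw [sub2, at0, aeval_C, aeval_C]
      have : algebraMap k (Polynomial (Polynomial Ω)) c =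
        Polynomial.C (Polynomial.C (algebraMap k Ω c)) := rfl
      rw [this, Polynomial.eval_C]
      rfl
    · intro i
      show Polynomial.eval 0 (sub2 r0 (X i)) = at0 r0 (X i)
      fin_cases i <;> simp [sub2, at0]
  exact RingHom.congr_fun h F

theorem eval_at0 (r0 t0 : Ω) (F : MvPolynomial (Fin 2) k) :
    (at0 r0 F).eval t0 = aeval ![r0, t0] F := by
  have h : ((Polynomial.evalRingHom t0).comp (at0 (k := k) r0).toRingHom) =
      ((aeval ![r0, t0] : MvPolynomial (Fin 2) k →ₐ[k] Ω)).toRingHom := by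
    apply MvPolynomial.ringHom_ext
    · intro c
      show Polynomial.eval t0 (at0 r0 (C c)) = aeval ![r0, t0] (C c)
      rw [at0, aeval_C, aeval_C]
      have : algebraMap k (Polynomial Ω) c = Polynomial.C (algebraMap k Ω c) := rfl
      rw [this, Polynomial.eval_C]
    · intro i
      show Polynomial.eval t0 (at0 r0 (X i)) = aeval ![r0, t0] (X i)
      fin_cases i <;> simp [at0]
  exact RingHom.congr_fun h F

theorem det_mv (r0 : Ω) (N0 N1 : Matrix (Fin 4) (Fin 4) (Polynomial k)) :
    (mv Ω N0 N1 r0).det = at0 r0 (lineM k N0 N1).det := by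
  rw [← at0_eq, sub2_det, bdet_coeff_zero]

theorem coeff_one (r0 t0 : Ω) (N0 N1 : Matrix (Fin 4) (Fin 4) (Polynomial k)) :
    ((bdet (mv Ω N0 N1 r0) (N1.map (Polynomial.map (algebraMap k Ω)))).coeff 1).eval t0 =
      aeval ![r0, t0] (pderiv 0 (lineM k N0 N1).det) := by
  rw [← sub2_det, ← eval_at0, ← at0_eq, ← derivative_sub2, Polynomial.coeff_derivative]
  simp

end expand

section base

variable {k : Type*} [Field k]

theorem lineM_self (N0 N1 : Matrix (Fin 4) (Fin 4) (Polynomial k)) :
    lineM k N0 N1 = penM (ofM N0) (ofM N1) := by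
  refine Matrix.ext fun i j => ?_
  simp only [lineM, penM, ofM, Matrix.of_apply, Matrix.add_apply, Matrix.smul_apply,
    Matrix.map_apply, smul_eq_mul, rename_ofP]

/-- density over the field of definition -/
theorem dense_over {Ω : Type*} [Field Ω] [CharZero k] [Algebra k Ω]
    (N0 N1 : Matrix (Fin 4) (Fin 4) (Polynomial k)) (h0 : N0ᵀ = N0) (h1 : N1ᵀ = N1)
    (hB : N0.det ≠ 0) (t0 : Ω) (ht0 : Polynomial.aeval t0 N0.det = 0)
    (ht1 : Polynomial.aeval t0 ((bdet N0 N1).coeff 1) ≠ 0)
    (a : Fin 4 → Polynomial k) (ha : a ≠ 0) (haa : bf N0 a a = 0)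
    (hinf : {t : k | IsSquare (N0.det.eval t)}.Infinite) (l : Fin 4 → MvPolynomial (Fin 2) k)
    (hb : (bord (lineM k N0 N1) l).det ≠ 0) : SecDense k Ω (lineM k N0 N1) l := by
  rw [lineM_self] at hb ⊢
  refine same_field (Ω := Ω) (ofM N0) (ofM N1) (ofM_symm h0) (ofM_symm h1)
    (fun i => ofP k (a i)) ?_ ?_ ?_ (fun _ => t0) ?_ ?_ ?_ l hb
  · intro h
    apply ha
    funext i
    apply ofP_injective
    rw [Pi.zero_apply, map_zero]
    exact congrFun h i
  · have h2 := map_bf (ofP k).toRingHom N0 a a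
    have h3 : (ofP k).toRingHom (bf N0 a a) = 0 := by rw [haa, map_zero]
    rw [h2] at h3
    exact h3
  · rw [ofM_det]
    intro h
    exact hB (ofP_injective (by rw [h, map_zero]))
  · rw [ofM_det, aeval_ofP]; exact ht0
  · rw [ofM_bdet, aeval_ofP]; exact ht1
  · apply covDense_one
    · rw [ofM_det]
      intro h
      exact hB (ofP_injective (by rw [h, map_zero]))
    · rw [ofM_det, toP_ofP]
      exact hinf

end base

section main

variable {k L Ω : Type*} [Field k] [CharZero k] [Field L] [Field Ω] [Algebra k L] [Algebra k Ω]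
  [Algebra L Ω] [IsScalarTower k L Ω]

omit [CharZero k] in
theorem mv_map (N0 N1 : Matrix (Fin 4) (Fin 4) (Polynomial k)) (c : L) :
    (mv L N0 N1 c).map (Polynomial.map (algebraMap L Ω)) = mv Ω N0 N1 (algebraMap L Ω c) := by
  refine Matrix.ext fun i j => ?_
  simp only [mv, Matrix.map_apply, Matrix.add_apply, Matrix.smul_apply, smul_eq_mul,
    Polynomial.map_add, Polynomial.map_mul, Polynomial.map_C, Polynomial.map_map,
    ← IsScalarTower.algebraMap_eq]

omit [CharZero k] in
theorem map_N (N1 : Matrix (Fin 4) (Fin 4) (Polynomial k)) :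
    (N1.map (Polynomial.map (algebraMap k L))).map (Polynomial.map (algebraMap L Ω)) =
      N1.map (Polynomial.map (algebraMap k Ω)) := by
  refine Matrix.ext fun i j => ?_
  simp only [Matrix.map_apply, Polynomial.map_map, ← IsScalarTower.algebraMap_eq]

omit [CharZero k] in
theorem map_det_mv (N0 N1 : Matrix (Fin 4) (Fin 4) (Polynomial k)) (c : L) :
    ((mv L N0 N1 c).det).map (algebraMap L Ω) = (mv Ω N0 N1 (algebraMap L Ω c)).det := by
  rw [← mv_map]
  exact RingHom.map_det (Polynomial.mapRingHom (algebraMap L Ω)) (mv L N0 N1 c)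

/-- the conditions on the field `L`, with origin `c` -/
def Good (L : Type*) [Field L] [Algebra k L] (N0 N1 : Matrix (Fin 4) (Fin 4) (Polynomial k))
    (c : L) : Prop :=
  (∃ a : Fin 4 → Polynomial L, a ≠ 0 ∧ bf (mv L N0 N1 c) a a = 0) ∧
    {t : L | IsSquare ((mv L N0 N1 c).det.eval t)}.Infinite

/-- density over a good field -/
theorem dense_of_good (N0 N1 : Matrix (Fin 4) (Fin 4) (Polynomial k)) (h0 : N0ᵀ = N0)
    (h1 : N1ᵀ = N1) (c : L) (t0 : Ω)
    (hB : at0 (algebraMap L Ω c) (lineM k N0 N1).det ≠ 0)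
    (ht0 : aeval ![algebraMap L Ω c, t0] (lineM k N0 N1).det = 0)
    (ht1 : aeval ![algebraMap L Ω c, t0] (pderiv 0 (lineM k N0 N1).det) ≠ 0)
    (hL : Good L N0 N1 c) (l : Fin 4 → MvPolynomial (Fin 2) L)
    (hb : (bord (lineM L N0 N1) l).det ≠ 0) : SecDense L Ω (lineM L N0 N1) l := by
  have hcz : CharZero L := charZero_of_injective_algebraMap (algebraMap k L).injective
  obtain ⟨⟨a, ha, haa⟩, hinf⟩ := hL
  have hN1 : ((N1.map (Polynomial.map (algebraMap k L)))ᵀ :
      Matrix (Fin 4) (Fin 4) (Polynomial L)) = N1.map (Polynomial.map (algebraMap k L)) := by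
    rw [← Matrix.transpose_map, h1]
  have hev : ∀ p : Polynomial L, Polynomial.aeval t0 p = (p.map (algebraMap L Ω)).eval t0 := by
    intro p
    rw [Polynomial.eval_map]
    rfl
  have hdet : ((mv L N0 N1 c).det).map (algebraMap L Ω) =
      at0 (algebraMap L Ω c) (lineM k N0 N1).det := by
    rw [map_det_mv (Ω := Ω) N0 N1 c, det_mv]
  apply secDense_shift c
  rw [← lineM_mv (L := L) N0 N1 c]
  refine dense_over (mv L N0 N1 c) (N1.map (Polynomial.map (algebraMap k L)))
    (mv_symm h0 h1 c) hN1 ?_ t0 ?_ ?_ a ha haa hinf (fun i => sh c (l i)) ?_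
  · intro h
    apply hB
    rw [← hdet, h, Polynomial.map_zero]
  · rw [hev, hdet, eval_at0]
    exact ht0
  · rw [hev]
    have h2 := bdet_map (mv L N0 N1 c) (N1.map (Polynomial.map (algebraMap k L)))
      (Polynomial.mapRingHom (algebraMap L Ω))
    have h3 : bdet (mv Ω N0 N1 (algebraMap L Ω c)) (N1.map (Polynomial.map (algebraMap k Ω))) =
        (bdet (mv L N0 N1 c) (N1.map (Polynomial.map (algebraMap k L)))).map
          (Polynomial.mapRingHom (algebraMap L Ω)) := by
      rw [← h2]
      congr 1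
      · exact (mv_map N0 N1 c).symm
      · exact (map_N N1).symm
    have h4 := coeff_one (algebraMap L Ω c) t0 N0 N1
    rw [h3, Polynomial.coeff_map] at h4
    rw [← h4] at ht1
    exact ht1
  · rw [lineM_mv]
    have h2 := bord_map (sh c).toRingHom (lineM L N0 N1) l
    intro h3
    apply hb
    apply sh_injective c
    rw [map_zero]
    exact h2.symm.trans h3

end main

section pot

variable {k Ω : Type*} [Field k] [CharZero k] [Field Ω] [IsAlgClosed Ω] [Algebra k Ω]
  [Algebra.IsAlgebraic k Ω]

/-- a polynomial with coefficients in a subfield -/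
theorem lift_pol (L : IntermediateField k Ω) (p : Polynomial Ω) (h : ∀ i, p.coeff i ∈ L) :
    ∃ g : Polynomial L, g.map (algebraMap L Ω) = p := by
  refine ⟨∑ i ∈ Finset.range (p.natDegree + 1), Polynomial.monomial i ⟨p.coeff i, h i⟩, ?_⟩
  rw [Polynomial.map_sum]
  simp only [Polynomial.map_monomial]
  exact (Polynomial.as_sum_range p).symm

/-- a good finite extension -/
theorem exists_good_ext (N0 N1 : Matrix (Fin 4) (Fin 4) (Polynomial k)) (r0 : Ω)
    (hB : at0 r0 (lineM k N0 N1).det ≠ 0) (g B1 : Polynomial Ω)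
    (hgB : at0 r0 (lineM k N0 N1).det = g ^ 2 * B1) (hdeg : B1.natDegree ≤ 4) :
    ∃ L : IntermediateField k Ω, FiniteDimensional k L ∧ ∃ c : L, (c : Ω) = r0 ∧
      Good L N0 N1 c := by
  classical
  -- the field of definition of the factorisation
  let W : Finset Ω := insert r0 ((Finset.range (g.natDegree + 1)).image g.coeff ∪
    (Finset.range (B1.natDegree + 1)).image B1.coeff)
  let K : IntermediateField k Ω := IntermediateField.adjoin k (W : Set Ω)
  have hK : FiniteDimensional k K := by
    apply IntermediateField.finiteDimensional_adjoin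
    intro a _
    exact Algebra.IsIntegral.isIntegral a
  have hWK : ∀ w ∈ W, w ∈ K := fun w hw => IntermediateField.subset_adjoin k _ hw
  have hr : r0 ∈ K := hWK r0 (Finset.mem_insert_self _ _)
  have hco : ∀ (p : Polynomial Ω), (∀ i ∈ Finset.range (p.natDegree + 1), p.coeff i ∈ K) →
      ∀ i, p.coeff i ∈ K := by
    intro p hp i
    by_cases hi : i ≤ p.natDegree
    · exact hp i (Finset.mem_range.mpr (Nat.lt_succ_of_le hi))
    · rw [Polynomial.coeff_eq_zero_of_natDegree_lt (by omega)]
      exact K.zero_mem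
  obtain ⟨g', hg'⟩ := lift_pol K g (hco g fun i hi => hWK _ (by
    apply Finset.mem_insert_of_mem
    apply Finset.mem_union_left
    exact Finset.mem_image_of_mem _ hi))
  obtain ⟨B1', hB1'⟩ := lift_pol K B1 (hco B1 fun i hi => hWK _ (by
    apply Finset.mem_insert_of_mem
    apply Finset.mem_union_right
    exact Finset.mem_image_of_mem _ hi))
  let c : K := ⟨r0, hr⟩
  have hinj : Function.Injective (Polynomial.map (algebraMap K Ω)) :=
    Polynomial.map_injective _ (algebraMap K Ω).injective
  have hdet : ((mv K N0 N1 c).det).map (algebraMap K Ω) = at0 r0 (lineM k N0 N1).det := by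
    rw [map_det_mv, det_mv]
    rfl
  have h1 : (mv K N0 N1 c).det ≠ 0 := by
    intro h
    apply hB
    rw [← hdet, h, Polynomial.map_zero]
  have h2 : (mv K N0 N1 c).det = g' ^ 2 * B1' := by
    apply hinj
    rw [hdet, hgB, Polynomial.map_mul, Polynomial.map_pow, hg', hB1']
  have h3 : B1'.natDegree ≤ 4 := by
    rw [← hB1', Polynomial.natDegree_map] at hdeg
    exact hdeg
  have halg : Algebra.IsAlgebraic K Ω := Algebra.IsAlgebraic.tower_top (K := k) K
  obtain ⟨L', hL', ⟨a, ha, haa⟩, hinf⟩ := exists_good (Ω := Ω) (mv K N0 N1 c) h1 g' B1' h2 h3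
  have hfd : FiniteDimensional k L' := FiniteDimensional.trans k K L'
  let c' : L' := algebraMap K L' c
  have hmm : mv L' N0 N1 c' = (mv K N0 N1 c).map (Polynomial.map (algebraMap K L')) :=
    (mv_map (k := k) (L := K) (Ω := L') N0 N1 c).symm
  have hgood : Good L' N0 N1 c' := by
    refine ⟨⟨a, ha, ?_⟩, ?_⟩
    · rw [hmm]
      exact haa
    · have h5 : ∀ t : L', (mv L' N0 N1 c').det.eval t =
          Polynomial.aeval t (mv K N0 N1 c).det := by
        intro t
        rw [← map_det_mv (k := k) (L := K) (Ω := L') N0 N1 c, Polynomial.eval_map]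
        rfl
      simp only [h5]
      exact hinf
  refine ⟨L'.restrictScalars k, hfd, c', rfl, hgood⟩

end pot

end Pool.Agent.Work.Pencil
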