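import Mathlib
import Pool.Agent.Work.MP_b62148_ag.D9odd.Dbl

/-!
The doubling step when the determinant of the pencil is a square.
-/

namespace Pool.Agent.Work.Pencil

open Matrix Pool.Agent.Work.D9odd

section field

variable {k : Type*} [Field k]

/-- a basis adapted to `M`, with the determinant of the change of basis -/
theorem exists_adapted' (M : Matrix (Fin 4) (Fin 4) k) (hs : Mᵀ = M) (δ μ z : k) (hμ : μ ≠ 0)
    (hδ : ¬ IsSquare δ) (hz : z ≠ 0) (hdet : M.det = z ^ 2) (h00 : M 0 0 = -δ * μ)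
    (h11 : M 1 1 = μ) (h01 : M 0 1 = 0) :
    ∃ (v0 v1 : Fin 4 → k) (σ : k) (V : Matrix (Fin 4) (Fin 4) k), V.det ≠ 0 ∧
      V *ᵥ Pi.single 0 1 = Pi.single 0 1 ∧ V *ᵥ Pi.single 1 1 = Pi.single 1 1 ∧
      V *ᵥ Pi.single 2 1 = v0 ∧ V *ᵥ Pi.single 3 1 = v1 ∧
      bf M (Pi.single 0 1) v0 = 0 ∧ bf M (Pi.single 0 1) v1 = 0 ∧
      bf M (Pi.single 1 1) v0 = 0 ∧ bf M (Pi.single 1 1) v1 = 0 ∧
      bf M v0 v0 = -δ * σ ∧ bf M v0 v1 = 0 ∧ bf M v1 v1 = σ ∧
      V.det = v0 2 * v1 3 - v0 3 * v1 2 ∧ δ * μ * σ = -z * V.det := by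
  have hδ0 : δ ≠ 0 := by
    rintro rfl
    exact hδ ⟨0, by simp⟩
  have hM00 : M 0 0 ≠ 0 := by rw [h00]; exact mul_ne_zero (neg_ne_zero.mpr hδ0) hμ
  have hM11 : M 1 1 ≠ 0 := by rw [h11]; exact hμ
  have h' : ∀ i j, M i j = M j i := fun i j => by
    conv_lhs => rw [← hs]
    rfl
  set s0 := M 2 2 - M 0 2 ^ 2 / M 0 0 - M 1 2 ^ 2 / M 1 1 with hs0
  set s1 := M 2 3 - M 0 2 * M 0 3 / M 0 0 - M 1 2 * M 1 3 / M 1 1 with hs1
  set s2 := M 3 3 - M 0 3 ^ 2 / M 0 0 - M 1 3 ^ 2 / M 1 1 with hs2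
  have hS : M 0 0 * M 1 1 * (s0 * s2 - s1 ^ 2) = z ^ 2 := by
    rw [← hdet, det_four, h' 1 0, h' 2 0, h' 3 0, h' 2 1, h' 3 1, h' 3 2, h01, hs0, hs1, hs2]
    field_simp
    ring
  set ω := z / (δ * μ) with hω
  have hω0 : ω ≠ 0 := div_ne_zero hz (mul_ne_zero hδ0 hμ)
  have hS' : s1 ^ 2 - s0 * s2 = δ * ω ^ 2 := by
    rw [h00, h11] at hS
    rw [hω]
    field_simp
    linear_combination hS
  have hs00 : s0 ≠ 0 := by
    intro h
    rw [h] at hS'
    apply hδ
    refine ⟨s1 / ω, ?_⟩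
    field_simp
    linear_combination -hS'
  set V : Matrix (Fin 4) (Fin 4) k :=
    !![1, 0, lift2 M (-s1) s0 0, lift2 M ω 0 0;
       0, 1, lift2 M (-s1) s0 1, lift2 M ω 0 1;
       0, 0, -s1, ω;
       0, 0, s0, 0] with hV
  have hVd : V.det = -(ω * s0) := by
    rw [det_four, hV]
    simp
  have hzω : δ * μ * ω = z := by
    rw [hω]; field_simp
  refine ⟨lift2 M (-s1) s0, lift2 M ω 0, ω ^ 2 * s0, V, ?_, ?_, ?_, ?_, ?_, ?_, ?_, ?_, ?_, ?_,
    ?_, ?_, ?_, ?_⟩
  · rw [hVd]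
    exact neg_ne_zero.mpr (mul_ne_zero hω0 hs00)
  · ext i
    fin_cases i <;> simp [hV]
  · ext i
    fin_cases i <;> simp [hV]
  · ext i
    fin_cases i <;> simp [hV, lift2]
  · ext i
    fin_cases i <;> simp [hV, lift2]
  · exact bf_e0_lift2 M hM00 h01 _ _
  · exact bf_e0_lift2 M hM00 h01 _ _
  · exact bf_e1_lift2 M hs hM11 h01 _ _
  · exact bf_e1_lift2 M hs hM11 h01 _ _
  · rw [bf_lift2_lift2 M hs hM00 hM11 h01, ← hs0, ← hs1, ← hs2]
    linear_combination (-s0) * hS'
  · rw [bf_lift2_lift2 M hs hM00 hM11 h01, ← hs0, ← hs1, ← hs2]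
    ring
  · rw [bf_lift2_lift2 M hs hM00 hM11 h01, ← hs0, ← hs1, ← hs2]
    ring
  · rw [hVd]
    simp [lift2]
    ring
  · rw [hVd, ← hzω]; ring

open Polynomial in
/-- one doubling step -/
theorem step' (h2 : (2 : k) ≠ 0) (N0 N1 : Matrix (Fin 4) (Fin 4) k) (hs0 : N0ᵀ = N0)
    (hs1 : N1ᵀ = N1) (δ : k) (hδ : ¬ IsSquare δ) (h00 : N0 0 0 = 0) (h01 : N0 0 1 = 0)
    (h11 : N0 1 1 = 0) (hA : N1 0 1 = 0) (hA1 : N1 1 1 ≠ 0) (hA0 : N1 0 0 = -δ * N1 1 1)
    (r z : k) (hr : r ≠ 0) (hz : z ≠ 0)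
    (hdet : (N0 + r • N1).det = z ^ 2) :
    ∃ p0 p1 p2 l0 l1 : k, p0 = N0 0 2 * N0 1 3 - N0 0 3 * N0 1 2 ∧
      p0 + p1 * r + p2 * r ^ 2 = -z ∧
      pdet N0 N1 = (C p0 + C p1 * X + C p2 * X ^ 2) ^ 2 -
        (X - C r) ^ 2 * X * (C l0 + C l1 * X) ∧
      ((l0 ≠ 0 ∨ l1 ≠ 0) → ∀ s : k, l0 + l1 * s = 0 → IsoPlane (N0 + s • N1)) := by
  set M := N0 + r • N1 with hM
  have hsM : Mᵀ = M := by
    rw [hM, Matrix.transpose_add, Matrix.transpose_smul, hs0, hs1]
  set μ := r * N1 1 1 with hμ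
  have hμ0 : μ ≠ 0 := mul_ne_zero hr hA1
  obtain ⟨v0, v1, σ, V, hV, e0, e1, e2, e3, a1, a2, a3, a4, a5, a6, a7, a8, a9⟩ :=
    exists_adapted' M hsM δ μ z hμ0 hδ hz hdet
      (by rw [hM, Matrix.add_apply, Matrix.smul_apply, h00, hA0, smul_eq_mul, hμ]; ring)
      (by rw [hM, Matrix.add_apply, Matrix.smul_apply, h11, smul_eq_mul, hμ]; ring)
      (by rw [hM, Matrix.add_apply, Matrix.smul_apply, h01, hA, smul_eq_mul]; ring)
  set E0 : Fin 4 → k := Pi.single 0 1 with hE0
  set E1 : Fin 4 → k := Pi.single 1 1 with hE1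
  have c00 : bf N0 E0 E0 = 0 := by rw [hE0, bf_single, h00]
  have c01 : bf N0 E0 E1 = 0 := by rw [hE0, hE1, bf_single, h01]
  have c10 : bf N0 E1 E0 = 0 := by rw [bf_comm hs0]; exact c01
  have c11 : bf N0 E1 E1 = 0 := by rw [hE1, bf_single, h11]
  have m00 : bf M E0 E0 = -δ * μ := by
    rw [hE0, bf_single, hM, Matrix.add_apply, Matrix.smul_apply, h00, hA0, smul_eq_mul, hμ]; ring
  have m01 : bf M E0 E1 = 0 := by
    rw [hE0, hE1, bf_single, hM, Matrix.add_apply, Matrix.smul_apply, h01, hA, smul_eq_mul]; ring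
  have m10 : bf M E1 E0 = 0 := by rw [bf_comm hsM]; exact m01
  have m11 : bf M E1 E1 = μ := by
    rw [hE1, bf_single, hM, Matrix.add_apply, Matrix.smul_apply, h11, smul_eq_mul, hμ]; ring
  have a1' : bf M v0 E0 = 0 := by rw [bf_comm hsM]; exact a1
  have a2' : bf M v1 E0 = 0 := by rw [bf_comm hsM]; exact a2
  have a3' : bf M v0 E1 = 0 := by rw [bf_comm hsM]; exact a3
  have a4' : bf M v1 E1 = 0 := by rw [bf_comm hsM]; exact a4
  have a6' : bf M v1 v0 = 0 := by rw [bf_comm hsM]; exact a6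
  -- the pairings of the plane with the new vectors
  have hE0v : ∀ v : Fin 4 → k, bf N0 E0 v = N0 0 2 * v 2 + N0 0 3 * v 3 := by
    intro v
    rw [hE0, bf_four]
    simp [h00, h01]
  have hE1v : ∀ v : Fin 4 → k, bf N0 E1 v = N0 1 2 * v 2 + N0 1 3 * v 3 := by
    intro v
    have h10 : N0 1 0 = 0 := by rw [← hs0]; exact h01
    rw [hE1, bf_four]
    simp [h10, h11]
  have hdet2 : bf N0 E0 v0 * bf N0 E1 v1 - bf N0 E0 v1 * bf N0 E1 v0 =
      (N0 0 2 * N0 1 3 - N0 0 3 * N0 1 2) * V.det := by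
    rw [hE0v, hE0v, hE1v, hE1v, a8]; ring
  set g00 := bf N0 E0 v0 with hg00
  set g01 := bf N0 E0 v1 with hg01
  set g10 := bf N0 E1 v0 with hg10
  set g11 := bf N0 E1 v1 with hg11
  set n00 := bf N0 v0 v0 with hn00
  set n01 := bf N0 v0 v1 with hn01
  set n11 := bf N0 v1 v1 with hn11
  have g00' : bf N0 v0 E0 = g00 := bf_comm hs0 _ _
  have g01' : bf N0 v1 E0 = g01 := bf_comm hs0 _ _
  have g10' : bf N0 v0 E1 = g10 := bf_comm hs0 _ _
  have g11' : bf N0 v1 E1 = g11 := bf_comm hs0 _ _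
  have n01' : bf N0 v1 v0 = n01 := bf_comm hs0 _ _
  -- the Gram matrices
  have hw : ∀ i, V *ᵥ Pi.single i 1 = (![E0, E1, v0, v1] : Fin 4 → (Fin 4 → k)) i := by
    intro i
    fin_cases i
    · exact e0
    · exact e1
    · exact e2
    · exact e3
  have hG0 : Vᵀ * N0 * V = !![0, 0, g00, g01; 0, 0, g10, g11; g00, g10, n00, n01;
      g01, g11, n01, n11] := by
    ext i j
    rw [← bf_single (Vᵀ * N0 * V) i j, bf_congr, hw, hw]
    fin_cases i <;> fin_cases j
    · exact c00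
    · exact c01
    · rfl
    · rfl
    · exact c10
    · exact c11
    · rfl
    · rfl
    · exact g00'
    · exact g10'
    · rfl
    · rfl
    · exact g01'
    · exact g11'
    · exact n01'
    · rfl
  have hGM : Vᵀ * M * V = !![-δ * μ, 0, 0, 0; 0, μ, 0, 0; 0, 0, -δ * σ, 0; 0, 0, 0, σ] := by
    ext i j
    rw [← bf_single (Vᵀ * M * V) i j, bf_congr, hw, hw]
    fin_cases i <;> fin_cases j
    · exact m00
    · exact m01
    · exact a1
    · exact a2
    · exact m10
    · exact m11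
    · exact a3
    · exact a4
    · exact a1'
    · exact a3'
    · exact a5
    · exact a6
    · exact a2'
    · exact a4'
    · exact a6'
    · exact a7
  set N0y : k := 4 * ((g00 + δ * g11) ^ 2 * n11 + 2 * (g00 + δ * g11) * (g01 + g10) * n01 +
            (g01 + g10) ^ 2 * n00) -
          4 * ((g00 + δ * g11) * (n00 + δ * n11) * g11 + (g00 + δ * g11) * (2 * n01) * g01 +
            (g01 + g10) * (n00 + δ * n11) * g10 + (g01 + g10) * (2 * n01) * g00) with hN0y
  set My : k := 4 * σ * ((g00 + δ * g11) ^ 2 - δ * (g01 + g10) ^ 2) +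
          μ * ((n00 + δ * n11) ^ 2 - δ * (2 * n01) ^ 2) with hMy
  -- the polynomial identity
  have hpoly : 4 * (C V.det ^ 2 * (C r ^ 4 * pdet N0 N1)) =
      (2 * (C g00 * C g11 - C g01 * C g10) * (C r - X) ^ 2 -
        C μ * (C n00 - C δ * C n11) * ((C r - X) * X) + 2 * (C δ * C μ * C σ) * X ^ 2) ^ 2 -
      C μ * (C r - X) ^ 2 * X * ((C r - X) * C N0y + X * C My) := by
    have h1 : C r • (N0.map C + (X : k[X]) • N1.map C) =
        (C r - X) • N0.map C + (X : k[X]) • M.map C := by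
      rw [hM]
      ext i j : 2
      simp only [Matrix.smul_apply, Matrix.add_apply, Matrix.map_apply, smul_eq_mul, map_add,
        map_mul]
      ring_nf
    have h2' : C r ^ 4 * pdet N0 N1 = ((C r - X) • N0.map C + (X : k[X]) • M.map C).det := by
      rw [← h1, Matrix.det_smul, Fintype.card_fin, pdet]
    have h3 : C V.det ^ 2 * ((C r - X) • N0.map C + (X : k[X]) • M.map C).det =
        ((C r - X) • (Vᵀ * N0 * V).map C + (X : k[X]) • (Vᵀ * M * V).map C).det := by
      have h4 : (C r - X) • (Vᵀ * N0 * V).map C + (X : k[X]) • (Vᵀ * M * V).map C =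
          (V.map C)ᵀ * ((C r - X) • N0.map C + (X : k[X]) • M.map C) * (V.map C) := by
        rw [Matrix.map_mul, Matrix.map_mul, Matrix.map_mul, Matrix.map_mul, Matrix.mul_add,
          Matrix.add_mul, Matrix.mul_smul, Matrix.mul_smul, Matrix.smul_mul, Matrix.smul_mul,
          Matrix.transpose_map]
      rw [h4, Matrix.det_mul, Matrix.det_mul, Matrix.det_transpose]
      have h5 : (V.map C).det = C V.det := (RingHom.map_det C V).symm
      rw [h5]
      ring
    rw [h2', h3, hG0, hGM]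
    have h6 : (C r - X) • (!![0, 0, g00, g01; 0, 0, g10, g11; g00, g10, n00, n01;
        g01, g11, n01, n11] : Matrix (Fin 4) (Fin 4) k).map C +
        (X : k[X]) • (!![-δ * μ, 0, 0, 0; 0, μ, 0, 0; 0, 0, -δ * σ, 0; 0, 0, 0, σ] :
          Matrix (Fin 4) (Fin 4) k).map C =
        !![-C δ * C μ * X, 0, (C r - X) * C g00, (C r - X) * C g01;
        0, C μ * X, (C r - X) * C g10, (C r - X) * C g11;
        (C r - X) * C g00, (C r - X) * C g10, (C r - X) * C n00 - C δ * C σ * X,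
          (C r - X) * C n01;
        (C r - X) * C g01, (C r - X) * C g11, (C r - X) * C n01, (C r - X) * C n11 + C σ * X] := by
      ext i j : 2
      fin_cases i <;> fin_cases j <;> simp <;> ring_nf
    rw [h6, D9odd.star]
    simp only [hN0y, hMy, map_add, map_sub, map_mul, map_pow, map_ofNat]
  have hD : V.det ≠ 0 := hV
  have h4 : (4 : k) ≠ 0 := by
    have : (4 : k) = 2 * 2 := by norm_num
    rw [this]; exact mul_ne_zero h2 h2
  set D := V.det with hDdef
  set dg := g00 * g11 - g01 * g10 with hdg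
  set m := μ * (n00 - δ * n11) with hm
  set c0 : k := dg / D with hc0
  set c1 : k := -(4 * dg * r + m * r) / (2 * D * r ^ 2) with hc1
  set c2 : k := (2 * dg + m + 2 * (δ * μ * σ)) / (2 * D * r ^ 2) with hc2
  set l0 : k := μ * (r * N0y) / (4 * D ^ 2 * r ^ 4) with hl0
  set l1 : k := μ * (My - N0y) / (4 * D ^ 2 * r ^ 4) with hl1
  have k0 : 2 * D * r ^ 2 * c0 = 2 * dg * r ^ 2 := by rw [hc0]; field_simp
  have k1 : 2 * D * r ^ 2 * c1 = -(4 * dg * r + m * r) := by rw [hc1]; field_simp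
  have k2 : 2 * D * r ^ 2 * c2 = 2 * dg + m + 2 * (δ * μ * σ) := by rw [hc2]; field_simp
  have k3 : 4 * D ^ 2 * r ^ 4 * l0 = μ * (r * N0y) := by rw [hl0]; field_simp
  have k4 : 4 * D ^ 2 * r ^ 4 * l1 = μ * (My - N0y) := by rw [hl1]; field_simp
  have hc4 : 4 * D ^ 2 * r ^ 4 ≠ 0 :=
    mul_ne_zero (mul_ne_zero h4 (pow_ne_zero 2 hD)) (pow_ne_zero 4 hr)
  have hid : pdet N0 N1 = (C c0 + C c1 * X + C c2 * X ^ 2) ^ 2 -
      (X - C r) ^ 2 * X * (C l0 + C l1 * X) := by
    have e0 : C (2 * D * r ^ 2) * (C c0 + C c1 * X + C c2 * X ^ 2) =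
        C (2 * dg * r ^ 2) + C (-(4 * dg * r + m * r)) * X +
          C (2 * dg + m + 2 * (δ * μ * σ)) * X ^ 2 := by
      rw [← k0, ← k1, ← k2]
      simp only [map_mul, map_pow, map_ofNat]
      ring
    have e1 : C (4 * D ^ 2 * r ^ 4) * (C l0 + C l1 * X) =
        C (μ * (r * N0y)) + C (μ * (My - N0y)) * X := by
      rw [← k3, ← k4]
      simp only [map_mul, map_pow, map_ofNat]
      ring
    have hne : (C (4 * D ^ 2 * r ^ 4) : k[X]) ≠ 0 := by
      rw [Ne, C_eq_zero]; exact hc4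
    apply mul_left_cancel₀ hne
    have e2 : C (4 * D ^ 2 * r ^ 4) * ((C c0 + C c1 * X + C c2 * X ^ 2) ^ 2 -
        (X - C r) ^ 2 * X * (C l0 + C l1 * X)) =
        (C (2 * D * r ^ 2) * (C c0 + C c1 * X + C c2 * X ^ 2)) ^ 2 -
        (X - C r) ^ 2 * X * (C (4 * D ^ 2 * r ^ 4) * (C l0 + C l1 * X)) := by
      have : (C (4 * D ^ 2 * r ^ 4) : k[X]) = C (2 * D * r ^ 2) ^ 2 := by
        rw [← map_pow]; congr 1; ring
      rw [this]; ring
    rw [e2, e0, e1]
    have e3 : C (4 * D ^ 2 * r ^ 4) * pdet N0 N1 = 4 * (C D ^ 2 * (C r ^ 4 * pdet N0 N1)) := by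
      simp only [map_mul, map_pow, map_ofNat]; ring
    rw [e3, hpoly]
    simp only [hdg, hm, map_add, map_sub, map_mul, map_neg, map_pow, map_ofNat]
    ring
  refine ⟨c0, c1, c2, l0, l1, ?_, ?_, hid, ?_⟩
  · rw [hc0, hdet2]
    field_simp
  · have h5 : 2 * D * r ^ 2 * (c0 + c1 * r + c2 * r ^ 2) = 2 * D * r ^ 2 * (-z) := by
      linear_combination k0 + r * k1 + r ^ 2 * k2 + 2 * r ^ 2 * a9
    exact mul_left_cancel₀ (mul_ne_zero (mul_ne_zero h2 hD) (pow_ne_zero 2 hr)) h5
  · intro hll s hs'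
    -- the new plane
    set y : Fin 4 → k := (2 * (g00 + δ * g11)) • v1 + (2 * (g01 + g10)) • v0 -
      ((n00 + δ * n11) • E1 + (2 * n01) • E0) with hy
    set x : Fin 4 → k := (2 * (g00 + δ * g11)) • v0 + (2 * (δ * (g01 + g10))) • v1 -
      ((n00 + δ * n11) • E0 + (δ * (2 * n01)) • E1) with hx
    have q1 : bf N0 y y = N0y := by
      simp only [hy, bf_sub_left, bf_sub_right, bf_add_left, bf_add_right, bf_smul_left,
        bf_smul_right, c00, c01, c10, c11, g00', g01', g10', g11', n01', ← hg00, ← hg01, ← hg10,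
        ← hg11, ← hn00, ← hn01, ← hn11]
      rw [hN0y]; ring
    have q2 : bf M y y = My := by
      simp only [hy, bf_sub_left, bf_sub_right, bf_add_left, bf_add_right, bf_smul_left,
        bf_smul_right, m00, m01, m10, m11, a1, a2, a3, a4, a5, a6, a7, a1', a2', a3', a4', a6']
      rw [hMy]; ring
    have q3 : bf N0 x x = -δ * N0y := by
      simp only [hx, bf_sub_left, bf_sub_right, bf_add_left, bf_add_right, bf_smul_left,
        bf_smul_right, c00, c01, c10, c11, g00', g01', g10', g11', n01', ← hg00, ← hg01, ← hg10,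
        ← hg11, ← hn00, ← hn01, ← hn11]
      rw [hN0y]; ring
    have q4 : bf M x x = -δ * My := by
      simp only [hx, bf_sub_left, bf_sub_right, bf_add_left, bf_add_right, bf_smul_left,
        bf_smul_right, m00, m01, m10, m11, a1, a2, a3, a4, a5, a6, a7, a1', a2', a3', a4', a6']
      rw [hMy]; ring
    have q5 : bf N0 x y = 0 := by
      simp only [hx, hy, bf_sub_left, bf_sub_right, bf_add_left, bf_add_right, bf_smul_left,
        bf_smul_right, c00, c01, c10, c11, g00', g01', g10', g11', n01', ← hg00, ← hg01, ← hg10,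
        ← hg11, ← hn00, ← hn01, ← hn11]
      ring
    have q6 : bf M x y = 0 := by
      simp only [hx, hy, bf_sub_left, bf_sub_right, bf_add_left, bf_add_right, bf_smul_left,
        bf_smul_right, m00, m01, m10, m11, a1, a2, a3, a4, a5, a6, a7, a1', a2', a3', a4', a6']
      ring
    have hls : (r - s) * N0y + s * My = 0 := by
      have : μ * ((r - s) * N0y + s * My) = 0 := by
        linear_combination (4 * D ^ 2 * r ^ 4) * hs' - k3 - s * k4
      rcases mul_eq_zero.mp this with h | h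
      · exact absurd h hμ0
      · exact h
    -- forms
    have hNs : ∀ u v, r * bf (N0 + s • N1) u v = (r - s) * bf N0 u v + s * bf M u v := by
      intro u v
      rw [hM, bf_add_mat, bf_add_mat, bf_smul_mat, bf_smul_mat]
      ring
    -- independence
    have hor : N0y ≠ 0 ∨ My ≠ 0 := by
      by_contra hcon
      push Not at hcon
      have z0 : l0 = 0 := by rw [hl0, hcon.1]; simp
      have z1 : l1 = 0 := by rw [hl1, hcon.1, hcon.2]; simp
      rcases hll with h | h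
      · exact h z0
      · exact h z1
    have key : ∀ (B : Matrix (Fin 4) (Fin 4) k) (β : k), Bᵀ = B → β ≠ 0 → bf B y y = β →
        bf B x x = -δ * β → bf B x y = 0 → LinearIndependent k ![x, y] := by
      intro B β hB hβ h1 h3 h5
      have h5' : bf B y x = 0 := by rw [bf_comm hB]; exact h5
      rw [LinearIndependent.pair_iff]
      intro a b hab
      have h6 : bf B (a • x + b • y) (a • x + b • y) = 0 := by rw [hab]; simp [bf]
      rw [bf_add_left, bf_add_right, bf_add_right, bf_smul_left, bf_smul_left, bf_smul_left,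
        bf_smul_left, bf_smul_right, bf_smul_right, bf_smul_right, bf_smul_right, h1, h3, h5,
        h5'] at h6
      have h7 : b ^ 2 = δ * a ^ 2 := by
        have : β * (b ^ 2 - δ * a ^ 2) = 0 := by linear_combination h6
        rcases mul_eq_zero.mp this with h | h
        · exact absurd h hβ
        · exact sub_eq_zero.mp h
      have ha : a = 0 := by
        by_contra ha
        apply hδ
        refine ⟨b / a, ?_⟩
        field_simp
        linear_combination -h7
      subst ha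
      refine ⟨rfl, ?_⟩
      simpa using h7
    have hind : LinearIndependent k ![x, y] := by
      rcases hor with h | h
      · exact key N0 N0y hs0 h q1 q3 q5
      · exact key M My hsM h q2 q4 q6
    refine ⟨x, y, hind, ?_, ?_, ?_⟩
    · have := hNs x x
      rw [q3, q4] at this
      have h5 : r * bf (N0 + s • N1) x x = 0 := by rw [this]; linear_combination (-δ) * hls
      rcases mul_eq_zero.mp h5 with h | h
      · exact absurd h hr
      · exact h
    · have := hNs x y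
      rw [q5, q6] at this
      have h5 : r * bf (N0 + s • N1) x y = 0 := by rw [this]; ring
      rcases mul_eq_zero.mp h5 with h | h
      · exact absurd h hr
      · exact h
    · have := hNs y y
      rw [q1, q2] at this
      have h5 : r * bf (N0 + s • N1) y y = 0 := by rw [this]; exact hls
      rcases mul_eq_zero.mp h5 with h | h
      · exact absurd h hr
      · exact h

/-- the value of the parameter given by the step -/
theorem step_value (h2 : (2 : k) ≠ 0) (p0 p1 p2 w1 w2 l0 l1 r : k) (hr : r ≠ 0) (hp0 : p0 ≠ 0)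
    (e1 : 2 * p0 * p1 - r ^ 2 * l0 = 2 * p0 * w1)
    (e2 : p1 ^ 2 + 2 * p0 * p2 - (r ^ 2 * l1 - 2 * r * l0) = w1 ^ 2 + 2 * p0 * w2)
    (e4 : p2 ^ 2 - l1 = w2 ^ 2)
    (hP : p0 + p1 * r + p2 * r ^ 2 = -(p0 + w1 * r + w2 * r ^ 2))
    (hW : p0 + w1 * r + w2 * r ^ 2 ≠ 0) :
    (l0 ≠ 0 ∨ l1 ≠ 0) ∧
      ∀ s, s * (p0 - r ^ 2 * w2) = r * (r * w1 + 2 * p0) → l0 + l1 * s = 0 := by
  have h1 : r ^ 2 * l0 = 2 * p0 * (p1 - w1) := by linear_combination -e1
  have h3 : l1 = (p2 - w2) * (p2 + w2) := by linear_combination -e4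
  have hab : (p1 - w1) + (p2 - w2) * r ≠ 0 := by
    intro h
    apply hW
    have h4 : 2 * (p0 + w1 * r + w2 * r ^ 2) = 0 := by
      linear_combination hP - r * h
    rcases mul_eq_zero.mp h4 with h5 | h5
    · exact absurd h5 h2
    · exact h5
  have hd : 2 * p0 = r ^ 2 * (p2 + w2) := by
    have h4 : (2 * p0 - r ^ 2 * (p2 + w2)) * ((p1 - w1) + (p2 - w2) * r) = 0 := by
      linear_combination (r) * e2 + (2 : k) * e1 - r ^ 3 * e4 +
        (-(p1 - w1)) * hP
    rcases mul_eq_zero.mp h4 with h5 | h5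
    · linear_combination h5
    · exact absurd h5 hab
  have hr2 : r ^ 2 ≠ 0 := pow_ne_zero 2 hr
  constructor
  · by_contra hcon
    push Not at hcon
    obtain ⟨z0, z1⟩ := hcon
    have h4 : p1 - w1 = 0 := by
      rw [z0, mul_zero] at h1
      rcases mul_eq_zero.mp h1.symm with h5 | h5
      · exact absurd h5 (mul_ne_zero h2 hp0)
      · exact h5
    have h5 : p2 - w2 = 0 := by
      rw [z1] at h3
      rcases mul_eq_zero.mp h3.symm with h5 | h5
      · exact h5
      · rw [h5, mul_zero] at hd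
        exact absurd hd (mul_ne_zero h2 hp0)
    exact hab (by rw [h4, h5]; ring)
  · intro s hs
    -- l0 = d a, l1 = d b
    have hl0 : l0 = (p2 + w2) * (p1 - w1) := by
      apply mul_left_cancel₀ hr2
      linear_combination h1 + (p1 - w1) * hd
    rw [hl0, h3]
    have h6 : r ^ 2 * ((p1 - w1) + (p2 - w2) * s) = 0 := by
      have h7 : (p1 + w1) * r = -(4 * p0) := by
        linear_combination hP + hd
      linear_combination r * h7 - s * hd + 2 * hs
    rcases mul_eq_zero.mp h6 with h7 | h7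
    · exact absurd h7 hr2
    · linear_combination (p2 + w2) * h7

open Polynomial in
theorem coeffs_zero (a0 a1 a2 a3 a4 : k)
    (h : C a0 + C a1 * X + C a2 * X ^ 2 + C a3 * X ^ 3 + C a4 * X ^ 4 = 0) :
    a0 = 0 ∧ a1 = 0 ∧ a2 = 0 ∧ a3 = 0 ∧ a4 = 0 := by
  have c : ∀ n, (C a0 + C a1 * X + C a2 * X ^ 2 + C a3 * X ^ 3 + C a4 * X ^ 4 : k[X]).coeff n =
      0 := by
    intro n; rw [h]; simp
  refine ⟨?_, ?_, ?_, ?_, ?_⟩
  · simpa [coeff_X, coeff_C, coeff_X_pow] using c 0
  · simpa [coeff_X, coeff_C, coeff_X_pow] using c 1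
  · simpa [coeff_X, coeff_C, coeff_X_pow] using c 2
  · simpa [coeff_X, coeff_C, coeff_X_pow] using c 3
  · simpa [coeff_X, coeff_C, coeff_X_pow] using c 4

open Polynomial in
theorem pdet_natDegree (N0 N1 : Matrix (Fin 4) (Fin 4) k) : (pdet N0 N1).natDegree ≤ 4 := by
  have h := Polynomial.natDegree_det_X_add_C_le N1 N0
  rw [Fintype.card_fin] at h
  rw [pdet, add_comm]
  exact h

open Polynomial in
/-- **Doubling when the determinant is a square.** -/
theorem double_sq [Infinite k] (h2 : (2 : k) ≠ 0) (N0 N1 : Matrix (Fin 4) (Fin 4) k)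
    (hs0 : N0ᵀ = N0) (hs1 : N1ᵀ = N1) (hp : IsoPlane N0) (hd : N0.det ≠ 0)
    (hf : IsSquare (pdet N0 N1)) : {r : k | IsoPlane (N0 + r • N1)}.Infinite := by
  classical
  have hpd : pdet N0 N1 ≠ 0 := by
    intro h
    apply hd
    have := eval_pdet N0 N1 0
    rw [h, zero_smul, add_zero, Polynomial.eval_zero] at this
    exact this.symm
  have hinf : {r : k | IsSquare (N0 + r • N1).det}.Infinite := by
    have : {r : k | IsSquare (N0 + r • N1).det} = Set.univ := by
      rw [Set.eq_univ_iff_forall]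
      intro r
      obtain ⟨g, hg⟩ := hf
      refine ⟨g.eval r, ?_⟩
      rw [← eval_pdet, hg, Polynomial.eval_mul]
    rw [this]
    exact Set.infinite_univ
  obtain ⟨x, y, hxy, hxx, hxy0, hyy⟩ := hp
  have hx0 : x ≠ 0 := hxy.ne_zero 0
  by_cases hA : bf N1 x x = 0
  · exact double_of_common N0 N1 hs0 hs1 hpd hinf x hx0 hxx hA
  -- orthogonalise
  set t : k := bf N1 x y / bf N1 x x with ht
  set y' : Fin 4 → k := y - t • x with hy'
  have hxy' : LinearIndependent k ![x, y'] := by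
    rw [LinearIndependent.pair_iff] at hxy ⊢
    intro a b hab
    have : (a - b * t) • x + b • y = 0 := by
      rw [← hab, hy']
      module
    obtain ⟨h3, h4⟩ := hxy _ _ this
    subst h4
    simpa using h3
  have hyx0 : bf N0 y x = 0 := by rw [bf_comm hs0]; exact hxy0
  have hx' : bf N0 x y' = 0 := by
    rw [hy', bf_sub_right, bf_smul_right, hxy0, hxx]; ring
  have hyy' : bf N0 y' y' = 0 := by
    rw [hy', bf_sub_right, bf_smul_right, bf_sub_left, bf_sub_left, bf_smul_left, bf_smul_left,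
      hyy, hxy0, hyx0, hxx]; ring
  have h1' : bf N1 x y' = 0 := by
    rw [hy', bf_sub_right, bf_smul_right, ht]
    field_simp
    ring
  have h1'' : bf N1 y' x = 0 := by rw [bf_comm hs1]; exact h1'
  have hyx' : bf N0 y' x = 0 := by rw [bf_comm hs0]; exact hx'
  have hy0 : y' ≠ 0 := hxy'.ne_zero 1
  by_cases hB : bf N1 y' y' = 0
  · exact double_of_common N0 N1 hs0 hs1 hpd hinf y' hy0 hyy' hB
  set δ : k := -(bf N1 x x / bf N1 y' y') with hδ
  by_cases hsq : IsSquare δ
  · obtain ⟨u, hu⟩ := hsq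
    refine double_of_common N0 N1 hs0 hs1 hpd hinf (x + u • y') ?_ ?_ ?_
    · intro h
      have := (LinearIndependent.pair_iff.mp hxy') 1 u (by rw [one_smul]; exact h)
      exact one_ne_zero this.1
    · rw [bf_add_right, bf_smul_right, bf_add_left, bf_add_left, bf_smul_left, bf_smul_left,
        hxx, hyx', hx', hyy']; ring
    · rw [bf_add_right, bf_smul_right, bf_add_left, bf_add_left, bf_smul_left, bf_smul_left,
        h1', h1'']
      have : δ * bf N1 y' y' = - bf N1 x x := by rw [hδ]; field_simp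
      linear_combination bf N1 y' y' * (-hu) + this
  -- anisotropic case
  obtain ⟨P, hP, hP0, hP1⟩ := exists_cols x y' hxy'
  have e0 := mulVec_single_zero P x hP0
  have e1 := mulVec_single_one' P y' hP1
  set A0 := Pᵀ * N0 * P with hA0def
  set A1 := Pᵀ * N1 * P with hA1def
  have hsA0 : A0ᵀ = A0 := by
    rw [hA0def, Matrix.transpose_mul, Matrix.transpose_mul, Matrix.transpose_transpose, hs0,
      Matrix.mul_assoc]
  have hsA1 : A1ᵀ = A1 := by
    rw [hA1def, Matrix.transpose_mul, Matrix.transpose_mul, Matrix.transpose_transpose, hs1,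
      Matrix.mul_assoc]
  have a00 : A0 0 0 = 0 := by rw [← bf_single A0 0 0, bf_congr, e0, hxx]
  have a01 : A0 0 1 = 0 := by rw [← bf_single A0 0 1, bf_congr, e0, e1, hx']
  have a11 : A0 1 1 = 0 := by rw [← bf_single A0 1 1, bf_congr, e1, hyy']
  have b01 : A1 0 1 = 0 := by rw [← bf_single A1 0 1, bf_congr, e0, e1, h1']
  have b11 : A1 1 1 ≠ 0 := by rw [← bf_single A1 1 1, bf_congr, e1]; exact hB
  have b00 : A1 0 0 = -δ * A1 1 1 := by
    rw [← bf_single A1 1 1, ← bf_single A1 0 0, bf_congr, bf_congr, e1, e0, hδ]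
    field_simp
  set G : k := A0 0 2 * A0 1 3 - A0 0 3 * A0 1 2 with hG
  have hdetA0 : A0.det = G ^ 2 := by
    have h' : ∀ i j, A0 i j = A0 j i := fun i j => by
      conv_lhs => rw [← hsA0]
      rfl
    rw [det_four, h' 1 0, h' 2 0, h' 3 0, h' 2 1, h' 3 1, h' 3 2, a00, a01, a11, hG]
    ring
  have hA0d : A0.det ≠ 0 := by
    rw [hA0def, Matrix.det_mul, Matrix.det_mul, Matrix.det_transpose]
    exact mul_ne_zero (mul_ne_zero hP hd) hP
  have hG0 : G ≠ 0 := by
    intro h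
    apply hA0d
    rw [hdetA0, h]; ring
  obtain ⟨W, hW, hW0⟩ : ∃ W : k[X], pdet A0 A1 = W ^ 2 ∧ W.eval 0 = G := by
    obtain ⟨g, hg⟩ := hf
    have h3 : pdet A0 A1 = (C P.det * g) ^ 2 := by
      rw [hA0def, hA1def, pdet_congr, hg]; ring
    have h4 : ((C P.det * g).eval 0) ^ 2 = G ^ 2 := by
      rw [← Polynomial.eval_pow, ← h3, eval_pdet, zero_smul, add_zero, hdetA0]
    rcases sq_eq_sq_iff_eq_or_eq_neg.mp h4 with h5 | h5
    · exact ⟨_, h3, h5⟩
    · refine ⟨-(C P.det * g), by rw [h3]; ring, ?_⟩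
      rw [Polynomial.eval_neg, h5, neg_neg]
  have hWd : W.natDegree ≤ 2 := by
    have h3 := pdet_natDegree A0 A1
    rw [hW, Polynomial.natDegree_pow] at h3
    omega
  set w1 := W.coeff 1 with hw1
  set w2 := W.coeff 2 with hw2
  have hWexp : W = C G + C w1 * X + C w2 * X ^ 2 := by
    have h3 := W.as_sum_range_C_mul_X_pow' (Nat.lt_succ_of_le hWd)
    rw [Finset.sum_range_succ, Finset.sum_range_succ, Finset.sum_range_one,
      Polynomial.coeff_zero_eq_eval_zero, hW0] at h3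
    rw [h3]
    simp [hw1, hw2]
  have hWev : ∀ r, W.eval r = G + w1 * r + w2 * r ^ 2 := by
    intro r
    conv_lhs => rw [hWexp]
    simp
  intro hfin
  let Q : k[X] := (X * W * (C G - C w2 * X ^ 2)) * ∏ s ∈ hfin.toFinset,
    (C w1 * X ^ 2 + C (2 * G) * X - C s * (C G - C w2 * X ^ 2))
  have hQ : Q ≠ 0 := by
    refine mul_ne_zero (mul_ne_zero (mul_ne_zero X_ne_zero ?_) ?_)
      (Finset.prod_ne_zero_iff.mpr fun s _ => ?_)
    · rintro rfl
      apply hG0
      rw [← hW0, Polynomial.eval_zero]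
    · intro h
      apply hG0
      have := congrArg (Polynomial.eval 0) h
      simpa using this
    · intro h
      obtain ⟨-, h3, -⟩ := coeffs_zero (-(s * G)) (2 * G) (w1 + s * w2) 0 0 (by
        rw [← h]
        simp only [map_neg, map_add, map_mul, map_zero]
        ring)
      exact mul_ne_zero h2 hG0 h3
  obtain ⟨r, hr⟩ : ∃ r : k, Q.eval r ≠ 0 := by
    by_contra hne
    push Not at hne
    exact hQ (Polynomial.funext fun r => by rw [hne r, Polynomial.eval_zero])
  simp only [Q, Polynomial.eval_mul, Polynomial.eval_prod, mul_ne_zero_iff,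
    Finset.prod_ne_zero_iff] at hr
  obtain ⟨⟨⟨hr0, hWr⟩, hGr⟩, hprod⟩ := hr
  rw [Polynomial.eval_X] at hr0
  have hGr' : G - r ^ 2 * w2 ≠ 0 := by
    rw [Polynomial.eval_sub, Polynomial.eval_mul, Polynomial.eval_C, Polynomial.eval_C,
      Polynomial.eval_pow, Polynomial.eval_X, mul_comm] at hGr
    exact hGr
  obtain ⟨p0, p1, p2, l0, l1, hp0, hPr, hid, hs⟩ := step' h2 A0 A1 hsA0 hsA1 δ hsq a00 a01 a11 b01
    b11 b00 r (W.eval r) hr0 hWr (by rw [← eval_pdet, hW, Polynomial.eval_pow])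
  rw [← hG] at hp0
  subst hp0
  have hco := coeffs_zero (G * G - G * G) (2 * G * p1 - r ^ 2 * l0 - 2 * G * w1)
    (p1 ^ 2 + 2 * G * p2 - (r ^ 2 * l1 - 2 * r * l0) - (w1 ^ 2 + 2 * G * w2))
    (2 * p1 * p2 - (l0 - 2 * r * l1) - 2 * w1 * w2) (p2 ^ 2 - l1 - w2 ^ 2) (by
      have h3 : (C G + C p1 * X + C p2 * X ^ 2) ^ 2 - (X - C r) ^ 2 * X * (C l0 + C l1 * X) -
          (C G + C w1 * X + C w2 * X ^ 2) ^ 2 = 0 := by
        rw [← hid, ← hWexp, hW, sub_self]
      rw [← h3]
      simp only [map_sub, map_add, map_mul, map_pow, map_ofNat]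
      ring)
  obtain ⟨-, k1, k2, -, k4⟩ := hco
  obtain ⟨hl, hsv⟩ := step_value h2 G p1 p2 w1 w2 l0 l1 r hr0 hG0 (by linear_combination k1)
    (by linear_combination k2) (by linear_combination k4) (by rw [hPr, hWev])
    (by rw [← hWev]; exact hWr)
  set s : k := r * (r * w1 + 2 * G) / (G - r ^ 2 * w2) with hsdef
  have hs1' : s * (G - r ^ 2 * w2) = r * (r * w1 + 2 * G) := by
    rw [hsdef]; field_simp
  have hiso := hs hl s (hsv s hs1')
  have hcomb : A0 + s • A1 = Pᵀ * (N0 + s • N1) * P := by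
    rw [Matrix.mul_add, Matrix.add_mul, Matrix.mul_smul, Matrix.smul_mul]
  rw [hcomb] at hiso
  have hmem : s ∈ hfin.toFinset := by
    rw [Set.Finite.mem_toFinset]
    exact IsoPlane.congr _ P (inj_of_det P hP) hiso
  apply hprod s hmem
  simp only [Polynomial.eval_sub, Polynomial.eval_add, Polynomial.eval_mul, Polynomial.eval_C,
    Polynomial.eval_pow, Polynomial.eval_X]
  linear_combination -hs1'

/-- **Doubling.** -/
theorem double_all [Infinite k] (h2 : (2 : k) ≠ 0) (N0 N1 : Matrix (Fin 4) (Fin 4) k)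
    (hs0 : N0ᵀ = N0) (hs1 : N1ᵀ = N1) (hp : IsoPlane N0) (hd : N0.det ≠ 0)
    (hinf : {r : k | IsSquare (N0 + r • N1).det}.Infinite) :
    {r : k | IsoPlane (N0 + r • N1)}.Infinite := by
  by_cases hf : IsSquare (pdet N0 N1)
  · exact double_sq h2 N0 N1 hs0 hs1 hp hd hf
  · exact double h2 N0 N1 hs0 hs1 hp hd hf hinf

end field

end Pool.Agent.Work.Pencil
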