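import Mathlib
import Pool.Agent.Work.MP_b62148_ag.Pencil.DblSq

/-!
Doubling for symmetric matrices of polynomials with weights.
-/

namespace Pool.Agent.Work.Pencil

open Matrix Polynomial Pool.Agent.Work.D9odd

/-- the degrees of the entries are bounded by weights of equal parity with sum at most four -/
def HasWt {S : Type*} [CommRing S] (M : Matrix (Fin 4) (Fin 4) S[X]) : Prop :=
  ∃ e : Fin 4 → ℤ, (∀ i j, Even (e i + e j)) ∧ ∑ i, e i ≤ 4 ∧
    ∀ i j n, (M i j).coeff n ≠ 0 → 2 * (n : ℤ) ≤ e i + e j

theorem HasWt.map {S A : Type*} [CommRing S] [CommRing A] {M : Matrix (Fin 4) (Fin 4) S[X]}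
    (h : HasWt M) (f : S →+* A) : HasWt (M.map (Polynomial.map f)) := by
  obtain ⟨e, h1, h2, h3⟩ := h
  refine ⟨e, h1, h2, fun i j n hn => h3 i j n ?_⟩
  intro h0
  apply hn
  rw [Matrix.map_apply, Polynomial.coeff_map, h0, map_zero]

section field

variable {k : Type*} [Field k]

theorem det_evm (M : Matrix (Fin 4) (Fin 4) k[X]) (r : k) :
    (M.map (eval r)).det = M.det.eval r :=
  (RingHom.map_det (evalRingHom r) M).symm

theorem evm_symm {M : Matrix (Fin 4) (Fin 4) k[X]} (hs : Mᵀ = M) (r : k) :
    (M.map (eval r))ᵀ = M.map (eval r) := by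
  rw [← Matrix.transpose_map, hs]

theorem wt_common (M : Matrix (Fin 4) (Fin 4) k[X]) (hs : Mᵀ = M) (hd : M.det ≠ 0)
    (hinf : {r : k | IsSquare (M.map (eval r)).det}.Infinite) (c : Fin 4 → k) (hc : c ≠ 0)
    (h : ∀ r, bf (M.map (eval r)) c c = 0) : {r : k | IsoPlane (M.map (eval r))}.Infinite := by
  have hfin : {r : k | (M.map (eval r)).det = 0}.Finite := by
    refine (finite_setOfPred_isRoot hd).subset ?_
    intro r hr
    show M.det.eval r = 0
    rw [← det_evm]; exact hr
  refine (hinf.sdiff hfin).mono ?_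
  rintro r ⟨⟨z, hz⟩, hr⟩
  refine isoPlane_of_isotropic _ (evm_symm hs r) z ?_ ?_ c hc (h r)
  · rintro rfl
    apply hr
    show (M.map (eval r)).det = 0
    rw [hz]; ring
  · rw [hz]; ring

theorem const_of_coeff (p : k[X]) (h : ∀ n, p.coeff n ≠ 0 → n ≤ 0) (r : k) :
    p.eval r = p.coeff 0 := by
  have h1 : p.natDegree ≤ 0 := by
    rw [Polynomial.natDegree_le_iff_coeff_eq_zero]
    intro n hn
    by_contra hne
    have := h n hne
    omega
  rw [Polynomial.eval_eq_sum_range' (Nat.lt_succ_of_le h1)]
  simp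

theorem lin_of_coeff (p : k[X]) (h : ∀ n, p.coeff n ≠ 0 → n ≤ 1) (r : k) :
    p.eval r = p.coeff 0 + p.coeff 1 * r := by
  have h1 : p.natDegree ≤ 1 := by
    rw [Polynomial.natDegree_le_iff_coeff_eq_zero]
    intro n hn
    by_contra hne
    have := h n hne
    omega
  rw [Polynomial.eval_eq_sum_range' (Nat.lt_succ_of_le h1)]
  simp [Finset.sum_range_succ]

theorem quad_of_coeff (p : k[X]) (h : ∀ n, p.coeff n ≠ 0 → n ≤ 2) (r : k) :
    p.eval r = p.coeff 0 + p.coeff 1 * r + p.coeff 2 * r ^ 2 := by
  have h1 : p.natDegree ≤ 2 := by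
    rw [Polynomial.natDegree_le_iff_coeff_eq_zero]
    intro n hn
    by_contra hne
    have := h n hne
    omega
  rw [Polynomial.eval_eq_sum_range' (Nat.lt_succ_of_le h1)]
  simp [Finset.sum_range_succ]

/-- a vector of the plane with a vanishing coordinate -/
theorem exists_vec_one (x y : Fin 4 → k) (h : LinearIndependent k ![x, y]) (j : Fin 4) :
    ∃ a b : k, a • x + b • y ≠ 0 ∧ (a • x + b • y) j = 0 := by
  rw [LinearIndependent.pair_iff] at h
  by_cases hx : x j = 0
  · refine ⟨1, 0, fun h0 => ?_, by simp [hx]⟩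
    exact one_ne_zero (h _ _ h0).1
  · refine ⟨y j, - x j, fun h0 => ?_, by simp; ring⟩
    exact hx (neg_eq_zero.mp (h _ _ h0).2)

/-- a vector of the plane with two vanishing coordinates -/
theorem exists_vec_two (x y : Fin 4 → k) (h : LinearIndependent k ![x, y]) (i j : Fin 4)
    (hm : x i * y j - x j * y i = 0) :
    ∃ a b : k, a • x + b • y ≠ 0 ∧ (a • x + b • y) i = 0 ∧ (a • x + b • y) j = 0 := by
  rw [LinearIndependent.pair_iff] at h
  by_cases hxi : x i = 0
  · by_cases hxj : x j = 0
    · refine ⟨1, 0, fun h0 => ?_, by simp [hxi], by simp [hxj]⟩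
      exact one_ne_zero (h _ _ h0).1
    · refine ⟨y j, - x j, fun h0 => ?_, ?_, ?_⟩
      · exact hxj (neg_eq_zero.mp (h _ _ h0).2)
      · simp only [Pi.add_apply, Pi.smul_apply, smul_eq_mul]
        linear_combination hm
      · simp only [Pi.add_apply, Pi.smul_apply, smul_eq_mul]
        ring
  · refine ⟨y i, - x i, fun h0 => ?_, ?_, ?_⟩
    · exact hxi (neg_eq_zero.mp (h _ _ h0).2)
    · simp only [Pi.add_apply, Pi.smul_apply, smul_eq_mul]
      ring
    · simp only [Pi.add_apply, Pi.smul_apply, smul_eq_mul]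
      linear_combination -hm

theorem bf_comb (N : Matrix (Fin 4) (Fin 4) k) (hs : Nᵀ = N) (x y : Fin 4 → k)
    (h1 : bf N x x = 0) (h2 : bf N x y = 0) (h3 : bf N y y = 0) (a b : k) :
    bf N (a • x + b • y) (a • x + b • y) = 0 := by
  have h4 : bf N y x = 0 := by rw [bf_comm hs]; exact h2
  simp only [bf_add_left, bf_add_right, bf_smul_left, bf_smul_right, h1, h2, h3, h4]
  ring

/-- the first matrix of the new pencil -/
def par0 (a0 a1 a2 c0 c1 c2 c3 : k) : Matrix (Fin 4) (Fin 4) k :=
  !![a0, a1, c0, c1; a1, a2, c2, c3; c0, c2, 0, 0; c1, c3, 0, 0]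

/-- the second matrix of the new pencil -/
def par1 (b0 b1 b2 d0 d1 d2 d3 g0 g1 g2 : k) : Matrix (Fin 4) (Fin 4) k :=
  !![b0, b1, d0, d1; b1, b2, d2, d3; d0, d2, g0, g1; d1, d3, g1, g2]

/-- the matrix before the change of parity -/
def parG (r a0 a1 a2 c0 c1 c2 c3 b0 b1 b2 d0 d1 d2 d3 g0 g1 g2 : k) :
    Matrix (Fin 4) (Fin 4) k :=
  !![r * (a0 + r * b0), r * (a1 + r * b1), c0 + r * d0, c1 + r * d1;
     r * (a1 + r * b1), r * (a2 + r * b2), c2 + r * d2, c3 + r * d3;
     c0 + r * d0, c2 + r * d2, g0, g1;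
     c1 + r * d1, c3 + r * d3, g1, g2]

theorem par_det (r a0 a1 a2 c0 c1 c2 c3 b0 b1 b2 d0 d1 d2 d3 g0 g1 g2 : k) :
    (par0 a0 a1 a2 c0 c1 c2 c3 + r • par1 b0 b1 b2 d0 d1 d2 d3 g0 g1 g2).det =
      (parG r a0 a1 a2 c0 c1 c2 c3 b0 b1 b2 d0 d1 d2 d3 g0 g1 g2).det := by
  rw [det_four, det_four]
  simp only [par0, par1, parG, Matrix.add_apply, Matrix.smul_apply, smul_eq_mul, Matrix.of_apply,
    Matrix.cons_val_zero, Matrix.cons_val_one, Matrix.cons_val]
  ring

theorem par_mul (r a0 a1 a2 c0 c1 c2 c3 b0 b1 b2 d0 d1 d2 d3 g0 g1 g2 : k) :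
    (Matrix.diagonal ![1, 1, r, r])ᵀ *
      parG r a0 a1 a2 c0 c1 c2 c3 b0 b1 b2 d0 d1 d2 d3 g0 g1 g2 *
      Matrix.diagonal ![1, 1, r, r] =
      r • (par0 a0 a1 a2 c0 c1 c2 c3 + r • par1 b0 b1 b2 d0 d1 d2 d3 g0 g1 g2) := by
  ext i j
  rw [Matrix.diagonal_transpose, Matrix.mul_diagonal, Matrix.diagonal_mul]
  fin_cases i <;> fin_cases j <;>
    simp only [par0, par1, parG, Matrix.add_apply, Matrix.smul_apply, smul_eq_mul,
      Matrix.of_apply, Matrix.cons_val_zero, Matrix.cons_val_one, Matrix.cons_val, Fin.zero_eta,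
      Fin.mk_one, Fin.reduceFinMk] <;> ring

/-- sorted weights -/
theorem wt_sorted [Infinite k] (h2 : (2 : k) ≠ 0) (M : Matrix (Fin 4) (Fin 4) k[X])
    (hs : Mᵀ = M) (e : Fin 4 → ℤ) (he : ∀ i j, Even (e i + e j))
    (hsum : e 0 + e 1 + e 2 + e 3 ≤ 4) (h01 : e 0 ≤ e 1) (h12 : e 1 ≤ e 2) (h23 : e 2 ≤ e 3)
    (hdeg : ∀ i j n, (M i j).coeff n ≠ 0 → 2 * (n : ℤ) ≤ e i + e j)
    (hp : IsoPlane (M.map (eval 0))) (hd : (M.map (eval 0)).det ≠ 0)
    (hinf : {r : k | IsSquare (M.map (eval r)).det}.Infinite) :
    {r : k | IsoPlane (M.map (eval r))}.Infinite := by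
  have hM : M.det ≠ 0 := by
    intro h
    apply hd
    rw [det_evm, h, Polynomial.eval_zero]
  have hM' : ∀ i j, M i j = M j i := fun i j => by
    conv_lhs => rw [← hs]
    rfl
  -- trivial case
  by_cases hneg : e 0 < 0
  · have h0 : M 0 0 = 0 := by
      ext n
      rw [Polynomial.coeff_zero]
      by_contra hne
      have := hdeg 0 0 n hne
      omega
    refine wt_common M hs hM hinf (Pi.single 0 1) (by
      intro h
      have := congrFun h 0
      simp at this) (fun r => ?_)
    rw [bf_single, Matrix.map_apply, h0, Polynomial.eval_zero]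
  push Not at hneg
  have p01 := he 0 1
  have p02 := he 0 2
  have p03 := he 0 3
  rcases Int.even_or_odd (e 0) with hev | hodd
  · -- even weights
    obtain ⟨a, ha⟩ := hev
    obtain ⟨b, hb⟩ := p01
    obtain ⟨c, hc⟩ := p02
    obtain ⟨d, hd'⟩ := p03
    have e0 : e 0 = 0 := by omega
    have e1 : e 1 = 0 := by omega
    have e2 : e 2 = 0 ∨ (e 2 = 2 ∧ e 3 = 2) := by omega
    obtain ⟨x, y, hxy, hxx, hxy0, hyy⟩ := hp
    rcases e2 with e2 | ⟨e2, e3⟩
    · -- three constant vectors
      have hc : ∀ i j, i ≠ 3 → j ≠ 3 → ∀ r, (M i j).eval r = (M i j).eval 0 := by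
        intro i j hi hj r
        have hei : e i = 0 := by fin_cases i <;> first | assumption | exact absurd rfl hi
        have hej : e j = 0 := by fin_cases j <;> first | assumption | exact absurd rfl hj
        have h3 : ∀ n, (M i j).coeff n ≠ 0 → n ≤ 0 := by
          intro n hn
          have := hdeg i j n hn
          omega
        rw [const_of_coeff _ h3, const_of_coeff _ h3]
      obtain ⟨α, β, hv, hv3⟩ := exists_vec_one x y hxy 3
      set v := α • x + β • y with hvdef
      refine wt_common M hs hM hinf v hv (fun r => ?_)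
      have h4 : bf (M.map (eval 0)) v v = 0 := bf_comb _ (evm_symm hs 0) x y hxx hxy0 hyy α β
      rw [← h4, bf_four, bf_four]
      simp only [Matrix.map_apply, hv3, hc 0 0 (by decide) (by decide) r,
        hc 0 1 (by decide) (by decide) r, hc 0 2 (by decide) (by decide) r,
        hc 1 0 (by decide) (by decide) r, hc 1 1 (by decide) (by decide) r,
        hc 1 2 (by decide) (by decide) r, hc 2 0 (by decide) (by decide) r,
        hc 2 1 (by decide) (by decide) r, hc 2 2 (by decide) (by decide) r]
      ring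
    · -- two constant vectors
      have cst : ∀ i j, (i = 0 ∨ i = 1) → (j = 0 ∨ j = 1) → ∀ r, (M i j).eval r =
          (M i j).coeff 0 := by
        intro i j hi hj r
        have hei : e i = 0 := by rcases hi with rfl | rfl <;> assumption
        have hej : e j = 0 := by rcases hj with rfl | rfl <;> assumption
        apply const_of_coeff
        intro n hn
        have := hdeg i j n hn
        omega
      have lin : ∀ i j, (i = 0 ∨ i = 1) → (j = 2 ∨ j = 3) → ∀ r, (M i j).eval r =
          (M i j).coeff 0 + (M i j).coeff 1 * r := by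
        intro i j hi hj r
        have hei : e i = 0 := by rcases hi with rfl | rfl <;> assumption
        have hej : e j = 2 := by rcases hj with rfl | rfl <;> assumption
        apply lin_of_coeff
        intro n hn
        have := hdeg i j n hn
        omega
      have quad : ∀ i j, (i = 2 ∨ i = 3) → (j = 2 ∨ j = 3) → ∀ r, (M i j).eval r =
          (M i j).coeff 0 + (M i j).coeff 1 * r + (M i j).coeff 2 * r ^ 2 := by
        intro i j hi hj r
        have hei : e i = 2 := by rcases hi with rfl | rfl <;> assumption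
        have hej : e j = 2 := by rcases hj with rfl | rfl <;> assumption
        apply quad_of_coeff
        intro n hn
        have := hdeg i j n hn
        omega
      by_cases hm : x 2 * y 3 - x 3 * y 2 = 0
      · obtain ⟨α, β, hv, hv2, hv3⟩ := exists_vec_two x y hxy 2 3 hm
        set v := α • x + β • y with hvdef
        refine wt_common M hs hM hinf v hv (fun r => ?_)
        have h4 : bf (M.map (eval 0)) v v = 0 := bf_comb _ (evm_symm hs 0) x y hxx hxy0 hyy α β
        rw [← h4, bf_four, bf_four]
        simp only [Matrix.map_apply, hv3, hv2, cst 0 0 (by decide) (by decide),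
          cst 0 1 (by decide) (by decide), cst 1 0 (by decide) (by decide),
          cst 1 1 (by decide) (by decide)]
        ring
      · -- change of parity
        set P : Matrix (Fin 4) (Fin 4) k :=
          !![x 0, y 0, 1, 0; x 1, y 1, 0, 1; x 2, y 2, 0, 0; x 3, y 3, 0, 0] with hP
        have hPd : P.det = x 2 * y 3 - x 3 * y 2 := by
          rw [hP, det_four]
          simp
          ring
        have hPd0 : P.det ≠ 0 := by rw [hPd]; exact hm
        -- the values of the form
        set m := fun (i j : Fin 4) (n : ℕ) => (M i j).coeff n with hmdef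
        have hms : ∀ i j n, m i j n = m j i n := by
          intro i j n
          simp only [hmdef, hM' i j]
        -- bilinear pieces
        let q : (Fin 4 → k) → (Fin 4 → k) → k → k := fun u v r => bf (M.map (eval r)) u v
        have hMr : ∀ r, M.map (eval r) = !![m 0 0 0, m 0 1 0, m 0 2 0 + m 0 2 1 * r,
              m 0 3 0 + m 0 3 1 * r;
            m 0 1 0, m 1 1 0, m 1 2 0 + m 1 2 1 * r, m 1 3 0 + m 1 3 1 * r;
            m 0 2 0 + m 0 2 1 * r, m 1 2 0 + m 1 2 1 * r,
              m 2 2 0 + m 2 2 1 * r + m 2 2 2 * r ^ 2, m 2 3 0 + m 2 3 1 * r + m 2 3 2 * r ^ 2;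
            m 0 3 0 + m 0 3 1 * r, m 1 3 0 + m 1 3 1 * r,
              m 2 3 0 + m 2 3 1 * r + m 2 3 2 * r ^ 2,
              m 3 3 0 + m 3 3 1 * r + m 3 3 2 * r ^ 2] := by
          intro r
          ext i j
          rw [Matrix.map_apply]
          fin_cases i <;> fin_cases j
          · exact cst 0 0 (by decide) (by decide) r
          · exact cst 0 1 (by decide) (by decide) r
          · exact lin 0 2 (by decide) (by decide) r
          · exact lin 0 3 (by decide) (by decide) r
          · show (M 1 0).eval r = _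
            rw [hM' 1 0]
            exact cst 0 1 (by decide) (by decide) r
          · exact cst 1 1 (by decide) (by decide) r
          · exact lin 1 2 (by decide) (by decide) r
          · exact lin 1 3 (by decide) (by decide) r
          · show (M 2 0).eval r = _
            rw [hM' 2 0]
            exact lin 0 2 (by decide) (by decide) r
          · show (M 2 1).eval r = _
            rw [hM' 2 1]
            exact lin 1 2 (by decide) (by decide) r
          · exact quad 2 2 (by decide) (by decide) r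
          · exact quad 2 3 (by decide) (by decide) r
          · show (M 3 0).eval r = _
            rw [hM' 3 0]
            exact lin 0 3 (by decide) (by decide) r
          · show (M 3 1).eval r = _
            rw [hM' 3 1]
            exact lin 1 3 (by decide) (by decide) r
          · show (M 3 2).eval r = _
            rw [hM' 3 2]
            exact quad 2 3 (by decide) (by decide) r
          · exact quad 3 3 (by decide) (by decide) r
        -- coefficients of the pairing of two vectors
        let q1 : (Fin 4 → k) → (Fin 4 → k) → k := fun u v =>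
          m 0 2 1 * (u 0 * v 2 + u 2 * v 0) + m 0 3 1 * (u 0 * v 3 + u 3 * v 0) +
          m 1 2 1 * (u 1 * v 2 + u 2 * v 1) + m 1 3 1 * (u 1 * v 3 + u 3 * v 1) +
          m 2 2 1 * (u 2 * v 2) + m 2 3 1 * (u 2 * v 3 + u 3 * v 2) + m 3 3 1 * (u 3 * v 3)
        let q2 : (Fin 4 → k) → (Fin 4 → k) → k := fun u v =>
          m 2 2 2 * (u 2 * v 2) + m 2 3 2 * (u 2 * v 3 + u 3 * v 2) + m 3 3 2 * (u 3 * v 3)
        let s0 : (Fin 4 → k) → Fin 4 → k := fun u a =>
          m a 0 0 * u 0 + m a 1 0 * u 1 + m a 2 0 * u 2 + m a 3 0 * u 3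
        let s1 : (Fin 4 → k) → Fin 4 → k := fun u a => m a 2 1 * u 2 + m a 3 1 * u 3
        have hq : ∀ u v r, bf (M.map (eval r)) u v = bf (M.map (eval 0)) u v +
            r * q1 u v + r ^ 2 * q2 u v := by
          intro u v r
          rw [bf_four, bf_four, hMr r, hMr 0]
          simp [q1, q2]
          ring
        let N0 : Matrix (Fin 4) (Fin 4) k :=
          par0 (q1 x x) (q1 x y) (q1 y y) (s0 x 0) (s0 x 1) (s0 y 0) (s0 y 1)
        let N1 : Matrix (Fin 4) (Fin 4) k :=
          par1 (q2 x x) (q2 x y) (q2 y y) (s1 x 0) (s1 x 1) (s1 y 0) (s1 y 1) (m 0 0 0) (m 0 1 0)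
            (m 1 1 0)
        let G : k → Matrix (Fin 4) (Fin 4) k := fun r =>
          parG r (q1 x x) (q1 x y) (q1 y y) (s0 x 0) (s0 x 1) (s0 y 0) (s0 y 1)
            (q2 x x) (q2 x y) (q2 y y) (s1 x 0) (s1 x 1) (s1 y 0) (s1 y 1) (m 0 0 0) (m 0 1 0)
            (m 1 1 0)
        have w0 : P *ᵥ Pi.single 0 1 = x := mulVec_single_zero P x (by
          intro i; fin_cases i <;> rfl)
        have w1 : P *ᵥ Pi.single 1 1 = y := mulVec_single_one' P y (by
          intro i; fin_cases i <;> rfl)
        have w2 : P *ᵥ Pi.single 2 1 = Pi.single 0 1 := by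
          ext i
          fin_cases i <;> simp [hP]
        have w3 : P *ᵥ Pi.single 3 1 = Pi.single 1 1 := by
          ext i
          fin_cases i <;> simp [hP]
        have hG : ∀ r, Pᵀ * M.map (eval r) * P = G r := by
          intro r
          have t0 : ∀ u, bf (M.map (eval r)) u (Pi.single 0 1) = s0 u 0 + r * s1 u 0 := by
            intro u
            rw [bf_four, hMr r]
            simp [s0, s1]
            ring
          have t1 : ∀ u, bf (M.map (eval r)) u (Pi.single 1 1) = s0 u 1 + r * s1 u 1 := by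
            intro u
            rw [bf_four, hMr r]
            simp [s0, s1, hms 1 0]
            ring
          have t0' : ∀ u, bf (M.map (eval r)) (Pi.single 0 1) u = s0 u 0 + r * s1 u 0 := by
            intro u
            rw [bf_comm (evm_symm hs r)]; exact t0 u
          have t1' : ∀ u, bf (M.map (eval r)) (Pi.single 1 1) u = s0 u 1 + r * s1 u 1 := by
            intro u
            rw [bf_comm (evm_symm hs r)]; exact t1 u
          have hyx : bf (M.map (eval 0)) y x = 0 := by
            rw [bf_comm (evm_symm hs 0)]; exact hxy0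
          have q1c : q1 y x = q1 x y := by simp only [q1]; ring
          have q2c : q2 y x = q2 x y := by simp only [q2]; ring
          ext i j
          rw [← bf_single (Pᵀ * M.map (eval r) * P) i j, bf_congr]
          fin_cases i <;> fin_cases j
          · show bf _ (P *ᵥ Pi.single 0 1) (P *ᵥ Pi.single 0 1) = r * (q1 x x + r * q2 x x)
            rw [w0, hq, hxx]; ring
          · show bf _ (P *ᵥ Pi.single 0 1) (P *ᵥ Pi.single 1 1) = r * (q1 x y + r * q2 x y)
            rw [w0, w1, hq, hxy0]; ring
          · show bf _ (P *ᵥ Pi.single 0 1) (P *ᵥ Pi.single 2 1) = s0 x 0 + r * s1 x 0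
            rw [w0, w2, t0]
          · show bf _ (P *ᵥ Pi.single 0 1) (P *ᵥ Pi.single 3 1) = s0 x 1 + r * s1 x 1
            rw [w0, w3, t1]
          · show bf _ (P *ᵥ Pi.single 1 1) (P *ᵥ Pi.single 0 1) = r * (q1 x y + r * q2 x y)
            rw [w0, w1, hq, hyx, q1c, q2c]; ring
          · show bf _ (P *ᵥ Pi.single 1 1) (P *ᵥ Pi.single 1 1) = r * (q1 y y + r * q2 y y)
            rw [w1, hq, hyy]; ring
          · show bf _ (P *ᵥ Pi.single 1 1) (P *ᵥ Pi.single 2 1) = s0 y 0 + r * s1 y 0
            rw [w1, w2, t0]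
          · show bf _ (P *ᵥ Pi.single 1 1) (P *ᵥ Pi.single 3 1) = s0 y 1 + r * s1 y 1
            rw [w1, w3, t1]
          · show bf _ (P *ᵥ Pi.single 2 1) (P *ᵥ Pi.single 0 1) = s0 x 0 + r * s1 x 0
            rw [w0, w2, t0']
          · show bf _ (P *ᵥ Pi.single 2 1) (P *ᵥ Pi.single 1 1) = s0 y 0 + r * s1 y 0
            rw [w1, w2, t0']
          · show bf _ (P *ᵥ Pi.single 2 1) (P *ᵥ Pi.single 2 1) = m 0 0 0
            rw [w2, bf_single, Matrix.map_apply, cst 0 0 (by decide) (by decide)]
          · show bf _ (P *ᵥ Pi.single 2 1) (P *ᵥ Pi.single 3 1) = m 0 1 0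
            rw [w2, w3, bf_single, Matrix.map_apply, cst 0 1 (by decide) (by decide)]
          · show bf _ (P *ᵥ Pi.single 3 1) (P *ᵥ Pi.single 0 1) = s0 x 1 + r * s1 x 1
            rw [w0, w3, t1']
          · show bf _ (P *ᵥ Pi.single 3 1) (P *ᵥ Pi.single 1 1) = s0 y 1 + r * s1 y 1
            rw [w1, w3, t1']
          · show bf _ (P *ᵥ Pi.single 3 1) (P *ᵥ Pi.single 2 1) = m 0 1 0
            rw [w2, w3, bf_single, Matrix.map_apply, hM' 1 0, cst 0 1 (by decide) (by decide)]
          · show bf _ (P *ᵥ Pi.single 3 1) (P *ᵥ Pi.single 3 1) = m 1 1 0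
            rw [w3, bf_single, Matrix.map_apply, cst 1 1 (by decide) (by decide)]
        have hdetG : ∀ r, (N0 + r • N1).det = P.det ^ 2 * (M.map (eval r)).det := by
          intro r
          have h3 : P.det ^ 2 * (M.map (eval r)).det = (G r).det := by
            rw [← hG r, Matrix.det_mul, Matrix.det_mul, Matrix.det_transpose]; ring
          rw [h3]
          exact par_det _ _ _ _ _ _ _ _ _ _ _ _ _ _ _ _ _ _
        have hsN0 : N0ᵀ = N0 := by
          ext i j
          fin_cases i <;> fin_cases j <;> rfl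
        have hsN1 : N1ᵀ = N1 := by
          ext i j
          fin_cases i <;> fin_cases j <;> rfl
        have hN0p : IsoPlane N0 := by
          refine ⟨Pi.single 2 1, Pi.single 3 1, ?_, ?_, ?_, ?_⟩
          · rw [LinearIndependent.pair_iff]
            intro s t hst
            have h3 := congrFun hst 2
            have h4 := congrFun hst 3
            simp at h3 h4
            exact ⟨h3, h4⟩
          · rw [bf_single]; rfl
          · rw [bf_single]; rfl
          · rw [bf_single]; rfl
        have hN0d : N0.det ≠ 0 := by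
          have h3 := hdetG 0
          rw [zero_smul, add_zero] at h3
          rw [h3]
          exact mul_ne_zero (pow_ne_zero 2 hPd0) hd
        have hres := double_all h2 N0 N1 hsN0 hsN1 hN0p hN0d (by
          refine hinf.mono fun r hr => ?_
          obtain ⟨z, hz⟩ := hr
          refine ⟨P.det * z, ?_⟩
          rw [hdetG, hz]; ring)
        refine (hres.sdiff (Set.finite_singleton (0 : k))).mono ?_
        rintro r ⟨hr, hr0⟩
        have hr0' : r ≠ 0 := hr0
        show IsoPlane (M.map (eval r))
        let T : Matrix (Fin 4) (Fin 4) k := Matrix.diagonal ![1, 1, r, r]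
        have hT : (P * T)ᵀ * M.map (eval r) * (P * T) = r • (N0 + r • N1) := by
          have h3 : (P * T)ᵀ * M.map (eval r) * (P * T) = Tᵀ * (Pᵀ * M.map (eval r) * P) * T := by
            rw [Matrix.transpose_mul]
            simp only [Matrix.mul_assoc]
          rw [h3, hG r]
          exact par_mul _ _ _ _ _ _ _ _ _ _ _ _ _ _ _ _ _ _
        have hdT : (P * T).det ≠ 0 := by
          rw [Matrix.det_mul, Matrix.det_diagonal, Fin.prod_univ_four]
          simp [hPd0, hr0']
        apply IsoPlane.congr _ (P * T) (inj_of_det _ hdT)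
        rw [hT]
        obtain ⟨u, v, huv, h5, h6, h7⟩ := hr
        exact ⟨u, v, huv, by rw [bf_smul_mat, h5, mul_zero], by rw [bf_smul_mat, h6, mul_zero],
          by rw [bf_smul_mat, h7, mul_zero]⟩
  · -- odd weights
    obtain ⟨a, ha⟩ := hodd
    have e0 : e 0 = 1 := by omega
    have e1 : e 1 = 1 := by omega
    have e2 : e 2 = 1 := by omega
    have e3 : e 3 = 1 := by omega
    have hall : ∀ i, e i = 1 := by intro i; fin_cases i <;> assumption
    have hlin : ∀ r, M.map (eval r) = M.map (fun p => p.coeff 0) + r • M.map (fun p => p.coeff 1) := by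
      intro r
      ext i j
      rw [Matrix.map_apply, lin_of_coeff]
      · simp; ring
      · intro n hn
        have := hdeg i j n hn
        rw [hall, hall] at this
        omega
    have h00 : M.map (eval 0) = M.map (fun p => p.coeff 0) := by
      rw [hlin 0, zero_smul, add_zero]
    rw [h00] at hp hd
    simp only [hlin] at hinf ⊢
    exact double_all h2 _ _ (by rw [← Matrix.transpose_map, hs]) (by rw [← Matrix.transpose_map, hs])
      hp hd hinf

theorem bf_submatrix (N : Matrix (Fin 4) (Fin 4) k) (σ : Equiv.Perm (Fin 4)) (u v : Fin 4 → k) :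
    bf (N.submatrix σ σ) (u ∘ σ) (v ∘ σ) = bf N u v := by
  simp only [bf, dotProduct, Matrix.mulVec, Matrix.submatrix_apply, Function.comp_apply]
  rw [← Equiv.sum_comp σ (fun i => u i * ∑ j, N i j * v j)]
  refine Finset.sum_congr rfl fun i _ => ?_
  rw [← Equiv.sum_comp σ (fun j => N (σ i) j * v j)]

theorem IsoPlane.submatrix (N : Matrix (Fin 4) (Fin 4) k) (σ : Equiv.Perm (Fin 4))
    (h : IsoPlane N) : IsoPlane (N.submatrix σ σ) := by
  obtain ⟨x, y, hxy, h1, h2, h3⟩ := h
  refine ⟨x ∘ σ, y ∘ σ, ?_, by rw [bf_submatrix, h1], by rw [bf_submatrix, h2],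
    by rw [bf_submatrix, h3]⟩
  rw [LinearIndependent.pair_iff] at hxy ⊢
  intro s t hst
  apply hxy s t
  funext i
  have := congrFun hst (σ.symm i)
  simpa using this

/-- **Doubling with weights.** -/
theorem double_wt [Infinite k] (h2 : (2 : k) ≠ 0) (M : Matrix (Fin 4) (Fin 4) k[X])
    (hs : Mᵀ = M) (hw : HasWt M)
    (hp : IsoPlane (M.map (eval 0))) (hd : (M.map (eval 0)).det ≠ 0)
    (hinf : {r : k | IsSquare (M.map (eval r)).det}.Infinite) :
    {r : k | IsoPlane (M.map (eval r))}.Infinite := by
  obtain ⟨e, he, hsum, hdeg⟩ := hw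
  let σ := Tuple.sort e
  have hmono : Monotone (e ∘ σ) := Tuple.monotone_sort e
  have hsub : ∀ r, (M.submatrix σ σ).map (eval r) = (M.map (eval r)).submatrix σ σ := by
    intro r
    rfl
  have key := wt_sorted h2 (M.submatrix σ σ) (by rw [Matrix.transpose_submatrix, hs]) (e ∘ σ)
    (fun i j => he (σ i) (σ j)) (by
      have h3 : ∑ i, (e ∘ σ) i = ∑ i, e i := Equiv.sum_comp σ e
      rw [Fin.sum_univ_four] at h3
      rw [h3]; exact hsum) (hmono (by decide)) (hmono (by decide)) (hmono (by decide))
    (fun i j n hn => hdeg (σ i) (σ j) n hn) (by rw [hsub]; exact IsoPlane.submatrix _ σ hp)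
    (by rw [hsub, Matrix.det_submatrix_equiv_self]; exact hd)
    (by simpa only [hsub, Matrix.det_submatrix_equiv_self] using hinf)
  refine key.mono fun r hr => ?_
  have hr' : IsoPlane ((M.map (eval r)).submatrix σ σ) := hr
  have h3 := IsoPlane.submatrix _ σ.symm hr'
  rw [Matrix.submatrix_submatrix] at h3
  simpa using h3

end field

end Pool.Agent.Work.Pencil
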