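import Mathlib
import Pool.Agent.Work.MP_b62148_ag.Pencil.Wt
import Pool.Agent.Work.MP_b62148_ag.Pencil.Cov

/-!
Families of quaternary quadratic forms with weights over a double cover.
-/

namespace Pool.Agent.Work.Pencil

open Matrix Polynomial Pool.Agent.Work.D9odd

universe u

section ring

variable {S A : Type*} [CommRing S] [CommRing A]

/-- specialisation of a matrix of polynomials -/
noncomputable def spm (M : Matrix (Fin 4) (Fin 4) S[X]) (φ : S →+* A) (r : A) :
    Matrix (Fin 4) (Fin 4) A := M.map (eval₂RingHom φ r)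

theorem spm_det (M : Matrix (Fin 4) (Fin 4) S[X]) (φ : S →+* A) (r : A) :
    (spm M φ r).det = M.det.eval₂ φ r :=
  (RingHom.map_det (eval₂RingHom φ r) M).symm

theorem spm_symm {M : Matrix (Fin 4) (Fin 4) S[X]} (h : Mᵀ = M) (φ : S →+* A) (r : A) :
    (spm M φ r)ᵀ = spm M φ r := map_symm h _

theorem spm_zero (M : Matrix (Fin 4) (Fin 4) S[X]) (φ : S →+* A) :
    spm M φ 0 = (M.map (fun p => p.coeff 0)).map φ := by
  ext i j
  show Polynomial.eval₂ φ 0 (M i j) = φ ((M i j).coeff 0)
  rw [Polynomial.eval₂_at_zero]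

theorem spm_map (M : Matrix (Fin 4) (Fin 4) S[X]) (φ : S →+* A) (r : A) :
    (M.map (Polynomial.map φ)).map (eval r) = spm M φ r := by
  ext i j
  show Polynomial.eval r (Polynomial.map φ (M i j)) = Polynomial.eval₂ φ r (M i j)
  rw [Polynomial.eval_map]

theorem det_coeff_zero (M : Matrix (Fin 4) (Fin 4) S[X]) :
    (M.map (fun p => p.coeff 0)).det = M.det.coeff 0 := by
  have h := RingHom.map_det (Polynomial.constantCoeff : S[X] →+* S) M
  exact h.symm

end ring

section spec

variable {R K k S : Type*} [CommRing R] [IsDomain R] [Field K] [Algebra R K] [IsFractionRing R K]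
  [Field k] [CommRing S]

/-- specialisation -/
theorem spec_zero' (M : Matrix (Fin 4) (Fin 4) S[X]) (φ : S →+* R) (P : Set (R →+* k))
    (hP : ∀ r : R, (∀ p ∈ P, p r = 0) → r = 0) (ψ : S →+* K)
    (hψ : ψ = (algebraMap R K).comp φ) (H : S[X])
    (hH : ∀ p ∈ P, ∀ r : k, IsoPlane (spm M (p.comp φ) r) →
      (H.map (p.comp φ)).eval r = 0) (r : K)
    (hr : IsoPlane (spm M ψ r)) : (H.map ψ).eval r = 0 := by
  classical
  by_contra hne
  obtain ⟨x, y, hxy, hxx, hxy', hyy⟩ := hr
  obtain ⟨i, j, hij⟩ := minor_of_indep x y hxy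
  set g := (H.map ψ).eval r with hg
  set m := x i * y j - x j * y i with hm
  obtain ⟨p, hp, f, ι, φ', hι, hι', hφ', hZ⟩ := D9.exists_spec (K := K) P hP
    ({r, g⁻¹, m⁻¹} ∪ (Finset.univ.image x ∪ Finset.univ.image y))
  obtain ⟨r', hr'⟩ := hZ r (by simp)
  obtain ⟨g', hg'⟩ := hZ g⁻¹ (by simp)
  obtain ⟨m', hm'⟩ := hZ m⁻¹ (by simp)
  choose x' hx' using fun l : Fin 4 => hZ (x l) (by simp)
  choose y' hy' using fun l : Fin 4 => hZ (y l) (by simp)
  have fx : ι ∘ x' = x := funext hx'
  have fy : ι ∘ y' = y := funext hy'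
  set α : R →+* Localization.Away f := algebraMap R (Localization.Away f) with hα
  set ψ' : S →+* Localization.Away f := α.comp φ with hψ'
  have hιψ : ι.comp ψ' = ψ := by
    rw [hψ', ← RingHom.comp_assoc, hι', hψ]
  have hφψ : φ'.comp ψ' = p.comp φ := by
    rw [hψ', ← RingHom.comp_assoc, hφ']
  set N' : Matrix (Fin 4) (Fin 4) (Localization.Away f) := spm M ψ' r' with hN'
  have hNι : N'.map ι = spm M ψ r := by
    rw [hN', ← hιψ, ← hr']
    ext a b
    show ι (Polynomial.eval₂ ψ' r' (M a b)) = Polynomial.eval₂ (ι.comp ψ') (ι r') (M a b)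
    rw [Polynomial.hom_eval₂]
  have hNφ : N'.map φ' = spm M (p.comp φ) (φ' r') := by
    rw [hN', ← hφψ]
    ext a b
    show φ' (Polynomial.eval₂ ψ' r' (M a b)) = Polynomial.eval₂ (φ'.comp ψ') (φ' r') (M a b)
    rw [Polynomial.hom_eval₂]
  have t1 : bf N' x' x' = 0 := by
    apply hι; rw [map_bf, hNι, fx, map_zero, hxx]
  have t2 : bf N' x' y' = 0 := by
    apply hι; rw [map_bf, hNι, fx, fy, map_zero, hxy']
  have t3 : bf N' y' y' = 0 := by
    apply hι; rw [map_bf, hNι, fy, map_zero, hyy]
  have t4 : (x' i * y' j - x' j * y' i) * m' = 1 := by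
    apply hι
    rw [map_mul, map_sub, map_mul, map_mul, hm', hx', hx', hy', hy', map_one, ← hm]
    exact mul_inv_cancel₀ hij
  have t5 : (H.map ψ').eval r' * g' = 1 := by
    apply hι
    have : ι ((H.map ψ').eval r') = (H.map ψ).eval r := by
      rw [Polynomial.eval_map, Polynomial.eval_map, Polynomial.hom_eval₂, hιψ, hr']
    rw [map_mul, this, ← hg, hg', map_one]
    exact mul_inv_cancel₀ hne
  have hk : IsoPlane (spm M (p.comp φ) (φ' r')) := by
    rw [← hNφ]
    refine ⟨φ' ∘ x', φ' ∘ y', indep_of_minor _ _ i j ?_, ?_, ?_, ?_⟩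
    · intro h0
      have := congrArg φ' t4
      rw [map_mul, map_sub, map_mul, map_mul, map_one] at this
      simp only [Function.comp_apply] at h0
      rw [h0, zero_mul] at this
      exact zero_ne_one this
    · rw [← map_bf, t1, map_zero]
    · rw [← map_bf, t2, map_zero]
    · rw [← map_bf, t3, map_zero]
  have h6 := hH p hp _ hk
  have h7 := congrArg φ' t5
  have h8 : φ' ((H.map ψ').eval r') = (H.map (p.comp φ)).eval (φ' r') := by
    rw [Polynomial.eval_map, Polynomial.eval_map, Polynomial.hom_eval₂, hφψ]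
  rw [map_mul, h8, h6, zero_mul, map_one] at h7
  exact zero_ne_one h7

end spec

/-- infinitely many values of `D` are squares in `K` -/
def SqInf {S : Type*} {K : Type*} [CommRing S] [CommRing K] (ψ : S →+* K) (D : S[X]) : Prop :=
  {s : K | IsSquare (D.eval₂ ψ s)}.Infinite

/-- infinitely many values of `D` are squares in the function field of the cover `z² = D(0)` -/
def CovCond {S : Type*} [CommRing S] (D : S[X]) : Prop :=
  ((∃ b, b ^ 2 = D.coeff 0) → SqInf (algebraMap S (FractionRing S)) D) ∧
  ((¬ ∃ b, b ^ 2 = D.coeff 0) → SqInf ((algebraMap (AdjoinRoot (cv (D.coeff 0)))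
    (FractionRing (AdjoinRoot (cv (D.coeff 0))))).comp (AdjoinRoot.of (cv (D.coeff 0)))) D)

section dense

variable {k : Type*} {S : Type*} [Field k] [CommRing S] [IsDomain S]
  [UniqueFactorizationMonoid S] [CharZero S]

omit [IsDomain S] [UniqueFactorizationMonoid S] in
theorem iso_inf {K : Type*} [Field K] (M : Matrix (Fin 4) (Fin 4) S[X]) (hM : Mᵀ = M)
    (hw : HasWt M) (a : Fin 4 → S) (ha : a ≠ 0)
    (haa : bf (M.map (fun p => p.coeff 0)) a a = 0) (hB : M.det.coeff 0 ≠ 0)
    (ψ : S →+* K) (hψ : Function.Injective ψ) (z : K) (hz : z ^ 2 = ψ (M.det.coeff 0))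
    (hinf : SqInf ψ M.det) : {r : K | IsoPlane (spm M ψ r)}.Infinite := by
  have hcK : CharZero K := charZero_of_injective_ringHom hψ
  have hz0 : z ≠ 0 := by
    rintro rfl
    apply hB
    apply hψ
    rw [map_zero, ← hz]; simp
  have h0 : spm M ψ 0 = (M.map (fun p => p.coeff 0)).map ψ := spm_zero M ψ
  have hdet : (spm M ψ 0).det = z ^ 2 := by
    rw [spm_det, Polynomial.eval₂_at_zero, hz]
  have key := double_wt (k := K) two_ne_zero (M.map (Polynomial.map ψ))
    (by rw [← Matrix.transpose_map, hM]) (hw.map ψ) (by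
      rw [spm_map]
      refine isoPlane_of_isotropic _ (spm_symm hM ψ 0) z hz0 hdet (ψ ∘ a) ?_ ?_
      · intro h
        apply ha
        funext j
        apply hψ
        rw [Pi.zero_apply, map_zero]
        exact congrFun h j
      · rw [h0, ← map_bf, haa, map_zero]) (by
      rw [spm_map, hdet]
      exact pow_ne_zero 2 hz0) (by
      simp only [spm_map, spm_det]
      exact hinf)
  simpa only [spm_map] using key

/-- the members of the family vanishing on a plane are dense -/
theorem dense_wt (pts : Set (S →+* k)) (M : Matrix (Fin 4) (Fin 4) S[X]) (hM : Mᵀ = M)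
    (hw : HasWt M) (a : Fin 4 → S) (ha : a ≠ 0)
    (haa : bf (M.map (fun p => p.coeff 0)) a a = 0) (hB : M.det.coeff 0 ≠ 0)
    (hK : CovCond M.det)
    (hdense : ∀ a b : S, (∀ p ∈ pts, ∀ z : k, z ^ 2 = p (M.det.coeff 0) → p a + z * p b = 0) →
      a = 0 ∧ b = 0) (H : S[X])
    (hH : ∀ p ∈ pts, ∀ r : k, IsoPlane (spm M p r) → (H.map p).eval r = 0) :
    H = 0 := by
  by_cases hsq : ∃ b, b ^ 2 = M.det.coeff 0
  · -- the determinant is a square
    have hinj := IsFractionRing.injective S (FractionRing S)
    obtain ⟨b, hb⟩ := hsq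
    have hinf := iso_inf M hM hw a ha haa hB (algebraMap S (FractionRing S)) hinj
      (algebraMap S (FractionRing S) b) (by rw [← map_pow, hb]) (hK.1 ⟨b, hb⟩)
    have hspec := fun r hr => spec_zero' (K := FractionRing S) M (RingHom.id S) pts
      (by
        intro s hs
        refine (hdense s 0 ?_).1
        intro p hp z _
        rw [hs p hp, map_zero]; ring) (algebraMap S (FractionRing S)) rfl H
      (by
        intro p hp r hr
        exact hH p hp r hr) r hr
    have hH0 : H.map (algebraMap S (FractionRing S)) = 0 := by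
      apply Polynomial.eq_zero_of_infinite_isRoot
      refine hinf.mono fun r hr => ?_
      exact hspec r hr
    exact Polynomial.map_injective _ hinj (by rw [hH0, Polynomial.map_zero])
  · have hK2 := hK.2 hsq
    set B := M.det.coeff 0 with hBdef
    have hirr := cv_irreducible B hsq
    have : IsDomain (AdjoinRoot (cv B)) := AdjoinRoot.isDomain_of_prime hirr.prime
    let R := AdjoinRoot (cv B)
    let K := FractionRing R
    let φ : S →+* R := AdjoinRoot.of (cv B)
    let z : R := AdjoinRoot.root (cv B)
    let ψ : S →+* K := (algebraMap R K).comp φ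
    have hinj := IsFractionRing.injective R K
    have hz : z ^ 2 = φ B := by
      have h := AdjoinRoot.eval₂_root (cv B)
      rw [cv, Polynomial.eval₂_sub, Polynomial.eval₂_pow, Polynomial.eval₂_X,
        Polynomial.eval₂_C] at h
      exact sub_eq_zero.mp h
    have hφinj : Function.Injective φ := by
      rw [injective_iff_map_eq_zero]
      intro p hp
      have h := AdjoinRoot.of.injective_of_degree_ne_zero (f := cv B) (by
        rw [Polynomial.degree_eq_natDegree (cv_monic B).ne_zero, cv_natDegree]; norm_num)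
      exact h (by rw [map_zero]; exact hp)
    have hψinj : Function.Injective ψ := hinj.comp hφinj
    have hiso' := iso_inf M hM hw a ha haa hB ψ hψinj (algebraMap R K z) (by
      rw [← map_pow, hz]
      rfl) hK2
    let P : Set (R →+* k) := {q | ∃ p ∈ pts, ∃ (z' : k) (h : z' ^ 2 = p B), q = ptHom B p z' h}
    have hspec := fun r hr => spec_zero' (R := R) (K := K) M φ P
      (by
        intro s hs
        obtain ⟨c, d, rfl⟩ := exists_ab B s
        have hcd := hdense c d (by
          intro p hp z' hz'
          have h2 := hs (ptHom B p z' hz') ⟨p, hp, z', hz', rfl⟩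
          rw [map_add, map_mul, ptHom_of, ptHom_of, ptHom_root] at h2
          rw [← h2]; ring)
        rw [hcd.1, hcd.2]
        simp) ψ rfl H
      (by
        rintro q ⟨p, hp, z', hz', rfl⟩ r hr
        have e : (ptHom B p z' hz').comp φ = p := by
          refine RingHom.ext fun s => ?_
          exact ptHom_of B p z' hz' s
        rw [e] at hr ⊢
        exact hH p hp r hr) r hr
    have hH0 : H.map ψ = 0 := by
      apply Polynomial.eq_zero_of_infinite_isRoot
      refine hiso'.mono fun r hr => ?_
      exact hspec r hr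
    exact Polynomial.map_injective ψ hψinj (by rw [hH0, Polynomial.map_zero])

end dense

section collision

variable {S : Type*} [CommRing S] [IsDomain S] [UniqueFactorizationMonoid S]

/-- the two sections meet at a point -/
theorem covCond_collision {Ω : Type*} [Field Ω] [CharZero Ω] (D : S[X]) (hD : D.natDegree ≤ 4)
    (hB : D.coeff 0 ≠ 0) (t0 : S →+* Ω) (ht0 : t0 (D.coeff 0) = 0) (ht1 : t0 (D.coeff 1) ≠ 0) :
    CovCond D := by
  have hsum : ∀ {K : Type _} [CommRing K] (ψ : S →+* K) (r : K), D.eval₂ ψ r =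
      ψ (D.coeff 0) + ψ (D.coeff 1) * r + ψ (D.coeff 2) * r ^ 2 + ψ (D.coeff 3) * r ^ 3 +
      ψ (D.coeff 4) * r ^ 4 := by
    intro K _ ψ r
    rw [Polynomial.eval₂_eq_sum_range' ψ (Nat.lt_succ_of_le hD)]
    simp [Finset.sum_range_succ]
  constructor
  · rintro ⟨b, hb⟩
    have hb0 : b ≠ 0 := by
      rintro rfl
      apply hB
      rw [← hb]; ring
    have htb : t0 b = 0 := by
      rw [← hb, map_pow] at ht0
      exact pow_eq_zero_iff two_ne_zero |>.mp ht0
    have h3 := D9.infinite_fraction (K := FractionRing S) t0 b (D.coeff 1) (D.coeff 2)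
      (D.coeff 3) (D.coeff 4) htb ht1 hb0
    refine h3.mono fun r hr => ?_
    show IsSquare (D.eval₂ _ r)
    rw [hsum, ← hb, map_pow]
    exact hr
  · intro hsq
    set B := D.coeff 0 with hBdef
    have hirr := cv_irreducible B hsq
    have : IsDomain (AdjoinRoot (cv B)) := AdjoinRoot.isDomain_of_prime hirr.prime
    let R := AdjoinRoot (cv B)
    let K := FractionRing R
    let φ : S →+* R := AdjoinRoot.of (cv B)
    let z : R := AdjoinRoot.root (cv B)
    have hz : z ^ 2 = φ B := by
      have h := AdjoinRoot.eval₂_root (cv B)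
      rw [cv, Polynomial.eval₂_sub, Polynomial.eval₂_pow, Polynomial.eval₂_X,
        Polynomial.eval₂_C] at h
      exact sub_eq_zero.mp h
    have e0 : (0 : Ω) ^ 2 = t0 B := by rw [ht0]; simp
    let ev : R →+* Ω := ptHom B t0 0 e0
    have hev : ev z = 0 := ptHom_root _ _ _ _
    have hev' : ∀ p : S, ev (φ p) = t0 p := fun p => ptHom_of _ _ _ _ p
    have hφinj : Function.Injective φ := by
      rw [injective_iff_map_eq_zero]
      intro p hp
      have h := AdjoinRoot.of.injective_of_degree_ne_zero (f := cv B) (by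
        rw [Polynomial.degree_eq_natDegree (cv_monic B).ne_zero, cv_natDegree]; norm_num)
      exact h (by rw [map_zero]; exact hp)
    have hz0 : z ≠ 0 := by
      intro h
      rw [h] at hz
      apply hB
      apply hφinj
      rw [map_zero, ← hz]; simp
    have h3 := D9.infinite_fraction (K := K) ev z (φ (D.coeff 1)) (φ (D.coeff 2))
      (φ (D.coeff 3)) (φ (D.coeff 4)) hev (by rw [hev']; exact ht1) hz0
    refine h3.mono fun r hr => ?_
    show IsSquare (D.eval₂ ((algebraMap R K).comp φ) r)
    rw [hsum]
    have h4 : ((algebraMap R K).comp φ) (D.coeff 0) = algebraMap R K z ^ 2 := by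
      rw [← map_pow, hz]; rfl
    rw [h4]
    exact hr

/-- a condition on all extensions of the function field -/
theorem covCond_of_field {S : Type u} [CommRing S] [IsDomain S] [UniqueFactorizationMonoid S]
    (D : S[X])
    (h : ∀ (K : Type u) [Field K] (ψ : S →+* K) (z : K), Function.Injective ψ →
      z ^ 2 = ψ (D.coeff 0) → SqInf ψ D) : CovCond D := by
  constructor
  · rintro ⟨b, hb⟩
    exact h (FractionRing S) _ (algebraMap S (FractionRing S) b)
      (IsFractionRing.injective S (FractionRing S)) (by rw [← map_pow, hb])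
  · intro hsq
    set B := D.coeff 0 with hBdef
    have hirr := cv_irreducible B hsq
    have : IsDomain (AdjoinRoot (cv B)) := AdjoinRoot.isDomain_of_prime hirr.prime
    let R := AdjoinRoot (cv B)
    let K := FractionRing R
    let φ : S →+* R := AdjoinRoot.of (cv B)
    let z : R := AdjoinRoot.root (cv B)
    have hz : z ^ 2 = φ B := by
      have h := AdjoinRoot.eval₂_root (cv B)
      rw [cv, Polynomial.eval₂_sub, Polynomial.eval₂_pow, Polynomial.eval₂_X,
        Polynomial.eval₂_C] at h
      exact sub_eq_zero.mp h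
    have hφinj : Function.Injective φ := by
      rw [injective_iff_map_eq_zero]
      intro p hp
      have h := AdjoinRoot.of.injective_of_degree_ne_zero (f := cv B) (by
        rw [Polynomial.degree_eq_natDegree (cv_monic B).ne_zero, cv_natDegree]; norm_num)
      exact h (by rw [map_zero]; exact hp)
    exact h K ((algebraMap R K).comp φ) (algebraMap R K z)
      ((IsFractionRing.injective R K).comp hφinj) (by rw [← map_pow, hz]; rfl)

end collision

end Pool.Agent.Work.Pencil
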