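import Mathlib

/-!
Factors of a polynomial in two variables over an algebraically closed field.
-/

namespace Pool.Agent.Work.Pencil

open MvPolynomial

variable {Ω : Type*} [Field Ω]

/-- a polynomial without the variable `X 0` -/
theorem of_degreeOf_zero (p : MvPolynomial (Fin 2) Ω) (h : degreeOf 0 p = 0) :
    ∃ u : Polynomial Ω, p = Polynomial.aeval (X 1) u := by
  refine ⟨∑ d ∈ p.support, Polynomial.monomial (d 1) (coeff d p), ?_⟩
  rw [map_sum]
  conv_lhs => rw [p.as_sum]
  refine Finset.sum_congr rfl fun d hd => ?_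
  have h0 : d 0 = 0 := by
    have := MvPolynomial.degreeOf_le_iff.mp h.le d hd
    omega
  rw [Polynomial.aeval_monomial, MvPolynomial.algebraMap_eq]
  rw [MvPolynomial.monomial_eq]
  congr 1
  rw [Finsupp.prod_fintype _ _ (fun i => pow_zero _), Fin.prod_univ_two, h0, pow_zero, one_mul]

theorem of_degreeOf_one (p : MvPolynomial (Fin 2) Ω) (h : degreeOf 1 p = 0) :
    ∃ u : Polynomial Ω, p = Polynomial.aeval (X 0) u := by
  refine ⟨∑ d ∈ p.support, Polynomial.monomial (d 0) (coeff d p), ?_⟩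
  rw [map_sum]
  conv_lhs => rw [p.as_sum]
  refine Finset.sum_congr rfl fun d hd => ?_
  have h0 : d 1 = 0 := by
    have := MvPolynomial.degreeOf_le_iff.mp h.le d hd
    omega
  rw [Polynomial.aeval_monomial, MvPolynomial.algebraMap_eq]
  rw [MvPolynomial.monomial_eq]
  congr 1
  rw [Finsupp.prod_fintype _ _ (fun i => pow_zero _), Fin.prod_univ_two, h0, pow_zero, mul_one]

theorem eval_aeval_X (x : Fin 2 → Ω) (i : Fin 2) (u : Polynomial Ω) :
    eval x (Polynomial.aeval (X i) u) = u.eval (x i) := by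
  have h := Polynomial.aeval_algHom_apply ((aeval x : MvPolynomial (Fin 2) Ω →ₐ[Ω] Ω))
    (X i : MvPolynomial (Fin 2) Ω) u
  rw [aeval_X] at h
  have h2 : (Polynomial.aeval (x i)) u = u.eval (x i) := by
    rw [Polynomial.coe_aeval_eq_eval]
  rw [← h2, h, MvPolynomial.aeval_eq_eval]

theorem degreeOf_aeval_X (i j : Fin 2) (hij : i ≠ j) (u : Polynomial Ω) :
    degreeOf i (Polynomial.aeval (X j : MvPolynomial (Fin 2) Ω) u) = 0 := by
  rw [Polynomial.aeval_eq_sum_range]
  refine Nat.le_zero.mp ((degreeOf_sum_le _ _ _).trans (Finset.sup_le fun k _ => ?_))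
  rw [MvPolynomial.smul_eq_C_mul]
  refine (degreeOf_C_mul_le _ _ _).trans ((degreeOf_pow_le _ _ _).trans ?_)
  rw [degreeOf_X_of_ne hij, mul_zero]

theorem aeval_X_injective (i : Fin 2) : Function.Injective
    (Polynomial.aeval (X i : MvPolynomial (Fin 2) Ω) : Polynomial Ω →ₐ[Ω] _) := by
  let g : MvPolynomial (Fin 2) Ω →ₐ[Ω] Polynomial Ω := aeval fun _ => Polynomial.X
  have h : g.comp (Polynomial.aeval (X i)) = AlgHom.id Ω _ := by
    apply Polynomial.algHom_ext
    simp [g]
  intro a b hab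
  have := congrArg g hab
  rw [← AlgHom.comp_apply, ← AlgHom.comp_apply, h] at this
  exact this

/-- no mixed prime factors -/
theorem exists_uv (F : MvPolynomial (Fin 2) Ω) (hF : F ≠ 0)
    (h : ∀ p, Prime p → p ∣ F → degreeOf 0 p = 0 ∨ degreeOf 1 p = 0) :
    ∃ u v : Polynomial Ω, F = Polynomial.aeval (X 1) u * Polynomial.aeval (X 0) v := by
  induction F using UniqueFactorizationMonoid.induction_on_prime with
  | h₁ => exact absurd rfl hF
  | h₂ x hx =>
    obtain ⟨c, hc, hcx⟩ := MvPolynomial.isUnit_iff_eq_C_of_isReduced.mp hx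
    exact ⟨Polynomial.C c, 1, by rw [hcx]; simp [MvPolynomial.algebraMap_eq]⟩
  | h₃ a p ha hp ih =>
    have ha0 : a ≠ 0 := ha
    obtain ⟨u, v, huv⟩ := ih ha0 fun q hq hqa => h q hq (hqa.mul_left p)
    rcases h p hp (dvd_mul_right p a) with h0 | h1
    · obtain ⟨u', hu'⟩ := of_degreeOf_zero p h0
      refine ⟨u' * u, v, ?_⟩
      rw [huv, hu', map_mul, mul_assoc]
    · obtain ⟨v', hv'⟩ := of_degreeOf_one p h1
      refine ⟨u, v' * v, ?_⟩
      rw [huv, hv', map_mul]; ring

theorem degreeOf_pderiv_lt (p : MvPolynomial (Fin 2) Ω) (h : degreeOf 0 p ≠ 0) :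
    degreeOf 0 (pderiv 0 p) < degreeOf 0 p := by
  rw [degreeOf_lt_iff (Nat.pos_of_ne_zero h)]
  intro m hm
  rw [MvPolynomial.mem_support_iff, coeff_pderiv] at hm
  have h1 : m + Finsupp.single 0 1 ∈ p.support := by
    rw [MvPolynomial.mem_support_iff]
    exact left_ne_zero_of_mul hm
  have h2 := MvPolynomial.monomial_le_degreeOf 0 h1
  simp at h2
  omega

theorem pderiv_ne_zero [CharZero Ω] (p : MvPolynomial (Fin 2) Ω) (h : degreeOf 0 p ≠ 0) :
    pderiv 0 p ≠ 0 := by
  intro h0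
  apply h
  refine Nat.le_zero.mp (MvPolynomial.degreeOf_le_iff.mpr fun d hd => ?_)
  by_contra hne
  have h1 : d - Finsupp.single 0 1 + Finsupp.single 0 1 = d := by
    ext i
    have : i = 0 ∨ i = 1 := by
      fin_cases i <;> simp
    rcases this with rfl | rfl
    · simp
      omega
    · simp
  have h2 := coeff_pderiv (i := 0) p (d - Finsupp.single 0 1)
  rw [h0, coeff_zero, h1] at h2
  rcases mul_eq_zero.mp h2.symm with h3 | h3
  · exact MvPolynomial.mem_support_iff.mp hd h3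
  · exact Nat.cast_add_one_ne_zero _ h3

/-- The trichotomy. -/
theorem tri [IsAlgClosed Ω] [CharZero Ω] (F : MvPolynomial (Fin 2) Ω) (hF : F ≠ 0)
    (hd : degreeOf 0 F ≤ 4) :
    (∃ r t : Ω, eval ![r, t] F = 0 ∧ eval ![r, t] (pderiv 0 F) ≠ 0 ∧
      ∃ s, eval ![r, s] F ≠ 0) ∨
    (∃ G p : MvPolynomial (Fin 2) Ω, F = G * p ^ 2 ∧ degreeOf 0 G ≤ 2) ∨
    ∃ u v : Polynomial Ω, F = Polynomial.aeval (X 1) u * Polynomial.aeval (X 0) v := by
  by_cases h : ∀ p, Prime p → p ∣ F → degreeOf 0 p = 0 ∨ degreeOf 1 p = 0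
  · exact Or.inr (Or.inr (exists_uv F hF h))
  push Not at h
  obtain ⟨p, hp, ⟨H, rfl⟩, h0, h1⟩ := h
  have hp0 : p ≠ 0 := hp.ne_zero
  have hH0 : H ≠ 0 := right_ne_zero_of_mul hF
  by_cases hpH : p ∣ H
  · obtain ⟨G, rfl⟩ := hpH
    have hG0 : G ≠ 0 := right_ne_zero_of_mul hH0
    refine Or.inr (Or.inl ⟨G, p, by ring, ?_⟩)
    rw [degreeOf_mul_eq hp0 hH0, degreeOf_mul_eq hp0 hG0] at hd
    omega
  left
  -- a point with a value different from zero
  obtain ⟨x0, hx0⟩ : ∃ x : Fin 2 → Ω, eval x (p * H) ≠ 0 := by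
    by_contra hne
    push Not at hne
    exact hF (MvPolynomial.funext fun x => by rw [hne x, map_zero])
  let g : Polynomial Ω := (aeval ![Polynomial.X, Polynomial.C (x0 1)] (p * H) : Polynomial Ω)
  have hg : ∀ r : Ω, g.eval r = eval ![r, x0 1] (p * H) := by
    intro r
    have h2 : (Polynomial.evalRingHom r).comp
        (aeval ![Polynomial.X, Polynomial.C (x0 1)] :
          MvPolynomial (Fin 2) Ω →ₐ[Ω] Polynomial Ω).toRingHom = eval ![r, x0 1] := by
      apply MvPolynomial.ringHom_ext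
      · intro c
        simp
      · intro i
        fin_cases i <;> simp
    exact RingHom.congr_fun h2 (p * H)
  have hg0 : g ≠ 0 := by
    intro h
    apply hx0
    have := hg (x0 0)
    rw [h, Polynomial.eval_zero] at this
    rw [this]
    congr 2
    funext i
    fin_cases i <;> rfl
  have hpr : ¬ p ∣ pderiv 0 p := by
    rintro ⟨q, hq⟩
    have hne := pderiv_ne_zero p h0
    have hq0 : q ≠ 0 := by
      rintro rfl
      exact hne (by rw [hq, mul_zero])
    have := degreeOf_pderiv_lt p h0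
    rw [hq, degreeOf_mul_eq hp0 hq0] at this
    omega
  have hpg : ¬ p ∣ Polynomial.aeval (X 0 : MvPolynomial (Fin 2) Ω) g := by
    rintro ⟨q, hq⟩
    have hq0 : q ≠ 0 := by
      rintro rfl
      apply hg0
      apply aeval_X_injective 0
      rw [hq, mul_zero, map_zero]
    have := degreeOf_aeval_X 1 0 (by decide) g
    rw [hq, degreeOf_mul_eq hp0 hq0] at this
    omega
  have hnd : ¬ p ∣ H * pderiv 0 p * Polynomial.aeval (X 0 : MvPolynomial (Fin 2) Ω) g := by
    intro hdvd
    rcases hp.dvd_or_dvd hdvd with h2 | h2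
    · rcases hp.dvd_or_dvd h2 with h3 | h3
      · exact hpH h3
      · exact hpr h3
    · exact hpg h2
  obtain ⟨x, hx, hx'⟩ : ∃ x : Fin 2 → Ω, eval x p = 0 ∧
      eval x (H * pderiv 0 p * Polynomial.aeval (X 0 : MvPolynomial (Fin 2) Ω) g) ≠ 0 := by
    by_contra hne
    push Not at hne
    apply hnd
    have hprime : (Ideal.span {p}).IsPrime := (Ideal.span_singleton_prime hp0).mpr hp
    rw [← Ideal.mem_span_singleton, ← IsPrime.vanishingIdeal_zeroLocus (K := Ω) (Ideal.span {p})]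
    rw [mem_vanishingIdeal_iff]
    intro x hx
    rw [mem_zeroLocus_iff] at hx
    have h3 := hx p (Ideal.mem_span_singleton_self p)
    rw [MvPolynomial.aeval_eq_eval] at h3 ⊢
    exact hne x h3
  have hx2 : (![x 0, x 1] : Fin 2 → Ω) = x := by
    funext i
    fin_cases i <;> rfl
  rw [map_mul, map_mul, eval_aeval_X, hg] at hx'
  refine ⟨x 0, x 1, ?_, ?_, x0 1, ?_⟩
  · rw [hx2, map_mul, hx, zero_mul]
  · rw [hx2, Derivation.leibniz, smul_eq_mul, smul_eq_mul, map_add, map_mul, map_mul, hx, zero_mul,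
      zero_add]
    exact left_ne_zero_of_mul hx'
  · exact right_ne_zero_of_mul hx'

end Pool.Agent.Work.Pencil
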