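import Mathlib
import Pool.Agent.Work.MP_b62148_ag.Pencil.PolyM
import Pool.Agent.Work.MP_b62148_ag.Pencil.Final
import Pool.Agent.Work.MP_b62148_ag.Pencil.Tri

/-!
Families of quadratic forms over the plane, expanded along a section `r = ρ(t)`.
-/

namespace Pool.Agent.Work.Pencil

open Matrix MvPolynomial Pool.Agent.Work.D9odd

universe u

section deg

theorem HasWt.natDegree_det {S : Type*} [CommRing S] {M : Matrix (Fin 4) (Fin 4) (Polynomial S)}
    (h : HasWt M) : M.det.natDegree ≤ 4 := by
  obtain ⟨e, -, h2, h3⟩ := h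
  rw [Matrix.det_apply]
  refine Polynomial.natDegree_sum_le_of_forall_le _ _ fun σ _ => ?_
  refine (Polynomial.natDegree_smul_le _ _).trans ?_
  by_cases h0 : ∃ i, M (σ i) i = 0
  · obtain ⟨i, hi⟩ := h0
    have h : (∏ i, M (σ i) i) = 0 := Finset.prod_eq_zero (Finset.mem_univ i) hi
    exact (congrArg Polynomial.natDegree h).trans_le (by simp)
  · push Not at h0
    refine (Polynomial.natDegree_prod_le _ _).trans ?_
    have h4 : ∀ i : Fin 4, 2 * ((M (σ i) i).natDegree : ℤ) ≤ e (σ i) + e i := by
      intro i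
      apply h3
      exact Polynomial.leadingCoeff_ne_zero.mpr (h0 i)
    have h5 : ∑ i, e (σ i) = ∑ i, e i := Equiv.sum_comp σ e
    have h6 : ∑ i, 2 * ((M (σ i) i).natDegree : ℤ) ≤ ∑ i, (e (σ i) + e i) :=
      Finset.sum_le_sum fun i _ => h4 i
    rw [Finset.sum_add_distrib, h5, ← Finset.mul_sum] at h6
    have h7 : ((∑ i, (M (σ i) i).natDegree : ℕ) : ℤ) ≤ 4 := by
      push_cast
      linarith
    exact_mod_cast h7

end deg

section subst

variable {L : Type*} [Field L]

/-- substitution `r ↦ ρ(t) + s` -/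
noncomputable def sb (ρ : Polynomial L) : MvPolynomial (Fin 2) L →ₐ[L] Polynomial (Polynomial L) :=
  aeval ![Polynomial.C ρ + Polynomial.X, Polynomial.C Polynomial.X]

/-- the value at `r = ρ(t)` -/
noncomputable def vl (ρ : Polynomial L) : MvPolynomial (Fin 2) L →ₐ[L] Polynomial L :=
  aeval ![ρ, Polynomial.X]

theorem sb_C (ρ : Polynomial L) (c : L) :
    sb ρ (C c) = Polynomial.C (Polynomial.C c) := by
  rw [sb, aeval_C]
  rfl

theorem sb_X0 (ρ : Polynomial L) : sb ρ (X 0) = Polynomial.C ρ + Polynomial.X := by simp [sb]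

theorem sb_X1 (ρ : Polynomial L) : sb ρ (X 1) = Polynomial.C Polynomial.X := by simp [sb]

theorem vl_C (ρ : Polynomial L) (c : L) : vl ρ (C c) = Polynomial.C c := by
  rw [vl, aeval_C]
  rfl

theorem vl_X0 (ρ : Polynomial L) : vl ρ (X 0) = ρ := by simp [vl]

theorem vl_X1 (ρ : Polynomial L) : vl ρ (X 1) = Polynomial.X := by simp [vl]

theorem sb_eval (ρ : Polynomial L) (F : MvPolynomial (Fin 2) L) (t s : L) :
    (sb ρ F).eval₂ (Polynomial.evalRingHom t) s = eval ![ρ.eval t + s, t] F := by
  have h : (Polynomial.eval₂RingHom (Polynomial.evalRingHom t) s).comp (sb ρ).toRingHom =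
      eval ![ρ.eval t + s, t] := by
    apply MvPolynomial.ringHom_ext
    · intro c
      show Polynomial.eval₂ _ s (sb ρ (C c)) = eval _ (C c)
      rw [sb_C, Polynomial.eval₂_C, Polynomial.coe_evalRingHom, Polynomial.eval_C, eval_C]
    · intro i
      show Polynomial.eval₂ _ s (sb ρ (X i)) = eval _ (X i)
      fin_cases i
      · simp only [Fin.zero_eta]
        rw [sb_X0, Polynomial.eval₂_add, Polynomial.eval₂_C, Polynomial.eval₂_X, eval_X]
        rfl
      · simp only [Fin.mk_one]
        rw [sb_X1, Polynomial.eval₂_C, eval_X]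
        simp
  exact RingHom.congr_fun h F

theorem vl_eval (ρ : Polynomial L) (F : MvPolynomial (Fin 2) L) (t : L) :
    (vl ρ F).eval t = eval ![ρ.eval t, t] F := by
  have h : (Polynomial.evalRingHom t).comp (vl ρ).toRingHom = eval ![ρ.eval t, t] := by
    apply MvPolynomial.ringHom_ext
    · intro c
      show Polynomial.eval t (vl ρ (C c)) = eval _ (C c)
      rw [vl_C, Polynomial.eval_C, eval_C]
    · intro i
      show Polynomial.eval t (vl ρ (X i)) = eval _ (X i)
      fin_cases i
      · simp only [Fin.zero_eta]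
        rw [vl_X0, eval_X]
        rfl
      · simp only [Fin.mk_one]
        rw [vl_X1, eval_X, Polynomial.eval_X]
        rfl
  exact RingHom.congr_fun h F

theorem sb_coeff_zero (ρ : Polynomial L) (F : MvPolynomial (Fin 2) L) :
    (sb ρ F).coeff 0 = vl ρ F := by
  have h : (Polynomial.constantCoeff : Polynomial (Polynomial L) →+* Polynomial L).comp
      (sb ρ).toRingHom = (vl ρ).toRingHom := by
    apply MvPolynomial.ringHom_ext
    · intro c
      show (sb ρ (C c)).coeff 0 = vl ρ (C c)
      rw [sb_C, vl_C, Polynomial.coeff_C_zero]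
    · intro i
      show (sb ρ (X i)).coeff 0 = vl ρ (X i)
      fin_cases i
      · simp only [Fin.zero_eta]
        rw [sb_X0, vl_X0]
        simp
      · simp only [Fin.mk_one]
        rw [sb_X1, vl_X1, Polynomial.coeff_C_zero]
  exact RingHom.congr_fun h F

theorem derivative_sb (ρ : Polynomial L) (F : MvPolynomial (Fin 2) L) :
    Polynomial.derivative (sb ρ F) = sb ρ (pderiv 0 F) := by
  induction F using MvPolynomial.induction_on with
  | C a => rw [pderiv_C, map_zero, sb_C, Polynomial.derivative_C]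
  | add p q hp hq => simp only [map_add, hp, hq]
  | mul_X p i hp =>
    rw [map_mul, Polynomial.derivative_mul, hp, (pderiv 0).leibniz, map_add, smul_eq_mul,
      smul_eq_mul, map_mul, map_mul]
    fin_cases i
    · have h2 : (pderiv 0) (X 0 : MvPolynomial (Fin 2) L) = 1 := pderiv_X_self 0
      simp only [Fin.zero_eta, sb_X0, h2, map_one]
      simp
      ring
    · have h2 : (pderiv 0) (X 1 : MvPolynomial (Fin 2) L) = 0 := by
        rw [pderiv_X_of_ne]
        decide
      simp only [Fin.mk_one, sb_X1, h2, map_zero]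
      simp
      ring

theorem sb_coeff_one (ρ : Polynomial L) (F : MvPolynomial (Fin 2) L) :
    (sb ρ F).coeff 1 = vl ρ (pderiv 0 F) := by
  rw [← sb_coeff_zero, ← derivative_sb, Polynomial.coeff_derivative]
  simp

/-- back substitution -/
noncomputable def usb (ρ : Polynomial L) : Polynomial (Polynomial L) →+* MvPolynomial (Fin 2) L :=
  Polynomial.eval₂RingHom
    (Polynomial.aeval (X 1) : Polynomial L →ₐ[L] MvPolynomial (Fin 2) L).toRingHom
    (X 0 - Polynomial.aeval (X 1) ρ)

theorem usb_sb (ρ : Polynomial L) (F : MvPolynomial (Fin 2) L) : usb ρ (sb ρ F) = F := by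
  have hC : ∀ p : Polynomial L, usb ρ (Polynomial.C p) = Polynomial.aeval (X 1) p := by
    intro p
    simp [usb]
  have h : (usb ρ).comp (sb ρ).toRingHom = RingHom.id _ := by
    apply MvPolynomial.ringHom_ext
    · intro c
      show usb ρ (sb ρ (C c)) = C c
      rw [sb_C, hC, Polynomial.aeval_C]
      rfl
    · intro i
      show usb ρ (sb ρ (X i)) = X i
      fin_cases i
      · simp only [Fin.zero_eta]
        rw [sb_X0, map_add, hC]
        simp [usb]
      · simp only [Fin.mk_one]
        rw [sb_X1, hC, Polynomial.aeval_X]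
  exact RingHom.congr_fun h F

theorem sb_injective (ρ : Polynomial L) : Function.Injective (sb ρ) := by
  intro F G h
  rw [← usb_sb ρ F, ← usb_sb ρ G, h]

theorem sb_natDegree (ρ : Polynomial L) (G : MvPolynomial (Fin 2) L) :
    (sb ρ G).natDegree ≤ degreeOf 0 G := by
  unfold sb
  rw [MvPolynomial.aeval_def, MvPolynomial.eval₂_eq']
  refine Polynomial.natDegree_sum_le_of_forall_le _ _ fun d hd => ?_
  have h1 : (algebraMap L (Polynomial (Polynomial L))) (coeff d G) =
      Polynomial.C (Polynomial.C (coeff d G)) := rfl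
  rw [h1, Fin.prod_univ_two]
  refine (Polynomial.natDegree_C_mul_le _ _).trans ?_
  refine (Polynomial.natDegree_mul_le).trans ?_
  have h2 : ((![Polynomial.C ρ + Polynomial.X, Polynomial.C Polynomial.X] :
      Fin 2 → Polynomial (Polynomial L)) 0 ^ d 0).natDegree ≤ d 0 := by
    refine (Polynomial.natDegree_pow_le).trans ?_
    have : (Polynomial.C ρ + Polynomial.X : Polynomial (Polynomial L)).natDegree ≤ 1 := by
      rw [add_comm, Polynomial.natDegree_X_add_C]
    exact (Nat.mul_le_mul_left (d 0) this).trans (by simp)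
  have h3 : ((![Polynomial.C ρ + Polynomial.X, Polynomial.C Polynomial.X] :
      Fin 2 → Polynomial (Polynomial L)) 1 ^ d 1).natDegree = 0 := by
    have : (![Polynomial.C ρ + Polynomial.X, Polynomial.C Polynomial.X] :
      Fin 2 → Polynomial (Polynomial L)) 1 = Polynomial.C Polynomial.X := rfl
    rw [this, ← Polynomial.C_pow, Polynomial.natDegree_C]
  have h4 := MvPolynomial.monomial_le_degreeOf 0 hd
  omega

theorem sb_map {L' : Type*} [Field L'] (f : L →+* L') (ρ : Polynomial L)
    (F : MvPolynomial (Fin 2) L) :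
    (sb ρ F).map (Polynomial.mapRingHom f) = sb (ρ.map f) (MvPolynomial.map f F) := by
  have h : (Polynomial.mapRingHom (Polynomial.mapRingHom f)).comp (sb ρ).toRingHom =
      (sb (ρ.map f)).toRingHom.comp (MvPolynomial.map f) := by
    apply MvPolynomial.ringHom_ext
    · intro c
      show Polynomial.map (Polynomial.mapRingHom f) (sb ρ (C c)) =
        sb (ρ.map f) (MvPolynomial.map f (C c))
      rw [sb_C, map_C, sb_C, Polynomial.map_C, Polynomial.coe_mapRingHom, Polynomial.map_C]
    · intro i
      show Polynomial.map (Polynomial.mapRingHom f) (sb ρ (X i)) =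
        sb (ρ.map f) (MvPolynomial.map f (X i))
      rw [map_X]
      fin_cases i
      · simp only [Fin.zero_eta]
        rw [sb_X0, sb_X0]
        simp
      · simp only [Fin.mk_one]
        rw [sb_X1, sb_X1]
        simp
  exact RingHom.congr_fun h F

theorem vl_map {L' : Type*} [Field L'] (f : L →+* L') (ρ : Polynomial L)
    (F : MvPolynomial (Fin 2) L) :
    (vl ρ F).map f = vl (ρ.map f) (MvPolynomial.map f F) := by
  rw [← sb_coeff_zero, ← sb_coeff_zero, ← sb_map, Polynomial.coeff_map]
  rfl

end subst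

section weights

/-- the weights of a matrix of polynomials in two variables, for the first variable -/
def WtR {k : Type*} [CommRing k] (M : Matrix (Fin 4) (Fin 4) (MvPolynomial (Fin 2) k)) : Prop :=
  ∃ e : Fin 4 → ℤ, (∀ i j, Even (e i + e j)) ∧ ∑ i, e i ≤ 4 ∧
    ∀ i j, ∀ d ∈ (M i j).support, 2 * (d 0 : ℤ) ≤ e i + e j

theorem WtR.map {k A : Type*} [CommRing k] [CommRing A]
    {M : Matrix (Fin 4) (Fin 4) (MvPolynomial (Fin 2) k)} (h : WtR M) (f : k →+* A) :
    WtR (M.map (MvPolynomial.map f)) := by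
  obtain ⟨e, h1, h2, h3⟩ := h
  exact ⟨e, h1, h2, fun i j d hd => h3 i j d (MvPolynomial.support_map_subset _ _ hd)⟩

theorem two_degreeOf_le {k : Type*} [CommRing k] (F : MvPolynomial (Fin 2) k) (m : ℤ)
    (h : ∀ d ∈ F.support, 2 * (d 0 : ℤ) ≤ m) (hF : F ≠ 0) : 2 * (degreeOf 0 F : ℤ) ≤ m := by
  obtain ⟨d, hd, hd'⟩ : ∃ d ∈ F.support, degreeOf 0 F = d 0 := by
    rw [MvPolynomial.degreeOf_eq_sup]
    exact Finset.exists_mem_eq_sup _ (MvPolynomial.support_nonempty.mpr hF) _
  rw [hd']
  exact h d hd

theorem WtR.sb {L : Type*} [Field L] {M : Matrix (Fin 4) (Fin 4) (MvPolynomial (Fin 2) L)}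
    (h : WtR M) (ρ : Polynomial L) : HasWt (M.map (Pencil.sb ρ)) := by
  obtain ⟨e, h1, h2, h3⟩ := h
  refine ⟨e, h1, h2, fun i j n hn => ?_⟩
  have hF : M i j ≠ 0 := by
    intro h0
    apply hn
    rw [Matrix.map_apply, h0, map_zero, Polynomial.coeff_zero]
  have h4 := two_degreeOf_le (M i j) (e i + e j) (h3 i j) hF
  have h5 : n ≤ degreeOf 0 (M i j) := by
    refine (Polynomial.le_natDegree_of_ne_zero hn).trans ?_
    exact sb_natDegree ρ (M i j)
  omega

theorem WtR.degreeOf_det {L : Type*} [Field L]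
    {M : Matrix (Fin 4) (Fin 4) (MvPolynomial (Fin 2) L)} (h : WtR M) :
    degreeOf 0 M.det ≤ 4 := by
  obtain ⟨e, h1, h2, h3⟩ := h
  let f := finSuccEquiv L 1
  have hw : HasWt (M.map f) := by
    refine ⟨e, h1, h2, fun i j n hn => ?_⟩
    have hF : M i j ≠ 0 := by
      intro h0
      apply hn
      rw [Matrix.map_apply, h0, map_zero, Polynomial.coeff_zero]
    have h4 := two_degreeOf_le (M i j) (e i + e j) (h3 i j) hF
    have h5 : n ≤ degreeOf 0 (M i j) := by
      rw [← MvPolynomial.natDegree_finSuccEquiv]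
      exact Polynomial.le_natDegree_of_ne_zero hn
    omega
  have h4 := hw.natDegree_det
  have h5 : (M.map f).det = f M.det := (AlgEquiv.map_det f M).symm
  rw [h5, MvPolynomial.natDegree_finSuccEquiv] at h4
  exact h4

end weights

section core

variable {L : Type u} [Field L] [CharZero L]

theorem poly_dense (B : Polynomial L) (hB : B ≠ 0) (hinf : {t : L | IsSquare (B.eval t)}.Infinite)
    (a b : Polynomial L) (hab : ∀ t z : L, z ^ 2 = B.eval t → a.eval t + z * b.eval t = 0) :
    a = 0 ∧ b = 0 := by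
  have h2 : (2 : L) ≠ 0 := two_ne_zero
  have h1 : ∀ t ∈ {t : L | IsSquare (B.eval t)}, a.eval t = 0 ∧ (B * b ^ 2).eval t = 0 := by
    rintro t ⟨z, hz⟩
    have e1 := hab t z (by rw [hz]; ring)
    have e2 := hab t (-z) (by rw [hz]; ring)
    constructor
    · have : 2 * a.eval t = 0 := by linear_combination e1 + e2
      exact (mul_eq_zero.mp this).resolve_left h2
    · have h3 : z * b.eval t = 0 := by
        have : 2 * (z * b.eval t) = 0 := by linear_combination e1 - e2
        exact (mul_eq_zero.mp this).resolve_left h2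
      rw [Polynomial.eval_mul, Polynomial.eval_pow, hz]
      linear_combination (z * b.eval t) * h3
  have ha : a = 0 := Polynomial.eq_zero_of_infinite_isRoot _ (hinf.mono fun t ht => (h1 t ht).1)
  have hb : B * b ^ 2 = 0 := Polynomial.eq_zero_of_infinite_isRoot _
    (hinf.mono fun t ht => (h1 t ht).2)
  exact ⟨ha, pow_eq_zero_iff two_ne_zero |>.mp ((mul_eq_zero.mp hb).resolve_left hB)⟩

/-- the conditions on the section `r = ρ(t)` over the field `L` -/
def GoodR (M : Matrix (Fin 4) (Fin 4) (MvPolynomial (Fin 2) L)) (ρ : Polynomial L) : Prop :=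
  (∃ a : Fin 4 → Polynomial L, a ≠ 0 ∧ bf (M.map (vl ρ)) a a = 0) ∧
    {t : L | IsSquare ((vl ρ M.det).eval t)}.Infinite

/-- the points where the form vanishes on a plane are dense -/
def PlaneDense {L : Type*} [Field L] (M : Matrix (Fin 4) (Fin 4) (MvPolynomial (Fin 2) L)) :
    Prop :=
  ∀ g : MvPolynomial (Fin 2) L, (∀ x : Fin 2 → L, IsoPlane (M.map (eval x)) → eval x g = 0) →
    g = 0

/-- **Density over one field.** -/
theorem planes_core (M : Matrix (Fin 4) (Fin 4) (MvPolynomial (Fin 2) L)) (hM : Mᵀ = M)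
    (hw : WtR M) (ρ : Polynomial L) (hB : vl ρ M.det ≠ 0) (hK : CovCond (sb ρ M.det))
    (hG : GoodR M ρ) : PlaneDense M := by
  obtain ⟨⟨a, ha, haa⟩, hinf⟩ := hG
  intro g hg
  have hdet : (M.map (sb ρ)).det = sb ρ M.det := (AlgHom.map_det (sb ρ) M).symm
  have hc0 : (M.map (sb ρ)).map (fun p => p.coeff 0) = M.map (vl ρ) := by
    refine Matrix.ext fun i j => ?_
    exact sb_coeff_zero ρ (M i j)
  apply sb_injective ρ
  rw [map_zero]
  refine dense_wt (k := L) {p | ∃ t : L, p = Polynomial.evalRingHom t} (M.map (sb ρ))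
    (by rw [← Matrix.transpose_map, hM]) (hw.sb ρ) a ha (by rw [hc0]; exact haa)
    (by rw [hdet, sb_coeff_zero]; exact hB) (by rw [hdet]; exact hK) ?_ _ ?_
  · intro c d hcd
    refine poly_dense _ hB hinf c d fun t z hz => ?_
    refine hcd (Polynomial.evalRingHom t) ⟨t, rfl⟩ z ?_
    rw [hdet, sb_coeff_zero]
    exact hz
  · rintro p ⟨t, rfl⟩ r hr
    rw [Polynomial.eval_map, sb_eval]
    apply hg
    have e : spm (M.map (sb ρ)) (Polynomial.evalRingHom t) r =
        M.map (eval ![ρ.eval t + r, t]) := by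
      refine Matrix.ext fun i j => ?_
      exact sb_eval ρ (M i j) t r
    rw [e] at hr
    exact hr

end core

section fam

variable {L : Type*} [Field L] [CharZero L]

/-- the family with additional parameters -/
noncomputable def exM (σ : Type*) (M : Matrix (Fin 4) (Fin 4) (MvPolynomial (Fin 2) L)) :
    Matrix (Fin 4) (Fin 4) (MvPolynomial (Fin 2 ⊕ σ) L) := M.map (rename Sum.inl)

omit [CharZero L] in
theorem exM_map {σ : Type*} {Ω : Type*} [Field Ω] [Algebra L Ω]
    (M : Matrix (Fin 4) (Fin 4) (MvPolynomial (Fin 2) L)) (y : Fin 2 ⊕ σ → Ω) :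
    (exM σ M).map (aeval y) = M.map (aeval (fun i => y (Sum.inl i))) := by
  refine Matrix.ext fun i j => ?_
  show aeval y (rename Sum.inl (M i j)) = aeval (fun i => y (Sum.inl i)) (M i j)
  rw [aeval_rename]
  rfl

omit [CharZero L] in
theorem exM_eval {σ : Type*} (M : Matrix (Fin 4) (Fin 4) (MvPolynomial (Fin 2) L))
    (y : Fin 2 ⊕ σ → L) :
    (exM σ M).map (eval y) = M.map (eval (fun i => y (Sum.inl i))) := by
  refine Matrix.ext fun i j => ?_
  show eval y (rename Sum.inl (M i j)) = eval (fun i => y (Sum.inl i)) (M i j)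
  rw [eval_rename]
  rfl

omit [CharZero L] in
theorem exM_symm {σ : Type*} {M : Matrix (Fin 4) (Fin 4) (MvPolynomial (Fin 2) L)} (h : Mᵀ = M) :
    (exM σ M)ᵀ = exM σ M := by
  unfold exM
  rw [← Matrix.transpose_map, h]

/-- **Sections with additional parameters.** -/
theorem sec_of_planes {σ : Type*} {Ω : Type*} [Field Ω] [Algebra L Ω]
    (M : Matrix (Fin 4) (Fin 4) (MvPolynomial (Fin 2) L)) (hM : Mᵀ = M) (hP : PlaneDense M)
    (l : Fin 4 → MvPolynomial (Fin 2 ⊕ σ) L) (hb : (bord (exM σ M) l).det ≠ 0) :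
    SecDense L Ω (exM σ M) l := by
  intro G hG x A hA hlA hl hsec
  refine dense_sec (exM σ M) (exM_symm hM)
    {y | IsoPlane (M.map (eval (fun i => y (Sum.inl i))))} ?_ ?_ l hb G
    (fun x _ A hA0 hA hlA => hG x A hA0 hA hlA) x A hA hlA hl hsec
  · intro g hg
    apply MvPolynomial.funext
    intro y
    rw [map_zero]
    let θ : MvPolynomial (Fin 2 ⊕ σ) L →ₐ[L] MvPolynomial (Fin 2) L :=
      aeval (Sum.elim X (fun j => C (y (Sum.inr j))))
    have hθ : ∀ (z : Fin 2 → L) (q : MvPolynomial (Fin 2 ⊕ σ) L),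
        eval z (θ q) = eval (Sum.elim z (fun j => y (Sum.inr j))) q := by
      intro z q
      have h : (eval z).comp θ.toRingHom = eval (Sum.elim z (fun j => y (Sum.inr j))) := by
        apply MvPolynomial.ringHom_ext
        · intro c
          simp [θ]
        · intro i
          rcases i with i | i <;> simp [θ]
      exact RingHom.congr_fun h q
    have h0 : θ g = 0 := by
      apply hP
      intro z hz
      rw [hθ]
      apply hg
      show IsoPlane _
      simpa using hz
    have h1 := hθ (fun i => y (Sum.inl i)) g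
    rw [h0, map_zero] at h1
    have h2 : Sum.elim (fun i => y (Sum.inl i)) (fun j => y (Sum.inr j)) = y := by
      funext i
      rcases i with i | i <;> rfl
    rw [h2] at h1
    exact h1.symm
  · intro y hy
    rw [exM_eval]
    exact hy

end fam

end Pool.Agent.Work.Pencil
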