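import Mathlib

/-!
A conic with a point has infinitely many points.
-/

namespace Pool.Agent.Work.Pencil

section conic

open Polynomial

/-- A conic with a point has infinitely many points. -/
theorem conic_inf {K : Type*} [Field K] [CharZero K] (g : K[X]) (hg : g.natDegree ≤ 2) (y : K)
    (hy : y ≠ 0) (hgy : g.eval 0 = y ^ 2) : {s : K | IsSquare (g.eval s)}.Infinite := by
  classical
  set g1 := g.coeff 1 with hg1
  set g2 := g.coeff 2 with hg2
  have hev : ∀ s, g.eval s = y ^ 2 + g1 * s + g2 * s ^ 2 := by
    intro s
    rw [← hgy, Polynomial.eval_eq_sum_range' (Nat.lt_succ_of_le hg),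
      ← Polynomial.coeff_zero_eq_eval_zero]
    simp [Finset.sum_range_succ, hg1, hg2]
  intro hfin
  let Q : K[X] := (C g2 - X ^ 2) * ∏ s ∈ hfin.toFinset, (C s * X ^ 2 + C (2 * y) * X -
    C (g1 + s * g2))
  have hQ : Q ≠ 0 := by
    refine mul_ne_zero ?_ (Finset.prod_ne_zero_iff.mpr fun s _ => ?_)
    · intro h
      have := congrArg (fun p => Polynomial.coeff p 2) h
      simp at this
    · intro h
      have := congrArg (fun p => Polynomial.coeff p 1) h
      simp [coeff_C, coeff_X_pow] at this
      exact hy this
  apply hQ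
  apply Polynomial.eq_zero_of_infinite_isRoot
  have : {x | Q.IsRoot x} = Set.univ := by
    rw [Set.eq_univ_iff_forall]
    intro m
    show Q.eval m = 0
    by_cases hm : g2 - m ^ 2 = 0
    · simp [Q, Polynomial.eval_mul, hm]
    · set s : K := (2 * y * m - g1) / (g2 - m ^ 2) with hs
      have hs2 : s * (g2 - m ^ 2) = 2 * y * m - g1 := by
        rw [hs]; field_simp
      have hmem : s ∈ hfin.toFinset := by
        rw [Set.Finite.mem_toFinset]
        refine ⟨y + m * s, ?_⟩
        rw [hev]
        linear_combination s * hs2
      have hz : (C s * X ^ 2 + C (2 * y) * X - C (g1 + s * g2) : K[X]).eval m = 0 := by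
        simp only [eval_sub, eval_add, eval_mul, eval_C, eval_pow, eval_X]
        linear_combination -hs2
      rw [Polynomial.eval_mul, Polynomial.eval_prod, Finset.prod_eq_zero hmem hz, mul_zero]
  rw [this]
  exact Set.infinite_univ

end conic

end Pool.Agent.Work.Pencil
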