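import Mathlib
import Pool.Agent.Work.MP_b62148_ag.Pencil.Base
import Pool.Agent.Work.MP_b62148_ag.Pencil.ConicInf

/-!
The condition on the function field, and the good extensions.
-/

namespace Pool.Agent.Work.Pencil

open Matrix Pool.Agent.Work.D9odd

universe u

section cond

open Polynomial

/-- a factorisation with a factor of degree at most two -/
theorem covCond_two {S : Type u} [CommRing S] [IsDomain S] [UniqueFactorizationMonoid S]
    [CharZero S] (D G p : S[X]) (hP : D = G * p ^ 2) (hG : G.natDegree ≤ 2)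
    (hB : D.coeff 0 ≠ 0) : CovCond D := by
  apply covCond_of_field
  intro K _ ψ z hψ hz
  have hcK : CharZero K := charZero_of_injective_ringHom hψ
  have hz0 : z ≠ 0 := by
    rintro rfl
    apply hB
    apply hψ
    rw [map_zero, ← hz]; simp
  have hev : ∀ s : K, D.eval₂ ψ s = (G.map ψ).eval s * ((p.map ψ).eval s) ^ 2 := by
    intro s
    rw [hP, Polynomial.eval₂_mul, Polynomial.eval₂_pow, Polynomial.eval_map, Polynomial.eval_map]
  have h0 : (G.map ψ).eval 0 * ((p.map ψ).eval 0) ^ 2 = z ^ 2 := by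
    rw [← hev, Polynomial.eval₂_at_zero, hz]
  have hp0 : (p.map ψ).eval 0 ≠ 0 := by
    intro h
    rw [h] at h0
    apply pow_ne_zero 2 hz0
    rw [← h0]; ring
  refine (conic_inf (G.map ψ) ((Polynomial.natDegree_map_le).trans hG) (z / (p.map ψ).eval 0)
    (div_ne_zero hz0 hp0) (by rw [div_pow, ← h0]; field_simp)).mono ?_
  rintro s ⟨y, hy⟩
  refine ⟨y * (p.map ψ).eval s, ?_⟩
  rw [hev, hy]
  ring

/-- separated variables -/
theorem covCond_three {L : Type u} [Field L] [CharZero L] (D : L[X][X]) (a v : L[X])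
    (hP : D = C a * v.map C) (hB : D.coeff 0 ≠ 0)
    (hv : {s : L | IsSquare (v.eval 0 * v.eval s)}.Infinite) : CovCond D := by
  apply covCond_of_field
  intro K _ ψ z hψ hz
  have hz0 : z ≠ 0 := by
    rintro rfl
    apply hB
    apply hψ
    rw [map_zero, ← hz]; simp
  have hev : ∀ s : L, D.eval₂ ψ (ψ (C s)) = ψ a * ψ (C (v.eval s)) := by
    intro s
    rw [hP, Polynomial.eval₂_mul, Polynomial.eval₂_C, Polynomial.eval₂_map]
    congr 1
    have h1 := Polynomial.hom_eval₂ v (RingHom.id L) (ψ.comp C) s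
    rw [RingHom.comp_id] at h1
    exact h1.symm
  have h0 : ψ a * ψ (C (v.eval 0)) = z ^ 2 := by
    rw [← hev 0, map_zero, map_zero, Polynomial.eval₂_at_zero, hz]
  have hv0 : ψ (C (v.eval 0)) ≠ 0 := by
    intro h
    rw [h, mul_zero] at h0
    exact pow_ne_zero 2 hz0 h0.symm
  have hinj : Function.Injective fun s : L => ψ (C s) := hψ.comp Polynomial.C_injective
  refine (hv.image hinj.injOn).mono ?_
  rintro _ ⟨s, ⟨y, hy⟩, rfl⟩
  refine ⟨z * ψ (C y) / ψ (C (v.eval 0)), ?_⟩
  show D.eval₂ ψ (ψ (C s)) = _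
  rw [hev]
  have h1 : ψ (C (v.eval 0)) * ψ (C (v.eval s)) = ψ (C y) * ψ (C y) := by
    rw [← map_mul, ← map_mul, hy, map_mul, map_mul]
  have h2 : ψ a = z ^ 2 / ψ (C (v.eval 0)) := by
    rw [← h0]; field_simp
  rw [h2]
  field_simp
  linear_combination h1

end cond

open MvPolynomial

section point

variable {L : Type u} [Field L] {Ω : Type*} [Field Ω] [Algebra L Ω]

theorem aeval_vl (ρ : Polynomial L) (F : MvPolynomial (Fin 2) L) (t : Ω) :
    Polynomial.aeval t (vl ρ F) = aeval ![Polynomial.aeval t ρ, t] F := by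
  have e1 : Polynomial.aeval t (vl ρ F) = ((vl ρ F).map (algebraMap L Ω)).eval t := by
    rw [Polynomial.eval_map]; rfl
  have e2 : Polynomial.aeval t ρ = (ρ.map (algebraMap L Ω)).eval t := by
    rw [Polynomial.eval_map]; rfl
  rw [e1, e2, vl_map, vl_eval, MvPolynomial.eval_map]
  rfl

/-- the condition, from a point where the two sections meet -/
theorem covCond_point [CharZero Ω] (M : Matrix (Fin 4) (Fin 4) (MvPolynomial (Fin 2) L))
    (hw : WtR M) (ρ : Polynomial L) (t : Ω) (hB : vl ρ M.det ≠ 0)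
    (h0 : aeval ![Polynomial.aeval t ρ, t] M.det = 0)
    (h1 : aeval ![Polynomial.aeval t ρ, t] (pderiv 0 M.det) ≠ 0) : CovCond (sb ρ M.det) := by
  have hdet : (M.map (sb ρ)).det = sb ρ M.det := (AlgHom.map_det (sb ρ) M).symm
  refine covCond_collision (Ω := Ω) (sb ρ M.det) (by rw [← hdet]; exact (hw.sb ρ).natDegree_det)
    (by rw [sb_coeff_zero]; exact hB) (Polynomial.aeval t : Polynomial L →ₐ[L] Ω).toRingHom ?_ ?_
  · show Polynomial.aeval t ((sb ρ M.det).coeff 0) = 0
    rw [sb_coeff_zero, aeval_vl]; exact h0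
  · show Polynomial.aeval t ((sb ρ M.det).coeff 1) ≠ 0
    rw [sb_coeff_one, aeval_vl]; exact h1

end point

section ext

/-- base change of a matrix -/
noncomputable def bM (L : Type*) [Field L] {k : Type*} [Field k] [Algebra k L]
    (M : Matrix (Fin 4) (Fin 4) (MvPolynomial (Fin 2) k)) :
    Matrix (Fin 4) (Fin 4) (MvPolynomial (Fin 2) L) :=
  M.map (MvPolynomial.map (algebraMap k L))

variable {k : Type*} [Field k]

theorem bM_det (L : Type*) [Field L] [Algebra k L]
    (M : Matrix (Fin 4) (Fin 4) (MvPolynomial (Fin 2) k)) :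
    (bM L M).det = MvPolynomial.map (algebraMap k L) M.det :=
  (RingHom.map_det (MvPolynomial.map (algebraMap k L)) M).symm

theorem bM_symm (L : Type*) [Field L] [Algebra k L]
    {M : Matrix (Fin 4) (Fin 4) (MvPolynomial (Fin 2) k)} (h : Mᵀ = M) : (bM L M)ᵀ = bM L M := by
  unfold bM
  rw [← Matrix.transpose_map, h]

theorem bM_bM (L L' : Type*) [Field L] [Field L'] [Algebra k L] [Algebra k L'] [Algebra L L']
    [IsScalarTower k L L'] (M : Matrix (Fin 4) (Fin 4) (MvPolynomial (Fin 2) k)) :
    bM L' (bM L M) = bM L' M := by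
  refine Matrix.ext fun i j => ?_
  simp only [bM, Matrix.map_apply]
  rw [MvPolynomial.map_map, ← IsScalarTower.algebraMap_eq]

theorem goodR_mono {L L' : Type*} [Field L] [Field L'] [Algebra k L] [Algebra k L'] [Algebra L L']
    [IsScalarTower k L L'] (M : Matrix (Fin 4) (Fin 4) (MvPolynomial (Fin 2) k))
    (ρ : Polynomial L) (h : GoodR (bM L M) ρ) :
    GoodR (bM L' M) (ρ.map (algebraMap L L')) := by
  obtain ⟨⟨a, ha, haa⟩, hinf⟩ := h
  have hmap : (bM L' M).map (vl (ρ.map (algebraMap L L'))) =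
      ((bM L M).map (vl ρ)).map (Polynomial.mapRingHom (algebraMap L L')) := by
    rw [← bM_bM L L' M]
    refine Matrix.ext fun i j => ?_
    exact (vl_map (algebraMap L L') ρ (bM L M i j)).symm
  refine ⟨⟨fun i => (a i).map (algebraMap L L'), ?_, ?_⟩, ?_⟩
  · intro h
    apply ha
    funext i
    apply Polynomial.map_injective _ (algebraMap L L').injective
    rw [Pi.zero_apply, Polynomial.map_zero]
    exact congrFun h i
  · have h3 := map_bf (Polynomial.mapRingHom (algebraMap L L')) ((bM L M).map (vl ρ)) a a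
    rw [haa, map_zero] at h3
    rw [hmap]
    exact h3.symm
  · refine (hinf.image (algebraMap L L').injective.injOn).mono ?_
    rintro _ ⟨t, ⟨w, hw⟩, rfl⟩
    refine ⟨algebraMap L L' w, ?_⟩
    have e : vl (ρ.map (algebraMap L L')) (bM L' M).det =
        (vl ρ (bM L M).det).map (algebraMap L L') := by
      rw [vl_map, ← bM_bM L L' M, bM_det L' (bM L M)]
    rw [e, Polynomial.eval_map, ← map_mul, ← hw, Polynomial.eval₂_hom]

variable [CharZero k] {Ω : Type*} [Field Ω] [IsAlgClosed Ω] [Algebra k Ω]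
  [Algebra.IsAlgebraic k Ω]

/-- a good finite extension for a section -/
theorem exists_goodR (M : Matrix (Fin 4) (Fin 4) (MvPolynomial (Fin 2) k)) (ρ : Polynomial Ω)
    (hB : vl ρ (bM Ω M).det ≠ 0) (g B1 : Polynomial Ω)
    (hgB : vl ρ (bM Ω M).det = g ^ 2 * B1) (hdeg : B1.natDegree ≤ 4) :
    ∃ L : IntermediateField k Ω, FiniteDimensional k L ∧ ∃ ρ' : Polynomial L,
      ρ'.map (algebraMap L Ω) = ρ ∧ GoodR (bM L M) ρ' := by
  classical
  -- the field of definition of the factorisation
  let W : Finset Ω := (Finset.range (ρ.natDegree + 1)).image ρ.coeff ∪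
    ((Finset.range (g.natDegree + 1)).image g.coeff ∪
    (Finset.range (B1.natDegree + 1)).image B1.coeff)
  let K : IntermediateField k Ω := IntermediateField.adjoin k (W : Set Ω)
  have hK : FiniteDimensional k K := by
    apply IntermediateField.finiteDimensional_adjoin
    intro a _
    exact Algebra.IsIntegral.isIntegral a
  have hWK : ∀ w ∈ W, w ∈ K := fun w hw => IntermediateField.subset_adjoin k _ hw
  have hco : ∀ (p : Polynomial Ω), (∀ i ∈ Finset.range (p.natDegree + 1), p.coeff i ∈ K) →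
      ∀ i, p.coeff i ∈ K := by
    intro p hp i
    by_cases hi : i ≤ p.natDegree
    · exact hp i (Finset.mem_range.mpr (Nat.lt_succ_of_le hi))
    · rw [Polynomial.coeff_eq_zero_of_natDegree_lt (by omega)]
      exact K.zero_mem
  obtain ⟨ρ', hρ'⟩ := lift_pol K ρ (hco ρ fun i hi => hWK _ (by
    apply Finset.mem_union_left
    exact Finset.mem_image_of_mem _ hi))
  obtain ⟨g', hg'⟩ := lift_pol K g (hco g fun i hi => hWK _ (by
    apply Finset.mem_union_right
    apply Finset.mem_union_left
    exact Finset.mem_image_of_mem _ hi))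
  obtain ⟨B1', hB1'⟩ := lift_pol K B1 (hco B1 fun i hi => hWK _ (by
    apply Finset.mem_union_right
    apply Finset.mem_union_right
    exact Finset.mem_image_of_mem _ hi))
  have hinj : Function.Injective (Polynomial.map (algebraMap K Ω)) :=
    Polynomial.map_injective _ (algebraMap K Ω).injective
  let N : Matrix (Fin 4) (Fin 4) (Polynomial K) := (bM K M).map (vl ρ')
  have hNd : N.det = vl ρ' (bM K M).det := (AlgHom.map_det (vl ρ') (bM K M)).symm
  have hdet : N.det.map (algebraMap K Ω) = vl ρ (bM Ω M).det := by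
    rw [hNd, vl_map, hρ', ← bM_bM K Ω M, bM_det Ω (bM K M)]
  have h1 : N.det ≠ 0 := by
    intro h
    apply hB
    rw [← hdet, h, Polynomial.map_zero]
  have h2 : N.det = g' ^ 2 * B1' := by
    apply hinj
    rw [hdet, hgB, Polynomial.map_mul, Polynomial.map_pow, hg', hB1']
  have h3 : B1'.natDegree ≤ 4 := by
    rw [← hB1', Polynomial.natDegree_map] at hdeg
    exact hdeg
  have halg : Algebra.IsAlgebraic K Ω := Algebra.IsAlgebraic.tower_top (K := k) K
  obtain ⟨L', hL', ⟨a, ha, haa⟩, hinf⟩ := exists_good (Ω := Ω) N h1 g' B1' h2 h3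
  have hfd : FiniteDimensional k L' := FiniteDimensional.trans k K L'
  let ρ'' : Polynomial L' := ρ'.map (algebraMap K L')
  have hmap : (bM L' M).map (vl ρ'') = N.map (Polynomial.map (algebraMap K L')) := by
    rw [← bM_bM K L' M]
    refine Matrix.ext fun i j => ?_
    exact (vl_map (algebraMap K L') ρ' (bM K M i j)).symm
  have hgood : GoodR (bM L' M) ρ'' := by
    refine ⟨⟨a, ha, ?_⟩, ?_⟩
    · rw [hmap]
      exact haa
    · have h5 : ∀ t : L', (vl ρ'' (bM L' M).det).eval t = Polynomial.aeval t N.det := by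
        intro t
        have e : vl ρ'' (bM L' M).det = N.det.map (algebraMap K L') := by
          rw [hNd, vl_map, ← bM_bM K L' M, bM_det L' (bM K M)]
        rw [e, Polynomial.eval_map]
        rfl
      simp only [h5]
      exact hinf
  refine ⟨L'.restrictScalars k, hfd, ρ'', ?_, hgood⟩
  have h6 : (ρ''.map (algebraMap L' Ω)) = ρ := by
    rw [← hρ', Polynomial.map_map, ← IsScalarTower.algebraMap_eq]
  exact h6

end ext

end Pool.Agent.Work.Pencil
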