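import Mathlib
import Pool.Agent.Work.MP_b62148_ag.Pencil.Ext

/-!
Potential density.
-/

namespace Pool.Agent.Work.Pencil

open Matrix MvPolynomial Pool.Agent.Work.D9odd

section vl

variable {L : Type*} [Field L]

theorem vl_natDegree (r : L) (G : MvPolynomial (Fin 2) L) :
    (vl (Polynomial.C r) G).natDegree ≤ degreeOf 1 G := by
  unfold vl
  rw [MvPolynomial.aeval_def, MvPolynomial.eval₂_eq']
  refine Polynomial.natDegree_sum_le_of_forall_le _ _ fun d hd => ?_
  have h1 : (algebraMap L (Polynomial L)) (coeff d G) = Polynomial.C (coeff d G) := rfl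
  rw [h1, Fin.prod_univ_two]
  refine (Polynomial.natDegree_C_mul_le _ _).trans ?_
  have h2 : (![Polynomial.C r, Polynomial.X] : Fin 2 → Polynomial L) 0 ^ d 0 =
      Polynomial.C (r ^ d 0) := by
    rw [Polynomial.C_pow]
    rfl
  have h3 : (![Polynomial.C r, Polynomial.X] : Fin 2 → Polynomial L) 1 ^ d 1 =
      Polynomial.X ^ d 1 := rfl
  rw [h2, h3]
  exact (Polynomial.natDegree_C_mul_X_pow_le _ _).trans (MvPolynomial.monomial_le_degreeOf 1 hd)

theorem sb_aeval_X0 (c : L) (v : Polynomial L) :
    sb (Polynomial.C c) (Polynomial.aeval (X 0) v) =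
      (v.comp (Polynomial.X + Polynomial.C c)).map Polynomial.C := by
  have h1 := Polynomial.aeval_algHom_apply (sb (Polynomial.C c)) (X 0 : MvPolynomial (Fin 2) L) v
  rw [← h1, sb_X0, Polynomial.map_comp, Polynomial.comp, Polynomial.eval₂_map]
  simp only [Polynomial.map_add, Polynomial.map_X, Polynomial.map_C]
  rw [add_comm]
  rfl

theorem sb_aeval_X1 (ρ : Polynomial L) (u : Polynomial L) :
    sb ρ (Polynomial.aeval (X 1) u) = Polynomial.C u := by
  have h1 := Polynomial.aeval_algHom_apply (sb ρ) (X 1 : MvPolynomial (Fin 2) L) u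
  rw [← h1, sb_X1]
  have h2 : (Polynomial.aeval (Polynomial.C Polynomial.X : Polynomial (Polynomial L)) :
      Polynomial L →ₐ[L] _) u = Polynomial.eval₂ ((Polynomial.C : Polynomial L →+* _).comp
        (Polynomial.C : L →+* Polynomial L)) (Polynomial.C Polynomial.X) u := rfl
  rw [h2, ← Polynomial.hom_eval₂, Polynomial.eval₂_C_X]

end vl

section pot

variable {k Ω : Type*} [Field k] [CharZero k] [Field Ω] [IsAlgClosed Ω] [Algebra k Ω]
  [Algebra.IsAlgebraic k Ω]

/-- the conclusion: density over all extensions of a finite extension -/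
def PotDenseR (Ω : Type*) [Field Ω] [Algebra k Ω]
    (M : Matrix (Fin 4) (Fin 4) (MvPolynomial (Fin 2) k)) : Prop :=
  ∃ L : IntermediateField k Ω, FiniteDimensional k L ∧
    ∀ L' : IntermediateField k Ω, L ≤ L' → PlaneDense (bM L' M)

omit [CharZero k] [IsAlgClosed Ω] [Algebra.IsAlgebraic k Ω] in
theorem goodR_up (M : Matrix (Fin 4) (Fin 4) (MvPolynomial (Fin 2) k))
    (L L' : IntermediateField k Ω) (hLL' : L ≤ L') (ρ : Polynomial L) (h : GoodR (bM L M) ρ) :
    GoodR (bM L' M) (ρ.map (IntermediateField.inclusion hLL').toRingHom) := by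
  let _ : Algebra L L' := (IntermediateField.inclusion hLL').toRingHom.toAlgebra
  have : IsScalarTower k L L' := IsScalarTower.of_algebraMap_eq fun x => rfl
  exact goodR_mono M ρ h

omit [CharZero k] [IsAlgClosed Ω] [Algebra.IsAlgebraic k Ω] in
theorem vl_bM_map (M : Matrix (Fin 4) (Fin 4) (MvPolynomial (Fin 2) k))
    (L : IntermediateField k Ω) (ρ : Polynomial L) :
    (vl ρ (bM L M).det).map (algebraMap L Ω) = vl (ρ.map (algebraMap L Ω)) (bM Ω M).det := by
  rw [vl_map, ← bM_bM L Ω M, bM_det Ω (bM L M)]

/-- a section with a point where the two branches meet -/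
theorem pot_point (M : Matrix (Fin 4) (Fin 4) (MvPolynomial (Fin 2) k)) (hM : Mᵀ = M)
    (hw : WtR M) (ρ : Polynomial Ω) (t : Ω) (hB : vl ρ (bM Ω M).det ≠ 0)
    (h0 : eval ![ρ.eval t, t] (bM Ω M).det = 0)
    (h1 : eval ![ρ.eval t, t] (pderiv 0 (bM Ω M).det) ≠ 0) (g B1 : Polynomial Ω)
    (hgB : vl ρ (bM Ω M).det = g ^ 2 * B1) (hdeg : B1.natDegree ≤ 4) : PotDenseR Ω M := by
  have hΩ : CharZero Ω := charZero_of_injective_algebraMap (algebraMap k Ω).injective
  obtain ⟨L, hL, ρ', hρ', hgood⟩ := exists_goodR M ρ hB g B1 hgB hdeg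
  refine ⟨L, hL, fun L' hLL' => ?_⟩
  have hgood' := goodR_up M L L' hLL' ρ' hgood
  set ρ'' : Polynomial L' := ρ'.map (IntermediateField.inclusion hLL').toRingHom with hρ''
  have e1 : ρ''.map (algebraMap L' Ω) = ρ := by
    rw [hρ'', Polynomial.map_map, ← hρ']
    rfl
  have hB' : vl ρ'' (bM L' M).det ≠ 0 := by
    intro h
    apply hB
    rw [← e1, ← vl_bM_map, h, Polynomial.map_zero]
  have e2 : Polynomial.aeval t ρ'' = ρ.eval t := by
    rw [← e1, Polynomial.eval_map]; rfl
  have e3 : ∀ (x : Fin 2 → Ω) (F : MvPolynomial (Fin 2) L'),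
      aeval x F = eval x (MvPolynomial.map (algebraMap L' Ω) F) := by
    intro x F
    rw [MvPolynomial.eval_map]; rfl
  have e4 : MvPolynomial.map (algebraMap L' Ω) (bM L' M).det = (bM Ω M).det := by
    rw [← bM_bM L' Ω M, bM_det Ω (bM L' M)]
  refine planes_core (bM L' M) (bM_symm L' hM) (hw.map _) ρ'' hB' ?_ hgood'
  refine covCond_point (Ω := Ω) (bM L' M) (hw.map _) ρ'' t hB' ?_ ?_
  · rw [e2, e3, e4]; exact h0
  · rw [e2, e3, ← pderiv_map, e4]; exact h1

/-- infinitely many values of a polynomial are squares over a finite extension -/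
theorem exists_sq_ext (Q : Polynomial Ω) (hQ : Q ≠ 0) (hdeg : Q.natDegree ≤ 4) :
    ∃ L : IntermediateField k Ω, FiniteDimensional k L ∧
      {t : Ω | t ∈ L ∧ ∃ w ∈ L, Q.eval t = w * w}.Infinite := by
  classical
  let W : Finset Ω := (Finset.range (Q.natDegree + 1)).image Q.coeff
  let K : IntermediateField k Ω := IntermediateField.adjoin k (W : Set Ω)
  have hK : FiniteDimensional k K := by
    apply IntermediateField.finiteDimensional_adjoin
    intro a _
    exact Algebra.IsIntegral.isIntegral a
  obtain ⟨Q', hQ'⟩ := lift_pol K Q (by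
    intro i
    by_cases hi : i ≤ Q.natDegree
    · exact IntermediateField.subset_adjoin k _ (Finset.mem_image_of_mem _
        (Finset.mem_range.mpr (Nat.lt_succ_of_le hi)))
    · rw [Polynomial.coeff_eq_zero_of_natDegree_lt (by omega)]
      exact K.zero_mem)
  have hQ'0 : Q' ≠ 0 := by
    rintro rfl
    apply hQ
    rw [← hQ', Polynomial.map_zero]
  have halg : Algebra.IsAlgebraic K Ω := Algebra.IsAlgebraic.tower_top (K := k) K
  obtain ⟨L', hL', -, hinf⟩ := exists_sq_field (Ω := Ω) Q' 1 Q' hQ'0 (by ring)
    (by rw [← Polynomial.natDegree_map (algebraMap K Ω), hQ']; exact hdeg) ∅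
  refine ⟨L'.restrictScalars k, FiniteDimensional.trans k K L', ?_⟩
  refine (hinf.image (Subtype.val_injective.injOn)).mono ?_
  rintro _ ⟨t, ⟨w, hw⟩, rfl⟩
  refine ⟨t.2, w, w.2, ?_⟩
  have h2 := congrArg (algebraMap L' Ω) hw
  rw [map_mul] at h2
  have h3 : algebraMap L' Ω ((Q'.map (algebraMap K L')).eval t) = Q.eval (t : Ω) := by
    rw [← Polynomial.eval₂_hom, ← Polynomial.eval_map, Polynomial.map_map,
      ← IsScalarTower.algebraMap_eq, hQ']
    rfl
  rw [h3] at h2
  exact h2

omit [CharZero k] [IsAlgClosed Ω] in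
theorem finDim_adjoin (W : Finset Ω) :
    FiniteDimensional k (IntermediateField.adjoin k (W : Set Ω)) := by
  apply IntermediateField.finiteDimensional_adjoin
  intro a _
  exact Algebra.IsIntegral.isIntegral a

/-- the coefficients of a polynomial -/
noncomputable def coef {τ : Type*} (p : MvPolynomial τ Ω) : Finset Ω := by
  classical
  exact p.support.image fun d => coeff d p

omit [CharZero k] [IsAlgClosed Ω] [Algebra.IsAlgebraic k Ω] in
theorem lift_coef (L : IntermediateField k Ω) {τ : Type*} (p : MvPolynomial τ Ω)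
    (h : (coef p : Set Ω) ⊆ L) :
    ∃ g : MvPolynomial τ L, MvPolynomial.map (algebraMap L Ω) g = p := by
  apply lift_poly
  intro d hd
  apply h
  simp only [coef, Finset.coe_image]
  exact ⟨d, hd, rfl⟩

/-- **Potential density, without any condition on the position of the discriminant.** -/
theorem pot_all (M : Matrix (Fin 4) (Fin 4) (MvPolynomial (Fin 2) k)) (hM : Mᵀ = M)
    (hw : WtR M) (hD : M.det ≠ 0) (G p : MvPolynomial (Fin 2) Ω)
    (hGp : (bM Ω M).det = G * p ^ 2) (hG : degreeOf 1 G ≤ 4) : PotDenseR Ω M := by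
  classical
  have hΩ : CharZero Ω := charZero_of_injective_algebraMap (algebraMap k Ω).injective
  set F : MvPolynomial (Fin 2) Ω := (bM Ω M).det with hFdef
  have hF : F ≠ 0 := by
    intro h
    apply hD
    apply MvPolynomial.map_injective (algebraMap k Ω) (algebraMap k Ω).injective
    rw [map_zero, ← bM_det]
    exact h
  have hwΩ : WtR (bM Ω M) := hw.map _
  have hdF : degreeOf 0 F ≤ 4 := hwΩ.degreeOf_det
  have hvl : ∀ r s : Ω, eval ![r, s] F ≠ 0 → vl (Polynomial.C r) F ≠ 0 := by
    intro r s h h2
    apply h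
    have h3 := vl_eval (Polynomial.C r) F s
    rw [h2, Polynomial.eval_zero, Polynomial.eval_C] at h3
    exact h3.symm
  have hfac : ∀ r : Ω, vl (Polynomial.C r) F = vl (Polynomial.C r) p ^ 2 * vl (Polynomial.C r) G := by
    intro r
    rw [hGp, map_mul, map_pow, mul_comm]
  have hdg : ∀ r : Ω, (vl (Polynomial.C r) G).natDegree ≤ 4 := fun r =>
    (vl_natDegree r G).trans hG
  rcases tri F hF hdF with ⟨r, t, e1, e2, s, e3⟩ | h
  · -- a point where the two sections meet
    exact pot_point M hM hw (Polynomial.C r) t (hvl r s e3)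
      (by rw [Polynomial.eval_C]; exact e1) (by rw [Polynomial.eval_C]; exact e2) _ _ (hfac r)
      (hdg r)
  · -- an origin where the determinant is not zero
    obtain ⟨x, hx⟩ : ∃ x : Fin 2 → Ω, eval x F ≠ 0 := by
      by_contra hne
      push Not at hne
      exact hF (MvPolynomial.funext fun x => by rw [hne x, map_zero])
    have hx2 : (![x 0, x 1] : Fin 2 → Ω) = x := by
      funext i
      fin_cases i <;> rfl
    rw [← hx2] at hx
    have hB := hvl _ _ hx
    obtain ⟨L1, hL1, ρ1, hρ1, hg⟩ := exists_goodR M (Polynomial.C (x 0)) hB _ _ (hfac (x 0))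
      (hdg (x 0))
    obtain ⟨c, rfl⟩ : ∃ c : L1, ρ1 = Polynomial.C c := by
      refine ⟨ρ1.coeff 0, Polynomial.eq_C_of_natDegree_eq_zero ?_⟩
      rw [← Polynomial.natDegree_map (algebraMap L1 Ω), hρ1, Polynomial.natDegree_C]
    have hc : (c : Ω) = x 0 := by
      rw [Polynomial.map_C] at hρ1
      exact Polynomial.C_injective hρ1
    -- common part
    have hcommon : ∀ (L' : IntermediateField k Ω) (hLL' : L1 ≤ L'),
        vl (Polynomial.C (⟨c, hLL' c.2⟩ : L')) (bM L' M).det ≠ 0 ∧
        GoodR (bM L' M) (Polynomial.C (⟨c, hLL' c.2⟩ : L')) := by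
      intro L' hLL'
      constructor
      · intro h2
        apply hB
        have h3 := vl_bM_map M L' (Polynomial.C (⟨c, hLL' c.2⟩ : L'))
        rw [h2, Polynomial.map_zero, Polynomial.map_C] at h3
        have hc' : algebraMap L' Ω (⟨c, hLL' c.2⟩ : L') = x 0 := hc
        rw [hc'] at h3
        exact h3.symm
      · have h2 := goodR_up M L1 L' hLL' (Polynomial.C c) hg
        rw [Polynomial.map_C] at h2
        exact h2
    have hmapdet : ∀ (L' : IntermediateField k Ω),
        MvPolynomial.map (algebraMap L' Ω) (bM L' M).det = F := by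
      intro L'
      rw [hFdef, ← bM_bM L' Ω M, bM_det Ω (bM L' M)]
    rcases h with ⟨G2, p2, hGp2, hGd⟩ | ⟨u, v, huv⟩
    · -- a conic
      let W : Finset Ω := coef G2 ∪ coef p2
      let L2 : IntermediateField k Ω := IntermediateField.adjoin k (W : Set Ω)
      have hL2 : FiniteDimensional k L2 := finDim_adjoin W
      refine ⟨L1 ⊔ L2, IntermediateField.finiteDimensional_sup L1 L2, fun L' hLL' => ?_⟩
      have hL1' : L1 ≤ L' := le_sup_left.trans hLL'
      have hL2' : L2 ≤ L' := le_sup_right.trans hLL'
      obtain ⟨hB', hg'⟩ := hcommon L' hL1'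
      obtain ⟨G', hG'⟩ := lift_coef L' G2 (fun w hw => hL2' (IntermediateField.subset_adjoin k _
        (Finset.mem_union_left _ hw)))
      obtain ⟨p', hp'⟩ := lift_coef L' p2 (fun w hw => hL2' (IntermediateField.subset_adjoin k _
        (Finset.mem_union_right _ hw)))
      have hinj : Function.Injective (MvPolynomial.map (σ := Fin 2) (algebraMap L' Ω)) :=
        MvPolynomial.map_injective _ (algebraMap L' Ω).injective
      have hfac' : (bM L' M).det = G' * p' ^ 2 := by
        apply hinj
        rw [hmapdet, map_mul, map_pow, hG', hp', ← hGp2]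
      refine planes_core (bM L' M) (bM_symm L' hM) (hw.map _) _ hB' ?_ hg'
      refine covCond_two _ (sb (Polynomial.C (⟨c, hL1' c.2⟩ : L')) G')
        (sb (Polynomial.C (⟨c, hL1' c.2⟩ : L')) p') ?_ ?_ (by rw [sb_coeff_zero]; exact hB')
      · rw [hfac', map_mul, map_pow]
      · refine (sb_natDegree _ _).trans (le_trans ?_ hGd)
        refine MvPolynomial.degreeOf_le_iff.mpr fun d hd => ?_
        apply MvPolynomial.monomial_le_degreeOf 0
        rw [← hG', MvPolynomial.support_map_of_injective _ (algebraMap L' Ω).injective]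
        exact hd
    · -- constants
      have hvd : v.natDegree ≤ 4 := by
        have h3 : Polynomial.aeval (X 1 : MvPolynomial (Fin 2) Ω) u ≠ 0 := by
          intro h; apply hF; rw [huv, h, zero_mul]
        have h4 : Polynomial.aeval (X 0 : MvPolynomial (Fin 2) Ω) v ≠ 0 := by
          intro h; apply hF; rw [huv, h, mul_zero]
        rw [huv, degreeOf_mul_eq h3 h4, degreeOf_aeval_X 0 1 (by decide), zero_add] at hdF
        refine le_trans ?_ hdF
        have h5 := sb_natDegree (Polynomial.C (0 : Ω)) (Polynomial.aeval (X 0) v)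
        rw [sb_aeval_X0, map_zero, add_zero, Polynomial.comp_X,
          Polynomial.natDegree_map_eq_of_injective Polynomial.C_injective] at h5
        exact h5
      have hv0 : v.eval (x 0) ≠ 0 := by
        intro h2
        apply hx
        rw [huv, map_mul, eval_aeval_X, eval_aeval_X]
        simp [h2]
      let Q : Polynomial Ω := Polynomial.C (v.eval (x 0)) *
        v.comp (Polynomial.X + Polynomial.C (x 0))
      have hQ0 : Q ≠ 0 := by
        intro h2
        have h3 := congrArg (Polynomial.eval 0) h2
        simp only [Q, Polynomial.eval_mul, Polynomial.eval_C, Polynomial.eval_comp,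
          Polynomial.eval_add, Polynomial.eval_X, zero_add, Polynomial.eval_zero] at h3
        exact mul_ne_zero hv0 hv0 h3
      have hQd : Q.natDegree ≤ 4 := by
        refine (Polynomial.natDegree_C_mul_le _ _).trans ?_
        rw [Polynomial.natDegree_comp, Polynomial.natDegree_X_add_C, mul_one]
        exact hvd
      obtain ⟨L3, hL3, hinf⟩ := exists_sq_ext (k := k) Q hQ0 hQd
      let W : Finset Ω := (Finset.range (u.natDegree + 1)).image u.coeff ∪
        (Finset.range (v.natDegree + 1)).image v.coeff
      let L2 : IntermediateField k Ω := IntermediateField.adjoin k (W : Set Ω)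
      have hL2 : FiniteDimensional k L2 := finDim_adjoin W
      have h12 : FiniteDimensional k (L1 ⊔ L2 : IntermediateField k Ω) :=
        IntermediateField.finiteDimensional_sup L1 L2
      refine ⟨(L1 ⊔ L2) ⊔ L3, IntermediateField.finiteDimensional_sup _ _,
        fun L' hLL' => ?_⟩
      have hL1' : L1 ≤ L' := (le_sup_left.trans le_sup_left).trans hLL'
      have hL2' : L2 ≤ L' := (le_sup_right.trans le_sup_left).trans hLL'
      have hL3' : L3 ≤ L' := le_sup_right.trans hLL'
      obtain ⟨hB', hg'⟩ := hcommon L' hL1'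
      have hco : ∀ (q : Polynomial Ω), (∀ i ∈ Finset.range (q.natDegree + 1), q.coeff i ∈ L') →
          ∀ i, q.coeff i ∈ L' := by
        intro q hq i
        by_cases hi : i ≤ q.natDegree
        · exact hq i (Finset.mem_range.mpr (Nat.lt_succ_of_le hi))
        · rw [Polynomial.coeff_eq_zero_of_natDegree_lt (by omega)]
          exact L'.zero_mem
      obtain ⟨u', hu'⟩ := lift_pol L' u (hco u fun i hi => hL2' (IntermediateField.subset_adjoin k _
        (Finset.mem_union_left _ (Finset.mem_image_of_mem _ hi))))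
      obtain ⟨v', hv'⟩ := lift_pol L' v (hco v fun i hi => hL2' (IntermediateField.subset_adjoin k _
        (Finset.mem_union_right _ (Finset.mem_image_of_mem _ hi))))
      have hinj : Function.Injective (MvPolynomial.map (σ := Fin 2) (algebraMap L' Ω)) :=
        MvPolynomial.map_injective _ (algebraMap L' Ω).injective
      have hmapX : ∀ (i : Fin 2) (q : Polynomial L'), MvPolynomial.map (algebraMap L' Ω)
          (Polynomial.aeval (X i) q) = Polynomial.aeval (X i) (q.map (algebraMap L' Ω)) := by
        intro i q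
        have e1 : (Polynomial.aeval (X i : MvPolynomial (Fin 2) L')) q =
            Polynomial.eval₂ (C : L' →+* MvPolynomial (Fin 2) L') (X i) q := rfl
        have e2 : (Polynomial.aeval (X i : MvPolynomial (Fin 2) Ω)) (q.map (algebraMap L' Ω)) =
            Polynomial.eval₂ (C : Ω →+* MvPolynomial (Fin 2) Ω) (X i)
              (q.map (algebraMap L' Ω)) := rfl
        rw [e1, e2, Polynomial.hom_eval₂, Polynomial.eval₂_map, map_X]
        congr 1
        ext a
        simp
      have hfac' : (bM L' M).det = Polynomial.aeval (X 1) u' * Polynomial.aeval (X 0) v' := by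
        apply hinj
        rw [hmapdet, map_mul, hmapX, hmapX, hu', hv', ← huv]
      set c' : L' := ⟨c, hL1' c.2⟩ with hc'
      refine planes_core (bM L' M) (bM_symm L' hM) (hw.map _) (Polynomial.C c') hB' ?_ hg'
      refine covCond_three _ u' (v'.comp (Polynomial.X + Polynomial.C c')) ?_
        (by rw [sb_coeff_zero]; exact hB') ?_
      · rw [hfac', map_mul, sb_aeval_X1, sb_aeval_X0]
      · have hval : ∀ s : L', algebraMap L' Ω ((v'.comp (Polynomial.X + Polynomial.C c')).eval 0 *
            (v'.comp (Polynomial.X + Polynomial.C c')).eval s) = Q.eval (s : Ω) := by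
          intro s
          have e1 : ∀ y : L', algebraMap L' Ω (v'.eval y) = v.eval (y : Ω) := by
            intro y
            rw [← Polynomial.eval₂_hom, ← Polynomial.eval_map, hv']
            rfl
          simp only [Q, Polynomial.eval_mul, Polynomial.eval_C, Polynomial.eval_comp,
            Polynomial.eval_add, Polynomial.eval_X, map_mul, e1, zero_add]
          have e3 : ((c' : L') : Ω) = x 0 := hc
          rw [e3]
          have e4 : ((s + c' : L') : Ω) = (s : Ω) + x 0 := by rw [← e3]; rfl
          rw [e4]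
        have hsub : {t : Ω | t ∈ L3 ∧ ∃ w ∈ L3, Q.eval t = w * w} ⊆
            (Subtype.val : L' → Ω) '' {s : L' | IsSquare
              ((v'.comp (Polynomial.X + Polynomial.C c')).eval 0 *
              (v'.comp (Polynomial.X + Polynomial.C c')).eval s)} := by
          rintro t ⟨ht, w, hw, htw⟩
          refine ⟨⟨t, hL3' ht⟩, ⟨⟨w, hL3' hw⟩, ?_⟩, rfl⟩
          apply (algebraMap L' Ω).injective
          rw [hval, map_mul]
          exact htw
        exact (hinf.mono hsub).of_image _

end pot

end Pool.Agent.Work.Pencil
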