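import Mathlib
import Pool.Agent.Work.MP_b62148_ag.Pencil.PotR

/-!
The condition on the function field does not change under multiplication by a square; a crossing
with a factor of the determinant that is unique up to squares.
-/

namespace Pool.Agent.Work.Pencil

universe u

section cov

open Polynomial

/-- the condition holds in all fields where `D(0)` is a square -/
theorem sqInf_of_covCond {S : Type u} [CommRing S] [IsDomain S] [UniqueFactorizationMonoid S]
    (D : S[X]) (h : CovCond D) {K : Type*} [Field K] (ψ : S →+* K) (hψ : Function.Injective ψ)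
    (z : K) (hz : z ^ 2 = ψ (D.coeff 0)) : SqInf ψ D := by
  have key : ∀ {R : Type u} [CommRing R] [IsDomain R] (φ : S →+* R) (χ : R →+* K),
      Function.Injective χ → χ.comp φ = ψ →
      SqInf ((algebraMap R (FractionRing R)).comp φ) D → SqInf ψ D := by
    intro R _ _ φ χ hχ hcomp hinf
    let ι : FractionRing R →+* K := IsFractionRing.lift hχ
    have hι : ∀ r : R, ι (algebraMap R (FractionRing R) r) = χ r :=
      fun r => IsFractionRing.lift_algebraMap hχ r
    refine (hinf.image ι.injective.injOn).mono ?_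
    rintro _ ⟨s, ⟨w, hw⟩, rfl⟩
    refine ⟨ι w, ?_⟩
    rw [← map_mul, ← hw, Polynomial.hom_eval₂]
    congr 1
    rw [← hcomp]
    refine RingHom.ext fun s => ?_
    exact (hι (φ s)).symm
  by_cases hsq : ∃ b, b ^ 2 = D.coeff 0
  · refine key (RingHom.id S) ψ hψ (RingHom.comp_id _) ?_
    rw [RingHom.comp_id]
    exact h.1 hsq
  · have hirr := cv_irreducible (D.coeff 0) hsq
    have hdom : IsDomain (AdjoinRoot (cv (D.coeff 0))) :=
      AdjoinRoot.isDomain_of_prime hirr.prime
    refine key (AdjoinRoot.of (cv (D.coeff 0))) (ptHom (D.coeff 0) ψ z hz) ?_ ?_ (h.2 hsq)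
    · have hfin : Module.Finite S (AdjoinRoot (cv (D.coeff 0))) :=
        (cv_monic (D.coeff 0)).finite_adjoinRoot
      rw [RingHom.injective_iff_ker_eq_bot]
      apply Ideal.eq_bot_of_comap_eq_bot (R := S)
      rw [eq_bot_iff]
      intro s hs
      rw [Ideal.mem_comap, RingHom.mem_ker] at hs
      have h2 : ψ s = 0 := by
        rw [← ptHom_of (D.coeff 0) ψ z hz s]
        exact hs
      have h3 : s = 0 := hψ (by rw [h2, map_zero])
      rw [h3]
      exact Ideal.zero_mem _
    · refine RingHom.ext fun s => ?_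
      exact ptHom_of (D.coeff 0) ψ z hz s

/-- the condition only depends on the class up to squares -/
theorem covCond_mul_sq {S : Type u} [CommRing S] [IsDomain S] [UniqueFactorizationMonoid S]
    (D G p : S[X]) (hD : D = G * p ^ 2) (hB : D.coeff 0 ≠ 0) (h : CovCond G) : CovCond D := by
  apply covCond_of_field
  intro K _ ψ z hψ hz
  have hc : D.coeff 0 = G.coeff 0 * p.coeff 0 ^ 2 := by
    rw [hD, Polynomial.mul_coeff_zero, Polynomial.coeff_zero_eq_eval_zero (p ^ 2),
      Polynomial.eval_pow, ← Polynomial.coeff_zero_eq_eval_zero]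
  have hp : ψ (p.coeff 0) ≠ 0 := by
    intro h2
    apply hB
    have h3 : p.coeff 0 = 0 := hψ (by rw [h2, map_zero])
    rw [hc, h3]; ring
  refine (sqInf_of_covCond G h ψ hψ (z / ψ (p.coeff 0)) ?_).mono ?_
  · rw [div_pow, hz, hc, map_mul, map_pow]
    field_simp
  · rintro s ⟨w, hw⟩
    refine ⟨w * p.eval₂ ψ s, ?_⟩
    rw [hD, Polynomial.eval₂_mul, Polynomial.eval₂_pow, hw]
    ring

end cov

open Matrix MvPolynomial Pool.Agent.Work.D9odd

section point

variable {L : Type u} [Field L] {Ω : Type*} [Field Ω] [Algebra L Ω]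

/-- the condition, from a point where the two sections meet, for a factor of the determinant -/
theorem covCond_point' [CharZero Ω] (M : Matrix (Fin 4) (Fin 4) (MvPolynomial (Fin 2) L))
    (hw : WtR M) (G p : MvPolynomial (Fin 2) L) (hGp : M.det = G * p ^ 2)
    (ρ : Polynomial L) (t : Ω) (hB : vl ρ M.det ≠ 0)
    (h0 : aeval ![Polynomial.aeval t ρ, t] G = 0)
    (h1 : aeval ![Polynomial.aeval t ρ, t] (pderiv 0 G) ≠ 0) : CovCond (sb ρ M.det) := by
  have hd : degreeOf 0 G ≤ 4 := by
    refine le_trans ?_ hw.degreeOf_det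
    have hdet : M.det ≠ 0 := by
      intro h
      rw [h, map_zero] at hB
      exact hB rfl
    have hG : G ≠ 0 := by
      rintro rfl
      exact hdet (by rw [hGp, zero_mul])
    have hp : p ^ 2 ≠ 0 := by
      intro h
      exact hdet (by rw [hGp, h, mul_zero])
    rw [hGp, degreeOf_mul_eq hG hp]
    omega
  have hvG : vl ρ G ≠ 0 := by
    intro h
    rw [hGp, map_mul, h, zero_mul] at hB
    exact hB rfl
  refine covCond_mul_sq _ (sb ρ G) (sb ρ p) (by rw [hGp, map_mul, map_pow])
    (by rw [sb_coeff_zero]; exact hB) ?_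
  refine covCond_collision (Ω := Ω) (sb ρ G) ((sb_natDegree ρ G).trans hd)
    (by rw [sb_coeff_zero]; exact hvG) (Polynomial.aeval t : Polynomial L →ₐ[L] Ω).toRingHom ?_ ?_
  · show Polynomial.aeval t ((sb ρ G).coeff 0) = 0
    rw [sb_coeff_zero, aeval_vl]; exact h0
  · show Polynomial.aeval t ((sb ρ G).coeff 1) ≠ 0
    rw [sb_coeff_one, aeval_vl]; exact h1

end point

section pot

variable {k Ω : Type*} [Field k] [CharZero k] [Field Ω] [IsAlgClosed Ω] [Algebra k Ω]
  [Algebra.IsAlgebraic k Ω]

/-- a section with a point where the two branches meet -/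
theorem pot_point' (M : Matrix (Fin 4) (Fin 4) (MvPolynomial (Fin 2) k)) (hM : Mᵀ = M)
    (hw : WtR M) (G p : MvPolynomial (Fin 2) Ω) (hGp : (bM Ω M).det = G * p ^ 2)
    (ρ : Polynomial Ω) (t : Ω) (hB : vl ρ (bM Ω M).det ≠ 0)
    (h0 : eval ![ρ.eval t, t] G = 0)
    (h1 : eval ![ρ.eval t, t] (pderiv 0 G) ≠ 0) (g B1 : Polynomial Ω)
    (hgB : vl ρ (bM Ω M).det = g ^ 2 * B1) (hdeg : B1.natDegree ≤ 4) : PotDenseR Ω M := by
  classical
  have hΩ : CharZero Ω := charZero_of_injective_algebraMap (algebraMap k Ω).injective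
  obtain ⟨L, hL, ρ', hρ', hgood⟩ := exists_goodR M ρ hB g B1 hgB hdeg
  let W : Finset Ω := coef G ∪ coef p
  let L2 : IntermediateField k Ω := IntermediateField.adjoin k (W : Set Ω)
  have hL2 : FiniteDimensional k L2 := finDim_adjoin W
  refine ⟨L ⊔ L2, IntermediateField.finiteDimensional_sup L L2, fun L' hLL' => ?_⟩
  have hL1' : L ≤ L' := le_sup_left.trans hLL'
  have hL2' : L2 ≤ L' := le_sup_right.trans hLL'
  obtain ⟨G', hG'⟩ := lift_coef L' G (fun w hw => hL2' (IntermediateField.subset_adjoin k _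
    (Finset.mem_union_left _ hw)))
  obtain ⟨p', hp'⟩ := lift_coef L' p (fun w hw => hL2' (IntermediateField.subset_adjoin k _
    (Finset.mem_union_right _ hw)))
  have hgood' := goodR_up M L L' hL1' ρ' hgood
  set ρ'' : Polynomial L' := ρ'.map (IntermediateField.inclusion hL1').toRingHom with hρ''
  have e1 : ρ''.map (algebraMap L' Ω) = ρ := by
    rw [hρ'', Polynomial.map_map, ← hρ']
    rfl
  have hB' : vl ρ'' (bM L' M).det ≠ 0 := by
    intro h
    apply hB
    rw [← e1, ← vl_bM_map, h, Polynomial.map_zero]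
  have e2 : Polynomial.aeval t ρ'' = ρ.eval t := by
    rw [← e1, Polynomial.eval_map]; rfl
  have e3 : ∀ (x : Fin 2 → Ω) (F : MvPolynomial (Fin 2) L'),
      aeval x F = eval x (MvPolynomial.map (algebraMap L' Ω) F) := by
    intro x F
    rw [MvPolynomial.eval_map]; rfl
  have e4 : MvPolynomial.map (algebraMap L' Ω) (bM L' M).det = (bM Ω M).det := by
    rw [← bM_bM L' Ω M, bM_det Ω (bM L' M)]
  have hfac' : (bM L' M).det = G' * p' ^ 2 := by
    apply MvPolynomial.map_injective (σ := Fin 2) (algebraMap L' Ω) (algebraMap L' Ω).injective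
    rw [e4, map_mul, map_pow, hG', hp', ← hGp]
  refine planes_core (bM L' M) (bM_symm L' hM) (hw.map _) ρ'' hB' ?_ hgood'
  refine covCond_point' (Ω := Ω) (bM L' M) (hw.map _) G' p' hfac' ρ'' t hB' ?_ ?_
  · rw [e2, e3, hG']; exact h0
  · rw [e2, e3, ← pderiv_map, hG']; exact h1

end pot

end Pool.Agent.Work.Pencil
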