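import Mathlib
import Pool.Agent.Work.MP_b62148_ag.Pencil.PotR

/-!
Potential density when the determinant is of degree at most six, up to squares: tangent lines.
-/

namespace Pool.Agent.Work.Pencil

open Matrix MvPolynomial Pool.Agent.Work.D9odd

section lines

variable {Ω : Type*} [Field Ω]

/-- a line -/
theorem vl_natDegree_lin (ρ : Polynomial Ω) (hρ : ρ.natDegree ≤ 1) (G : MvPolynomial (Fin 2) Ω) :
    (vl ρ G).natDegree ≤ G.totalDegree := by
  unfold vl
  rw [MvPolynomial.aeval_def, MvPolynomial.eval₂_eq']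
  refine Polynomial.natDegree_sum_le_of_forall_le _ _ fun d hd => ?_
  have h1 : (algebraMap Ω (Polynomial Ω)) (coeff d G) = Polynomial.C (coeff d G) := rfl
  rw [h1, Fin.prod_univ_two]
  refine (Polynomial.natDegree_C_mul_le _ _).trans ?_
  refine (Polynomial.natDegree_mul_le).trans ?_
  have h2 : ((![ρ, Polynomial.X] : Fin 2 → Polynomial Ω) 0 ^ d 0).natDegree ≤ d 0 := by
    refine (Polynomial.natDegree_pow_le).trans ?_
    exact (Nat.mul_le_mul_left (d 0) hρ).trans (by simp)
  have h3 : ((![ρ, Polynomial.X] : Fin 2 → Polynomial Ω) 1 ^ d 1).natDegree ≤ d 1 := by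
    refine (Polynomial.natDegree_pow_le).trans ?_
    have : ((![ρ, Polynomial.X] : Fin 2 → Polynomial Ω) 1).natDegree ≤ 1 :=
      Polynomial.natDegree_X_le
    exact (Nat.mul_le_mul_left (d 1) this).trans (by simp)
  have h4 : d 0 + d 1 ≤ G.totalDegree := by
    have h5 := MvPolynomial.le_totalDegree hd
    rw [Finsupp.sum_fintype _ _ (fun _ => rfl), Fin.sum_univ_two] at h5
    exact h5
  omega

theorem derivative_vl (ρ : Polynomial Ω) (F : MvPolynomial (Fin 2) Ω) :
    Polynomial.derivative (vl ρ F) = vl ρ (pderiv 0 F) * Polynomial.derivative ρ +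
      vl ρ (pderiv 1 F) := by
  induction F using MvPolynomial.induction_on with
  | C a => simp
  | add p q hp hq => simp only [map_add, hp, hq]; ring
  | mul_X p i hp =>
    rw [map_mul, Polynomial.derivative_mul, hp, (pderiv 0).leibniz, (pderiv 1).leibniz,
      map_add, map_add, smul_eq_mul, smul_eq_mul, smul_eq_mul, smul_eq_mul, map_mul, map_mul,
      map_mul, map_mul]
    fin_cases i
    · have h2 : (pderiv 0) (X 0 : MvPolynomial (Fin 2) Ω) = 1 := pderiv_X_self 0
      have h3 : (pderiv 1) (X 0 : MvPolynomial (Fin 2) Ω) = 0 := by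
        rw [pderiv_X_of_ne]
        decide
      simp only [Fin.zero_eta, vl_X0, h2, h3, map_one, map_zero]
      ring
    · have h2 : (pderiv 0) (X 1 : MvPolynomial (Fin 2) Ω) = 0 := by
        rw [pderiv_X_of_ne]
        decide
      have h3 : (pderiv 1) (X 1 : MvPolynomial (Fin 2) Ω) = 1 := pderiv_X_self 1
      simp only [Fin.mk_one, vl_X1, h2, h3, map_one, map_zero, Polynomial.derivative_X]
      ring

theorem dvd_of_vl (ρ : Polynomial Ω) (F : MvPolynomial (Fin 2) Ω) (h : vl ρ F = 0) :
    X 0 - Polynomial.aeval (X 1) ρ ∣ F := by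
  rw [← sb_coeff_zero] at h
  obtain ⟨q, hq⟩ := Polynomial.X_dvd_iff.mpr h
  refine ⟨usb ρ q, ?_⟩
  rw [← usb_sb ρ F, hq, map_mul]
  congr 1
  simp [usb]

theorem double_root (g : Polynomial Ω) (t : Ω) (h0 : g.eval t = 0)
    (h1 : (Polynomial.derivative g).eval t = 0) :
    ∃ B : Polynomial Ω, g = (Polynomial.X - Polynomial.C t) ^ 2 * B := by
  obtain ⟨q, rfl⟩ := Polynomial.dvd_iff_isRoot.mpr h0
  have h2 : q.eval t = 0 := by
    rw [Polynomial.derivative_mul] at h1
    simpa using h1
  obtain ⟨B, rfl⟩ := Polynomial.dvd_iff_isRoot.mpr h2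
  exact ⟨B, by ring⟩

theorem exists_zero_of_not_dvd [IsAlgClosed Ω] (p Q : MvPolynomial (Fin 2) Ω) (hp : Prime p)
    (h : ¬ p ∣ Q) : ∃ x : Fin 2 → Ω, eval x p = 0 ∧ eval x Q ≠ 0 := by
  by_contra hne
  push Not at hne
  apply h
  have hprime : (Ideal.span {p}).IsPrime := (Ideal.span_singleton_prime hp.ne_zero).mpr hp
  rw [← Ideal.mem_span_singleton, ← IsPrime.vanishingIdeal_zeroLocus (K := Ω) (Ideal.span {p})]
  rw [mem_vanishingIdeal_iff]
  intro x hx
  rw [mem_zeroLocus_iff] at hx
  have h3 := hx p (Ideal.mem_span_singleton_self p)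
  rw [MvPolynomial.aeval_eq_eval] at h3 ⊢
  exact hne x h3

/-- an irreducible polynomial with a factor of degree one -/
theorem totalDegree_of_dvd (C l : MvPolynomial (Fin 2) Ω) (hC : Irreducible C)
    (hl : ¬ IsUnit l) (hd : l.totalDegree ≤ 1) (h : l ∣ C) : C.totalDegree ≤ 1 := by
  obtain ⟨q, rfl⟩ := h
  rcases hC.isUnit_or_isUnit rfl with h1 | h1
  · exact absurd h1 hl
  · obtain ⟨c, -, rfl⟩ := MvPolynomial.isUnit_iff_eq_C_of_isReduced.mp h1
    refine (MvPolynomial.totalDegree_mul _ _).trans ?_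
    rw [MvPolynomial.totalDegree_C]
    omega

theorem not_isUnit_of_zero (l : MvPolynomial (Fin 2) Ω) (x : Fin 2 → Ω) (h : eval x l = 0) :
    ¬ IsUnit l := by
  intro hl
  have := hl.map (eval x)
  rw [h] at this
  exact not_isUnit_zero this

theorem degreeOf_ne_zero [IsAlgClosed Ω] (C : MvPolynomial (Fin 2) Ω) (hC : Irreducible C)
    (hd : 2 ≤ C.totalDegree) : degreeOf 0 C ≠ 0 := by
  intro h
  obtain ⟨u, rfl⟩ := of_degreeOf_zero C h
  by_cases hu : u.natDegree = 0
  · rw [Polynomial.eq_C_of_natDegree_eq_zero hu, Polynomial.aeval_C,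
      MvPolynomial.algebraMap_eq, MvPolynomial.totalDegree_C] at hd
    omega
  · obtain ⟨a, ha⟩ := IsAlgClosed.exists_root u (by
      intro h
      apply hu
      exact Polynomial.natDegree_eq_zero_iff_degree_le_zero.mpr h.le)
    obtain ⟨q, hq⟩ := Polynomial.dvd_iff_isRoot.mpr ha
    have h2 : (X 1 - MvPolynomial.C a : MvPolynomial (Fin 2) Ω) ∣ Polynomial.aeval (X 1) u := by
      refine ⟨Polynomial.aeval (X 1) q, ?_⟩
      rw [hq, map_mul]
      simp [MvPolynomial.algebraMap_eq]
    have h3 := totalDegree_of_dvd _ _ hC (not_isUnit_of_zero _ (fun _ => a) (by simp)) (by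
      refine (MvPolynomial.totalDegree_sub _ _).trans ?_
      rw [MvPolynomial.totalDegree_X, MvPolynomial.totalDegree_C]
      simp) h2
    omega

/-- the equation of a line has degree one -/
theorem totalDegree_line (a b : Ω) : (X 0 - Polynomial.aeval (X 1)
    (Polynomial.C a + Polynomial.C b * Polynomial.X) : MvPolynomial (Fin 2) Ω).totalDegree ≤ 1 := by
  refine (MvPolynomial.totalDegree_sub _ _).trans (max_le ?_ ?_)
  · rw [MvPolynomial.totalDegree_X]
  · rw [map_add, map_mul, Polynomial.aeval_C, Polynomial.aeval_C, Polynomial.aeval_X,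
      MvPolynomial.algebraMap_eq]
    refine (MvPolynomial.totalDegree_add _ _).trans (max_le ?_ ?_)
    · rw [MvPolynomial.totalDegree_C]; omega
    · refine (MvPolynomial.totalDegree_mul _ _).trans ?_
      rw [MvPolynomial.totalDegree_C, MvPolynomial.totalDegree_X]

end lines

section pot

variable {k Ω : Type*} [Field k] [CharZero k] [Field Ω] [IsAlgClosed Ω] [Algebra k Ω]
  [Algebra.IsAlgebraic k Ω]

/-- **Potential density for sextic discriminants.** -/
theorem pot_sextic (M : Matrix (Fin 4) (Fin 4) (MvPolynomial (Fin 2) k)) (hM : Mᵀ = M)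
    (hw : WtR M) (G p C : MvPolynomial (Fin 2) Ω) (hGp : (bM Ω M).det = G * p ^ 2)
    (hG : G.totalDegree ≤ 6) (hC : Irreducible C) (hCd : 2 ≤ C.totalDegree)
    (hCF : C ∣ (bM Ω M).det) (hC2 : ¬ C ^ 2 ∣ (bM Ω M).det) : PotDenseR Ω M := by
  have hΩ : CharZero Ω := charZero_of_injective_algebraMap (algebraMap k Ω).injective
  set F : MvPolynomial (Fin 2) Ω := (bM Ω M).det with hFdef
  have hCp : Prime C := hC.prime
  obtain ⟨H, hH⟩ := hCF
  have hCH : ¬ C ∣ H := by
    rintro ⟨q, rfl⟩
    exact hC2 ⟨q, by rw [hH]; ring⟩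
  have h0 := degreeOf_ne_zero C hC hCd
  have hpr : ¬ C ∣ pderiv 0 C := by
    rintro ⟨q, hq⟩
    have hne := pderiv_ne_zero C h0
    have hq0 : q ≠ 0 := by
      rintro rfl
      exact hne (by rw [hq, mul_zero])
    have := degreeOf_pderiv_lt C h0
    rw [hq, degreeOf_mul_eq hCp.ne_zero hq0] at this
    omega
  obtain ⟨x, hx, hx'⟩ := exists_zero_of_not_dvd C (H * pderiv 0 C) hCp (by
    intro h
    rcases hCp.dvd_or_dvd h with h | h
    · exact hCH h
    · exact hpr h)
  rw [map_mul] at hx'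
  have hHx : eval x H ≠ 0 := left_ne_zero_of_mul hx'
  have hFx : eval x F = 0 := by rw [hH, map_mul, hx, zero_mul]
  have hFr : eval x (pderiv 0 F) ≠ 0 := by
    rw [hH, Derivation.leibniz, smul_eq_mul, smul_eq_mul, map_add, map_mul, map_mul, hx, zero_mul,
      zero_add]
    exact hx'
  -- the same for `G`
  have hFr2 : eval x (pderiv 0 F) = eval x G * (2 * eval x p * eval x (pderiv 0 p)) +
      eval x p ^ 2 * eval x (pderiv 0 G) := by
    have h4 : pderiv 0 (G * p ^ 2) = G * (2 * p * pderiv 0 p) + p ^ 2 * pderiv 0 G := by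
      rw [Derivation.leibniz, pow_two, Derivation.leibniz]
      simp only [smul_eq_mul]
      ring
    rw [hGp, h4]
    simp only [map_add, map_mul, map_pow, map_ofNat]
  have hpx : eval x p ≠ 0 := by
    intro h
    apply hFr
    rw [hFr2, h]
    ring
  have hGx : eval x G = 0 := by
    have h3 : eval x G * eval x p ^ 2 = 0 := by rw [← hFx, hGp, map_mul, map_pow]
    exact (mul_eq_zero.mp h3).resolve_right (pow_ne_zero 2 hpx)
  have hGr : eval x (pderiv 0 G) ≠ 0 := by
    intro h
    apply hFr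
    rw [hFr2, h, hGx]
    ring
  -- the tangent line
  set m : Ω := -(eval x (pderiv 1 G) / eval x (pderiv 0 G)) with hm
  set ρ : Polynomial Ω := Polynomial.C (x 0 - m * x 1) + Polynomial.C m * Polynomial.X with hρ
  have hρd : ρ.natDegree ≤ 1 := by
    rw [hρ]
    refine (Polynomial.natDegree_add_le _ _).trans (max_le ?_ ?_)
    · rw [Polynomial.natDegree_C]; omega
    · exact (Polynomial.natDegree_C_mul_le _ _).trans Polynomial.natDegree_X_le
  have hρx : ρ.eval (x 1) = x 0 := by
    rw [hρ]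
    simp
  have hρ' : Polynomial.derivative ρ = Polynomial.C m := by
    rw [hρ]
    simp
  have hvec : (![ρ.eval (x 1), x 1] : Fin 2 → Ω) = x := by
    rw [hρx]
    funext i
    fin_cases i <;> rfl
  have hev : ∀ Q : MvPolynomial (Fin 2) Ω, (vl ρ Q).eval (x 1) = eval x Q := by
    intro Q
    rw [vl_eval, hvec]
  obtain ⟨B, hB⟩ := double_root (vl ρ G) (x 1) (by rw [hev]; exact hGx) (by
    rw [derivative_vl, Polynomial.eval_add, Polynomial.eval_mul, hρ', Polynomial.eval_C, hev, hev,
      hm]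
    field_simp
    ring)
  have hFne : vl ρ F ≠ 0 := by
    intro h
    rw [hH, map_mul] at h
    rcases mul_eq_zero.mp h with h | h
    · have h3 := dvd_of_vl ρ C h
      have h4 := totalDegree_of_dvd C _ hC (not_isUnit_of_zero _ x (by
        rw [map_sub, eval_X, eval_aeval_X, hρx, sub_self])) (by
          rw [hρ]; exact totalDegree_line _ _) h3
      omega
    · apply hHx
      rw [← hev, h, Polynomial.eval_zero]
  have hGne : vl ρ G ≠ 0 := by
    intro h
    apply hFne
    rw [hGp, map_mul, h, zero_mul]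
  have hBd : B.natDegree ≤ 4 := by
    have h3 := (vl_natDegree_lin ρ hρd G).trans hG
    have hB0 : B ≠ 0 := by
      rintro rfl
      exact hGne (by rw [hB, mul_zero])
    rw [hB, Polynomial.natDegree_mul (pow_ne_zero 2 (Polynomial.X_sub_C_ne_zero _)) hB0,
      Polynomial.natDegree_pow, Polynomial.natDegree_X_sub_C] at h3
    omega
  refine pot_point M hM hw ρ (x 1) hFne (by rw [hvec]; exact hFx) (by rw [hvec]; exact hFr)
    ((Polynomial.X - Polynomial.C (x 1)) * vl ρ p) B ?_ hBd
  rw [← hFdef, hGp, map_mul, map_pow, hB]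
  ring

end pot

end Pool.Agent.Work.Pencil
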