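import Mathlib
import Pool.Agent.Work.MP_b62148_ag.Pencil.CovF
import Pool.Agent.Work.MP_b62148_ag.Pencil.Sextic

/-!
Potential density when the determinant is, up to squares, of degree at most six: the general case.
-/

namespace Pool.Agent.Work.Pencil

open Matrix MvPolynomial Pool.Agent.Work.D9odd

section lin

variable {Ω : Type*} [Field Ω]

/-- a polynomial of degree at most one -/
theorem lin_form (P : MvPolynomial (Fin 2) Ω) (h : P.totalDegree ≤ 1) :
    P = C (coeff 0 P) + C (coeff (Finsupp.single 0 1) P) * X 0 +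
      C (coeff (Finsupp.single 1 1) P) * X 1 := by
  ext m
  have key : coeff m P = 0 ∨ m = 0 ∨ m = Finsupp.single 0 1 ∨ m = Finsupp.single 1 1 := by
    by_cases hm : P.totalDegree < ∑ i ∈ m.support, m i
    · exact Or.inl (coeff_eq_zero_of_totalDegree_lt hm)
    · right
      have h1 : m 0 + m 1 ≤ 1 := by
        have h2 : ∑ i ∈ m.support, m i = m 0 + m 1 := by
          have h3 : (m.sum fun _ e => e) = ∑ i, m i := Finsupp.sum_fintype _ _ (fun _ => rfl)
          rw [Fin.sum_univ_two] at h3
          exact h3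
        omega
      rcases Nat.eq_zero_or_pos (m 0) with h0 | h0
      · rcases Nat.eq_zero_or_pos (m 1) with h2 | h2
        · left
          ext i
          fin_cases i
          · exact h0
          · exact h2
        · right; right
          ext i
          fin_cases i
          · simpa using h0
          · have : m 1 = 1 := by omega
            simpa using this
      · right; left
        ext i
        fin_cases i
        · have : m 0 = 1 := by omega
          simpa using this
        · have : m 1 = 0 := by omega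
          simpa using this
  have e01 : (Finsupp.single (0 : Fin 2) 1 : Fin 2 →₀ ℕ) ≠ Finsupp.single 1 1 := by
    intro h
    have := DFunLike.congr_fun h 0
    simp at this
  have e0 : (0 : Fin 2 →₀ ℕ) ≠ Finsupp.single 0 1 := by
    intro h
    have := DFunLike.congr_fun h 0
    simp at this
  have e1 : (0 : Fin 2 →₀ ℕ) ≠ Finsupp.single 1 1 := by
    intro h
    have := DFunLike.congr_fun h 1
    simp at this
  simp only [coeff_add, coeff_C_mul, coeff_X, coeff_C]
  by_cases hA : m = 0
  · subst hA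
    simp [e0, e1, e0.symm, e1.symm]
  by_cases hB : m = Finsupp.single 0 1
  · subst hB
    simp [e0, e1, e01, e0.symm, e1.symm, e01.symm]
  by_cases hC : m = Finsupp.single 1 1
  · subst hC
    simp [e0, e1, e01, e0.symm, e1.symm, e01.symm]
  · rcases key with h1 | h1 | h1 | h1
    · rw [h1, if_neg (Ne.symm hA), if_neg (Ne.symm hB), if_neg (Ne.symm hC)]
      ring
    · exact absurd h1 hA
    · exact absurd h1 hB
    · exact absurd h1 hC

/-- the line `r = u t + v` -/
noncomputable def ln (i : Ω × Ω) : MvPolynomial (Fin 2) Ω := X 0 - C i.1 * X 1 - C i.2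

/-- the line `t = τ` -/
noncomputable def vt (τ : Ω) : MvPolynomial (Fin 2) Ω := X 1 - C τ

theorem irr_lin (P : MvPolynomial (Fin 2) Ω) (hP : Irreducible P) (h : P.totalDegree ≤ 1) :
    (∃ a i, a ≠ 0 ∧ P = C a * ln i) ∨ (∃ a τ, a ≠ 0 ∧ P = C a * vt τ) := by
  have hf := lin_form P h
  set c := coeff 0 P
  set α := coeff (Finsupp.single 0 1) P
  set β := coeff (Finsupp.single 1 1) P
  by_cases hα : α = 0
  · right
    have hβ : β ≠ 0 := by
      intro hβ
      apply hP.not_isUnit
      rw [hf, hα, hβ]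
      have hc : c ≠ 0 := by
        intro hc
        apply hP.ne_zero
        rw [hf, hα, hβ, hc]; simp
      simpa using (isUnit_iff_ne_zero.mpr hc).map (C : Ω →+* MvPolynomial (Fin 2) Ω)
    refine ⟨β, -(c / β), hβ, ?_⟩
    rw [hf, hα, vt, mul_sub, ← C_mul, mul_neg, mul_div_cancel₀ _ hβ, C_neg]
    simp
    ring
  · left
    refine ⟨α, (-(β / α), -(c / α)), hα, ?_⟩
    rw [hf, ln]
    simp only [mul_sub, ← C_mul, ← mul_assoc]
    rw [mul_neg, mul_neg, mul_div_cancel₀ _ hα, mul_div_cancel₀ _ hα, C_neg, C_neg]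
    ring

theorem ln_ne_zero (i : Ω × Ω) : ln i ≠ 0 := by
  intro h
  have := congrArg (eval ![i.2 + 1, 0]) h
  simp [ln] at this

theorem vt_ne_zero (τ : Ω) : vt τ ≠ 0 := by
  intro h
  have := congrArg (eval ![0, τ + 1]) h
  simp [vt] at this

theorem eval_ln (x : Fin 2 → Ω) (i : Ω × Ω) : eval x (ln i) = x 0 - i.1 * x 1 - i.2 := by
  simp [ln]

theorem eval_vt (x : Fin 2 → Ω) (τ : Ω) : eval x (vt τ) = x 1 - τ := by
  simp [vt]

theorem ln_not_unit (i : Ω × Ω) : ¬ IsUnit (ln i) :=
  not_isUnit_of_zero _ ![i.2, 0] (by simp [eval_ln])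

theorem vt_not_unit (τ : Ω) : ¬ IsUnit (vt τ) :=
  not_isUnit_of_zero _ ![0, τ] (by simp [eval_vt])

theorem totalDegree_ln (i : Ω × Ω) : (ln i).totalDegree ≤ 1 := by
  unfold ln
  refine (totalDegree_sub _ _).trans (max_le ((totalDegree_sub _ _).trans (max_le ?_ ?_)) ?_)
  · rw [totalDegree_X]
  · refine (totalDegree_mul _ _).trans ?_
    rw [totalDegree_C, totalDegree_X]
  · rw [totalDegree_C]; omega

theorem totalDegree_vt (τ : Ω) : (vt τ).totalDegree ≤ 1 := by
  unfold vt
  refine (totalDegree_sub _ _).trans (max_le ?_ ?_)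
  · rw [totalDegree_X]
  · rw [totalDegree_C]; omega

theorem degreeOf_zero_ln (i : Ω × Ω) : degreeOf 0 (ln i) = 1 := by
  apply le_antisymm
  · exact (degreeOf_le_totalDegree _ _).trans (totalDegree_ln i)
  · have h : coeff (Finsupp.single 0 1) (ln i) = 1 := by
      have e01 : (Finsupp.single (1 : Fin 2) 1 : Fin 2 →₀ ℕ) ≠ Finsupp.single 0 1 := by
        intro h
        have := DFunLike.congr_fun h 0
        simp at this
      have e0 : (0 : Fin 2 →₀ ℕ) ≠ Finsupp.single 0 1 := by
        intro h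
        have := DFunLike.congr_fun h 0
        simp at this
      simp [ln, coeff_sub, coeff_C_mul, coeff_X, coeff_C, e01, e0]
    have h2 : (Finsupp.single (0 : Fin 2) 1 : Fin 2 →₀ ℕ) ∈ (ln i).support := by
      rw [mem_support_iff, h]
      exact one_ne_zero
    have := MvPolynomial.monomial_le_degreeOf 0 h2
    simpa using this

theorem degreeOf_zero_vt (τ : Ω) : degreeOf 0 (vt τ) = 0 := by
  have : vt τ = Polynomial.aeval (X 1 : MvPolynomial (Fin 2) Ω) (Polynomial.X - Polynomial.C τ) := by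
    simp [vt, MvPolynomial.algebraMap_eq]
  rw [this]
  exact degreeOf_aeval_X 0 1 (by decide) _

theorem degreeOf_one_ln (i : Ω × Ω) : degreeOf 1 (ln i) ≤ 1 :=
  (degreeOf_le_totalDegree _ _).trans (totalDegree_ln i)

theorem degreeOf_one_vt (τ : Ω) : degreeOf 1 (vt τ) ≤ 1 :=
  (degreeOf_le_totalDegree _ _).trans (totalDegree_vt τ)

/-- a product of lines -/
theorem lines_fact (G : MvPolynomial (Fin 2) Ω) : Squarefree G →
    (∀ P, Irreducible P → P ∣ G → P.totalDegree ≤ 1) →
    ∃ (a : Ω) (I : Finset (Ω × Ω)) (J : Finset Ω), a ≠ 0 ∧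
      G = C a * (∏ i ∈ I, ln i) * ∏ j ∈ J, vt j := by
  classical
  refine WfDvdMonoid.induction_on_irreducible G ?_ ?_ ?_
  · intro h
    exact absurd h not_squarefree_zero
  · intro u hu _ _
    obtain ⟨c, hc, rfl⟩ := MvPolynomial.isUnit_iff_eq_C_of_isReduced.mp hu
    exact ⟨c, ∅, ∅, hc.ne_zero, by simp⟩
  · intro b P hb hP ih hsq hlin
    obtain ⟨a, I, J, ha, hG⟩ := ih hsq.of_mul_right fun P' hP' hd =>
      hlin P' hP' (hd.mul_left P)
    rcases irr_lin P hP (hlin P hP (dvd_mul_right _ _)) with ⟨a', i, ha', rfl⟩ | ⟨a', τ, ha', rfl⟩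
    · have hi : i ∉ I := by
        intro hi
        apply ln_not_unit i
        apply hsq
        refine mul_dvd_mul (dvd_mul_left _ _) ?_
        rw [hG]
        exact ((Finset.dvd_prod_of_mem _ hi).mul_left _).mul_right _
      refine ⟨a' * a, insert i I, J, mul_ne_zero ha' ha, ?_⟩
      rw [Finset.prod_insert hi, hG, C_mul]
      ring
    · have hi : τ ∉ J := by
        intro hi
        apply vt_not_unit τ
        apply hsq
        refine mul_dvd_mul (dvd_mul_left _ _) ?_
        rw [hG]
        exact (Finset.dvd_prod_of_mem _ hi).mul_left _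
      refine ⟨a' * a, I, insert τ J, mul_ne_zero ha' ha, ?_⟩
      rw [Finset.prod_insert hi, hG, C_mul]
      ring

theorem lines_degrees (a : Ω) (I : Finset (Ω × Ω)) (J : Finset Ω) (ha : a ≠ 0) :
    degreeOf 0 (C a * (∏ i ∈ I, ln i) * ∏ j ∈ J, vt j) = I.card ∧
    degreeOf 1 (C a * (∏ i ∈ I, ln i) * ∏ j ∈ J, vt j) ≤ I.card + J.card ∧
    (C a * (∏ i ∈ I, ln i) * ∏ j ∈ J, vt j).totalDegree ≤ I.card + J.card := by
  have h1 : (∏ i ∈ I, ln i) ≠ 0 := Finset.prod_ne_zero_iff.mpr fun i _ => ln_ne_zero i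
  have h2 : (∏ j ∈ J, vt j) ≠ 0 := Finset.prod_ne_zero_iff.mpr fun j _ => vt_ne_zero j
  have h3 : (C a : MvPolynomial (Fin 2) Ω) ≠ 0 := by
    rw [Ne, C_eq_zero]; exact ha
  refine ⟨?_, ?_, ?_⟩
  · rw [degreeOf_mul_eq (mul_ne_zero h3 h1) h2, degreeOf_mul_eq h3 h1, degreeOf_C,
      degreeOf_prod_eq _ _ (fun i _ => ln_ne_zero i), degreeOf_prod_eq _ _ (fun i _ => vt_ne_zero i)]
    simp [degreeOf_zero_ln, degreeOf_zero_vt]
  · rw [degreeOf_mul_eq (mul_ne_zero h3 h1) h2, degreeOf_mul_eq h3 h1, degreeOf_C,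
      degreeOf_prod_eq _ _ (fun i _ => ln_ne_zero i), degreeOf_prod_eq _ _ (fun i _ => vt_ne_zero i)]
    have h4 : ∑ i ∈ I, degreeOf 1 (ln i) ≤ I.card := by
      simpa using Finset.sum_le_card_nsmul I (fun i => degreeOf 1 (ln i)) 1
        fun i _ => degreeOf_one_ln i
    have h5 : ∑ i ∈ J, degreeOf 1 (vt i) ≤ J.card := by
      simpa using Finset.sum_le_card_nsmul J (fun i => degreeOf 1 (vt i)) 1
        fun i _ => degreeOf_one_vt i
    omega
  · refine (totalDegree_mul _ _).trans (Nat.add_le_add ((totalDegree_mul _ _).trans ?_) ?_)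
    · rw [totalDegree_C, zero_add]
      refine (totalDegree_finsetProd _ _).trans ?_
      simpa using Finset.sum_le_card_nsmul I (fun i => (ln i).totalDegree) 1
        fun i _ => totalDegree_ln i
    · refine (totalDegree_finsetProd _ _).trans ?_
      simpa using Finset.sum_le_card_nsmul J (fun i => (vt i).totalDegree) 1
        fun i _ => totalDegree_vt i

end lin

end Pool.Agent.Work.Pencil
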