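import Mathlib
import Pool.Agent.Work.MP_b62148_ag.Pencil.Lines

/-!
Potential density when the determinant is, up to squares, of degree at most six.
-/

namespace Pool.Agent.Work.Pencil

open Matrix MvPolynomial Pool.Agent.Work.D9odd

section alg

variable {Ω : Type*} [Field Ω]

/-- the line through two points -/
noncomputable def thr (x y : Fin 2 → Ω) : Polynomial Ω :=
  Polynomial.C (y 0 - (y 0 - x 0) / (y 1 - x 1) * y 1) +
    Polynomial.C ((y 0 - x 0) / (y 1 - x 1)) * Polynomial.X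

theorem natDegree_lin (a b : Ω) : (Polynomial.C a + Polynomial.C b * Polynomial.X).natDegree ≤ 1 := by
  refine (Polynomial.natDegree_add_le _ _).trans (max_le ?_ ?_)
  · rw [Polynomial.natDegree_C]; omega
  · exact (Polynomial.natDegree_C_mul_le _ _).trans Polynomial.natDegree_X_le

theorem thr_right (x y : Fin 2 → Ω) : (thr x y).eval (y 1) = y 0 := by
  simp [thr]

theorem thr_left (x y : Fin 2 → Ω) (h : y 1 ≠ x 1) : (thr x y).eval (x 1) = x 0 := by
  have : y 1 - x 1 ≠ 0 := sub_ne_zero.mpr h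
  simp only [thr, Polynomial.eval_add, Polynomial.eval_C, Polynomial.eval_mul, Polynomial.eval_X]
  field_simp
  ring

theorem vec_eq (x : Fin 2 → Ω) (ρ : Polynomial Ω) (h : ρ.eval (x 1) = x 0) :
    (![ρ.eval (x 1), x 1] : Fin 2 → Ω) = x := by
  rw [h]
  funext i
  fin_cases i <;> rfl

theorem vl_at (x : Fin 2 → Ω) (ρ : Polynomial Ω) (h : ρ.eval (x 1) = x 0)
    (Q : MvPolynomial (Fin 2) Ω) : (vl ρ Q).eval (x 1) = eval x Q := by
  rw [vl_eval, vec_eq x ρ h]

/-- a point of a component -/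
theorem exists_pt [CharZero Ω] [IsAlgClosed Ω] (P Q : MvPolynomial (Fin 2) Ω)
    (hP : Irreducible P) (h0 : degreeOf 0 P ≠ 0) (hQ : ¬ P ∣ Q) :
    ∃ x : Fin 2 → Ω, eval x P = 0 ∧ eval x Q ≠ 0 ∧ eval x (pderiv 0 P) ≠ 0 := by
  have hPp : Prime P := hP.prime
  have hpr : ¬ P ∣ pderiv 0 P := by
    rintro ⟨q, hq⟩
    have hne := pderiv_ne_zero P h0
    have hq0 : q ≠ 0 := by
      rintro rfl
      exact hne (by rw [hq, mul_zero])
    have := degreeOf_pderiv_lt P h0
    rw [hq, degreeOf_mul_eq hPp.ne_zero hq0] at this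
    omega
  obtain ⟨x, hx, hx'⟩ := exists_zero_of_not_dvd P (Q * pderiv 0 P) hPp (by
    intro h
    rcases hPp.dvd_or_dvd h with h | h
    · exact hQ h
    · exact hpr h)
  rw [map_mul] at hx'
  exact ⟨x, hx, left_ne_zero_of_mul hx', right_ne_zero_of_mul hx'⟩

end alg

section pot

variable {k Ω : Type*} [Field k] [CharZero k] [Field Ω] [IsAlgClosed Ω] [Algebra k Ω]
  [Algebra.IsAlgebraic k Ω]

/-- a line with a crossing, tangent or singular elsewhere -/
theorem pot_line (M : Matrix (Fin 4) (Fin 4) (MvPolynomial (Fin 2) k)) (hM : Mᵀ = M)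
    (hw : WtR M) (G p : MvPolynomial (Fin 2) Ω) (hGp : (bM Ω M).det = G * p ^ 2)
    (hG : G.totalDegree ≤ 6) (P H : MvPolynomial (Fin 2) Ω) (hPH : G = P * H)
    (p' : MvPolynomial (Fin 2) Ω) (a : ℕ) (hp : p = P ^ a * p')
    (y : Fin 2 → Ω) (hy : eval y P = 0) (hyH : eval y H ≠ 0) (hyp : eval y p' ≠ 0)
    (hyr : eval y (pderiv 0 P) ≠ 0) (ρ : Polynomial Ω) (hρ : ρ.natDegree ≤ 1)
    (hρy : ρ.eval (y 1) = y 0) (hρP : vl ρ P ≠ 0)
    (x : Fin 2 → Ω) (hρx : ρ.eval (x 1) = x 0) (hx0 : eval x G = 0)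
    (hx1 : (Polynomial.derivative (vl ρ G)).eval (x 1) = 0) : PotDenseR Ω M := by
  have hev := vl_at y ρ hρy
  have hH : vl ρ H ≠ 0 := by
    intro h
    apply hyH
    rw [← hev, h, Polynomial.eval_zero]
  have hp' : vl ρ p' ≠ 0 := by
    intro h
    apply hyp
    rw [← hev, h, Polynomial.eval_zero]
  have hGne : vl ρ G ≠ 0 := by
    rw [hPH, map_mul]
    exact mul_ne_zero hρP hH
  have hpne : vl ρ p ≠ 0 := by
    rw [hp, map_mul, map_pow]
    exact mul_ne_zero (pow_ne_zero _ hρP) hp'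
  have hFne : vl ρ (bM Ω M).det ≠ 0 := by
    rw [hGp, map_mul, map_pow]
    exact mul_ne_zero hGne (pow_ne_zero _ hpne)
  obtain ⟨B, hB⟩ := double_root (vl ρ G) (x 1) (by rw [vl_at x ρ hρx]; exact hx0) hx1
  have hBd : B.natDegree ≤ 4 := by
    have h3 := (vl_natDegree_lin ρ hρ G).trans hG
    have hB0 : B ≠ 0 := by
      rintro rfl
      exact hGne (by rw [hB, mul_zero])
    rw [hB, Polynomial.natDegree_mul (pow_ne_zero 2 (Polynomial.X_sub_C_ne_zero _)) hB0,
      Polynomial.natDegree_pow, Polynomial.natDegree_X_sub_C] at h3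
    omega
  have hGy : eval ![ρ.eval (y 1), y 1] G = 0 := by
    rw [vec_eq y ρ hρy, hPH, map_mul, hy, zero_mul]
  have hGr : eval ![ρ.eval (y 1), y 1] (pderiv 0 G) ≠ 0 := by
    rw [vec_eq y ρ hρy, hPH, Derivation.leibniz, smul_eq_mul, smul_eq_mul, map_add, map_mul,
      map_mul, hy, zero_mul, zero_add]
    exact mul_ne_zero hyH hyr
  refine pot_point' M hM hw G p hGp ρ (y 1) hFne hGy hGr
    ((Polynomial.X - Polynomial.C (x 1)) * vl ρ p) B ?_ hBd
  rw [hGp, map_mul, map_pow, hB]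
  ring

/-- tangent lines -/
theorem pot_tangent (M : Matrix (Fin 4) (Fin 4) (MvPolynomial (Fin 2) k)) (hM : Mᵀ = M)
    (hw : WtR M) (G p : MvPolynomial (Fin 2) Ω) (hGp : (bM Ω M).det = G * p ^ 2)
    (hp0 : p ≠ 0) (hG : G.totalDegree ≤ 6) (P H : MvPolynomial (Fin 2) Ω) (hPH : G = P * H)
    (hP : Irreducible P) (hPd : 2 ≤ P.totalDegree) (hH : ¬ P ∣ H) : PotDenseR Ω M := by
  have hΩ : CharZero Ω := charZero_of_injective_algebraMap (algebraMap k Ω).injective
  obtain ⟨a, p', hp', hp⟩ := WfDvdMonoid.max_power_factor hp0 hP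
  obtain ⟨x, hx, hxQ, hxr⟩ := exists_pt P (H * p') hP (degreeOf_ne_zero P hP hPd) (by
    intro h
    rcases hP.prime.dvd_or_dvd h with h | h
    · exact hH h
    · exact hp' h)
  rw [map_mul] at hxQ
  have hHx : eval x H ≠ 0 := left_ne_zero_of_mul hxQ
  have hGx : eval x G = 0 := by rw [hPH, map_mul, hx, zero_mul]
  have hGr : eval x (pderiv 0 G) ≠ 0 := by
    rw [hPH, Derivation.leibniz, smul_eq_mul, smul_eq_mul, map_add, map_mul,
      map_mul, hx, zero_mul, zero_add]
    exact mul_ne_zero hHx hxr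
  set m : Ω := -(eval x (pderiv 1 G) / eval x (pderiv 0 G)) with hm
  set ρ : Polynomial Ω := Polynomial.C (x 0 - m * x 1) + Polynomial.C m * Polynomial.X with hρ
  have hρx : ρ.eval (x 1) = x 0 := by
    rw [hρ]
    simp
  refine pot_line M hM hw G p hGp hG P H hPH p' a hp x hx hHx (right_ne_zero_of_mul hxQ) hxr ρ
    (natDegree_lin _ _) hρx ?_ x hρx hGx ?_
  · intro h
    have h3 := dvd_of_vl ρ P h
    have h4 := totalDegree_of_dvd P _ hP (not_isUnit_of_zero _ x (by
      rw [map_sub, eval_X, eval_aeval_X, hρx, sub_self])) (by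
        rw [hρ]; exact totalDegree_line _ _) h3
    omega
  · have hρ' : Polynomial.derivative ρ = Polynomial.C m := by
      rw [hρ]
      simp
    rw [derivative_vl, Polynomial.eval_add, Polynomial.eval_mul, hρ', Polynomial.eval_C,
      vl_at x ρ hρx, vl_at x ρ hρx, hm]
    field_simp
    ring

/-- lines through a singular point -/
theorem pot_node (M : Matrix (Fin 4) (Fin 4) (MvPolynomial (Fin 2) k)) (hM : Mᵀ = M)
    (hw : WtR M) (G p : MvPolynomial (Fin 2) Ω) (hGp : (bM Ω M).det = G * p ^ 2)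
    (hp0 : p ≠ 0) (hG : G.totalDegree ≤ 6) (P H : MvPolynomial (Fin 2) Ω) (hPH : G = P * H)
    (hP : Irreducible P) (h0 : degreeOf 0 P ≠ 0) (hH : ¬ P ∣ H) (x : Fin 2 → Ω)
    (hxP : eval x P ≠ 0) (hx : eval x G = 0) (hx0 : eval x (pderiv 0 G) = 0)
    (hx1 : eval x (pderiv 1 G) = 0) : PotDenseR Ω M := by
  have hΩ : CharZero Ω := charZero_of_injective_algebraMap (algebraMap k Ω).injective
  obtain ⟨a, p', hp', hp⟩ := WfDvdMonoid.max_power_factor hp0 hP
  obtain ⟨y, hy, hyQ, hyr⟩ := exists_pt P (H * p' * vt (x 1)) hP h0 (by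
    intro h
    rcases hP.prime.dvd_or_dvd h with h | ⟨q, hq⟩
    · rcases hP.prime.dvd_or_dvd h with h | h
      · exact hH h
      · exact hp' h
    · have hq0 : q ≠ 0 := by
        rintro rfl
        exact vt_ne_zero (x 1) (by rw [hq, mul_zero])
      have h5 := degreeOf_zero_vt (x 1)
      rw [hq, degreeOf_mul_eq hP.ne_zero hq0] at h5
      omega)
  rw [map_mul, map_mul, eval_vt] at hyQ
  have hne : y 1 ≠ x 1 := sub_ne_zero.mp (right_ne_zero_of_mul hyQ)
  have hHp := left_ne_zero_of_mul hyQ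
  refine pot_line M hM hw G p hGp hG P H hPH p' a hp y hy (left_ne_zero_of_mul hHp)
    (right_ne_zero_of_mul hHp) hyr (thr x y) (natDegree_lin _ _) (thr_right x y) ?_ x
    (thr_left x y hne) hx ?_
  · intro h
    apply hxP
    rw [← vl_at x _ (thr_left x y hne), h, Polynomial.eval_zero]
  · rw [derivative_vl, Polynomial.eval_add, Polynomial.eval_mul, vl_at x _ (thr_left x y hne),
      vl_at x _ (thr_left x y hne), hx0, hx1]
    ring

end pot

end Pool.Agent.Work.Pencil
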