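import Mathlib
import Pool.Agent.Work.MP_b62148_ag.Pencil.Six

/-!
Potential density when the determinant is, up to squares, of degree at most six.
-/

namespace Pool.Agent.Work.Pencil

open Matrix MvPolynomial Pool.Agent.Work.D9odd

section alg

variable {Ω : Type*} [Field Ω]

theorem vl_aeval_X1 (ρ : Polynomial Ω) (u : Polynomial Ω) :
    vl ρ (Polynomial.aeval (X 1) u) = u := by
  rw [← sb_coeff_zero, sb_aeval_X1, Polynomial.coeff_C_zero]

theorem vl_ln (ρ : Polynomial Ω) (i : Ω × Ω) :
    vl ρ (ln i) = ρ - Polynomial.C i.1 * Polynomial.X - Polynomial.C i.2 := by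
  rw [ln, map_sub, map_sub, map_mul, vl_X0, vl_X1, vl_C, vl_C]

theorem vl_vt (ρ : Polynomial Ω) (τ : Ω) : vl ρ (vt τ) = Polynomial.X - Polynomial.C τ := by
  rw [vt, map_sub, vl_X1, vl_C]

theorem pderiv_ln (i : Ω × Ω) : pderiv 0 (ln i) = 1 := by
  have h1 : (pderiv 0) (X 1 : MvPolynomial (Fin 2) Ω) = 0 := by
    rw [pderiv_X_of_ne]
    decide
  rw [ln, map_sub, map_sub, Derivation.leibniz, h1, pderiv_X_self, pderiv_C, pderiv_C]
  simp

theorem pderiv_two (A B K : MvPolynomial (Fin 2) Ω) (x : Fin 2 → Ω) (hA : eval x A = 0)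
    (hB : eval x B = 0) (n : Fin 2) : eval x (pderiv n (A * (B * K))) = 0 := by
  rw [Derivation.leibniz, smul_eq_mul, smul_eq_mul, map_add, eval_mul, eval_mul, eval_mul, hA, hB]
  ring

theorem pderiv_aeval (h : Polynomial Ω) :
    pderiv 0 (Polynomial.aeval (X 1 : MvPolynomial (Fin 2) Ω) h) = 0 := by
  have h1 : (pderiv 0) (X 1 : MvPolynomial (Fin 2) Ω) = 0 := by
    rw [pderiv_X_of_ne]
    decide
  rw [Derivation.map_aeval, h1, smul_zero]

/-- a member of a one parameter family of curves, avoiding `p` -/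
theorem exists_par [Infinite Ω] (p : MvPolynomial (Fin 2) Ω) (hp : p ≠ 0) (w h g : Polynomial Ω)
    (hh : h ≠ 0) (hg : g ≠ 0) :
    ∃ s : Ω, g.eval s ≠ 0 ∧ vl (w + Polynomial.C s * h) p ≠ 0 := by
  have h1 : p * Polynomial.aeval (X 1) h ≠ 0 := by
    refine mul_ne_zero hp fun h0 => hh ?_
    rw [← vl_aeval_X1 0 h, h0, map_zero]
  obtain ⟨x, hx⟩ : ∃ x : Fin 2 → Ω, eval x (p * Polynomial.aeval (X 1) h) ≠ 0 := by
    by_contra hne
    push Not at hne
    exact h1 (MvPolynomial.funext fun x => by rw [hne x, map_zero])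
  rw [map_mul, eval_aeval_X] at hx
  have hxp := left_ne_zero_of_mul hx
  have hxh := right_ne_zero_of_mul hx
  let P : Polynomial Ω := aeval ![Polynomial.X, Polynomial.C (x 1)] p
  have hP : ∀ s, P.eval s = eval ![s, x 1] p := by
    intro s
    have h2 : (Polynomial.evalRingHom s).comp
        (aeval ![Polynomial.X, Polynomial.C (x 1)] :
          MvPolynomial (Fin 2) Ω →ₐ[Ω] Polynomial Ω).toRingHom = eval ![s, x 1] := by
      apply MvPolynomial.ringHom_ext
      · intro c
        simp
      · intro i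
        fin_cases i <;> simp
    exact RingHom.congr_fun h2 p
  let Q : Polynomial Ω := P.comp (Polynomial.C (w.eval (x 1)) +
    Polynomial.C (h.eval (x 1)) * Polynomial.X) * g
  have hQ : Q ≠ 0 := by
    refine mul_ne_zero (fun h0 => ?_) hg
    have h2 := congrArg (Polynomial.eval ((x 0 - w.eval (x 1)) / h.eval (x 1))) h0
    rw [Polynomial.eval_comp, Polynomial.eval_zero, hP] at h2
    apply hxp
    rw [← h2]
    congr 1
    have h3 : (Polynomial.C (w.eval (x 1)) + Polynomial.C (h.eval (x 1)) * Polynomial.X).eval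
        ((x 0 - w.eval (x 1)) / h.eval (x 1)) = x 0 := by
      simp only [Polynomial.eval_add, Polynomial.eval_mul, Polynomial.eval_C, Polynomial.eval_X]
      field_simp
      ring
    rw [h3]
    congr 1
    funext i
    fin_cases i <;> rfl
  obtain ⟨s, hs⟩ : ∃ s, Q.eval s ≠ 0 := by
    by_contra hne
    push Not at hne
    exact hQ (Polynomial.funext fun x => by rw [hne x, Polynomial.eval_zero])
  rw [Polynomial.eval_mul, Polynomial.eval_comp, hP] at hs
  refine ⟨s, right_ne_zero_of_mul hs, fun h0 => left_ne_zero_of_mul hs ?_⟩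
  have h4 := vl_eval (w + Polynomial.C s * h) p (x 1)
  rw [h0, Polynomial.eval_zero] at h4
  rw [h4]
  congr 2
  simp only [Polynomial.eval_add, Polynomial.eval_mul, Polynomial.eval_C, Polynomial.eval_X]
  ring_nf

end alg

section pot

variable {k Ω : Type*} [Field k] [CharZero k] [Field Ω] [IsAlgClosed Ω] [Algebra k Ω]
  [Algebra.IsAlgebraic k Ω]

/-- one line and any number of lines `t = τ` -/
theorem pot_one (M : Matrix (Fin 4) (Fin 4) (MvPolynomial (Fin 2) k)) (hM : Mᵀ = M)
    (hw : WtR M) (G p : MvPolynomial (Fin 2) Ω) (hGp : (bM Ω M).det = G * p ^ 2)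
    (hp0 : p ≠ 0) (i : Ω × Ω) (h : Polynomial Ω) (hh : h ≠ 0)
    (hG : G = ln i * Polynomial.aeval (X 1) h) : PotDenseR Ω M := by
  have hΩ : CharZero Ω := charZero_of_injective_algebraMap (algebraMap k Ω).injective
  obtain ⟨s, hs, hsp⟩ := exists_par p hp0
    (Polynomial.C i.2 + Polynomial.C i.1 * Polynomial.X + Polynomial.X * h) (-h) h
    (neg_ne_zero.mpr hh) hh
  set c : Polynomial Ω := Polynomial.C i.2 + Polynomial.C i.1 * Polynomial.X + Polynomial.X * h +
    Polynomial.C s * -h with hc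
  have hcG : vl c G = h ^ 2 * (Polynomial.X - Polynomial.C s) := by
    rw [hG, map_mul, vl_ln, vl_aeval_X1, hc]
    ring
  have hFne : vl c (bM Ω M).det ≠ 0 := by
    rw [hGp, map_mul, map_pow, hcG]
    exact mul_ne_zero (mul_ne_zero (pow_ne_zero _ hh) (Polynomial.X_sub_C_ne_zero _))
      (pow_ne_zero _ hsp)
  have hx : eval ![c.eval s, s] (ln i) = 0 := by
    rw [eval_ln]
    simp only [hc, Polynomial.eval_add, Polynomial.eval_mul, Polynomial.eval_C,
      Polynomial.eval_X, Polynomial.eval_neg, Matrix.cons_val_zero, Matrix.cons_val_one]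
    ring
  refine pot_point' M hM hw G p hGp c s hFne ?_ ?_ (h * vl c p)
    (Polynomial.X - Polynomial.C s) ?_ ?_
  · rw [hG, map_mul, hx, zero_mul]
  · rw [hG, Derivation.leibniz, pderiv_ln, pderiv_aeval, smul_eq_mul, smul_eq_mul, mul_zero,
      zero_add, mul_one, eval_aeval_X]
    exact hs
  · rw [hGp, map_mul, map_pow, hcG]
    ring
  · rw [Polynomial.natDegree_X_sub_C]
    omega

/-- five concurrent lines -/
theorem pot_five (M : Matrix (Fin 4) (Fin 4) (MvPolynomial (Fin 2) k)) (hM : Mᵀ = M)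
    (hw : WtR M) (G p : MvPolynomial (Fin 2) Ω) (hGp : (bM Ω M).det = G * p ^ 2)
    (hp0 : p ≠ 0) (a : Ω) (ha : a ≠ 0) (I : Finset (Ω × Ω)) (τ r0 : Ω) (hI : I.card = 4)
    (hIr : ∀ i ∈ I, i.1 * τ + i.2 = r0) (hG : G = C a * (∏ i ∈ I, ln i) * vt τ) :
    PotDenseR Ω M := by
  classical
  have hΩ : CharZero Ω := charZero_of_injective_algebraMap (algebraMap k Ω).injective
  obtain ⟨i1, h1, i2, h2, h12⟩ := Finset.one_lt_card.mp (show 1 < I.card by omega)
  have hne : ∀ i ∈ I, ∀ j ∈ I, i ≠ j → i.1 ≠ j.1 := by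
    intro i hi j hj hij h
    apply hij
    have e1 := hIr i hi
    have e2 := hIr j hj
    rw [h] at e1
    exact Prod.ext h (by linear_combination e1 - e2)
  obtain ⟨κ, hκ, hκp⟩ := exists_par p hp0
    (Polynomial.C r0 + Polynomial.C i1.1 * (Polynomial.X - Polynomial.C τ))
    ((Polynomial.X - Polynomial.C τ) ^ 2) Polynomial.X
    (pow_ne_zero _ (Polynomial.X_sub_C_ne_zero _)) Polynomial.X_ne_zero
  rw [Polynomial.eval_X] at hκ
  set c : Polynomial Ω := Polynomial.C r0 + Polynomial.C i1.1 * (Polynomial.X - Polynomial.C τ) +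
    Polynomial.C κ * (Polynomial.X - Polynomial.C τ) ^ 2 with hc
  set Y : Polynomial Ω := Polynomial.X - Polynomial.C τ with hY
  have hYne : Y ≠ 0 := Polynomial.X_sub_C_ne_zero _
  have hci : ∀ i ∈ I, vl c (ln i) = Y * (Polynomial.C (i1.1 - i.1) + Polynomial.C κ * Y) := by
    intro i hi
    have h3 : Polynomial.C r0 = Polynomial.C i.1 * Polynomial.C τ + Polynomial.C i.2 := by
      rw [← hIr i hi, Polynomial.C_add, Polynomial.C_mul]
    rw [vl_ln, hc, h3, Polynomial.C_sub, hY]
    ring
  set B : Polynomial Ω := Polynomial.C (a * κ) *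
    ∏ i ∈ I.erase i1, (Polynomial.C (i1.1 - i.1) + Polynomial.C κ * Y) with hB
  have hcG : vl c G = (Y ^ 3) ^ 2 * B := by
    rw [hG, map_mul, map_mul, map_prod, vl_C, vl_vt, Finset.prod_congr rfl hci,
      Finset.prod_mul_distrib, Finset.prod_const, hI, ← Finset.mul_prod_erase I _ h1, hB,
      Polynomial.C_mul, sub_self, Polynomial.C_0, ← hY]
    ring
  have hfac : ∀ i ∈ I.erase i1, (Polynomial.C (i1.1 - i.1) + Polynomial.C κ * Y) ≠ 0 := by
    intro i hi h3
    have h4 := congrArg (Polynomial.eval τ) h3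
    simp only [hY, Polynomial.eval_add, Polynomial.eval_mul, Polynomial.eval_C,
      Polynomial.eval_sub, Polynomial.eval_X, sub_self, mul_zero, add_zero,
      Polynomial.eval_zero] at h4
    exact hne i1 h1 i (Finset.mem_of_mem_erase hi) (Finset.ne_of_mem_erase hi).symm
      (sub_eq_zero.mp h4)
  have hBne : B ≠ 0 := mul_ne_zero (by rw [Ne, Polynomial.C_eq_zero]; exact mul_ne_zero ha hκ)
    (Finset.prod_ne_zero_iff.mpr hfac)
  have hFne : vl c (bM Ω M).det ≠ 0 := by
    rw [hGp, map_mul, map_pow, hcG]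
    exact mul_ne_zero (mul_ne_zero (pow_ne_zero _ (pow_ne_zero _ hYne)) hBne)
      (pow_ne_zero _ hκp)
  -- the crossing
  set t : Ω := τ + (i2.1 - i1.1) / κ with ht
  have ht' : κ * (t - τ) = i2.1 - i1.1 := by
    rw [ht, add_sub_cancel_left, mul_div_cancel₀ _ hκ]
  have htne : t - τ ≠ 0 := by
    intro h3
    rw [h3, mul_zero] at ht'
    exact hne i2 h2 i1 h1 h12.symm (sub_eq_zero.mp ht'.symm)
  have hct : c.eval t = r0 + (t - τ) * i2.1 := by
    have : c.eval t = r0 + i1.1 * (t - τ) + κ * (t - τ) ^ 2 := by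
      rw [hc, hY]; simp
    rw [this]
    linear_combination (t - τ) * ht'
  have hev : ∀ i ∈ I, eval ![c.eval t, t] (ln i) = (t - τ) * (i2.1 - i.1) := by
    intro i hi
    rw [eval_ln]
    show c.eval t - i.1 * t - i.2 = _
    rw [hct, ← hIr i hi]
    ring
  have hx : eval ![c.eval t, t] (ln i2) = 0 := by
    rw [hev i2 h2, sub_self, mul_zero]
  have hGf : G = ln i2 * (C a * (∏ i ∈ I.erase i2, ln i) * vt τ) := by
    rw [hG, ← Finset.mul_prod_erase I _ h2]
    ring
  refine pot_point' M hM hw G p hGp c t hFne ?_ ?_ (Y ^ 3 * vl c p) B ?_ ?_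
  · rw [hGf, map_mul, hx, zero_mul]
  · rw [hGf, Derivation.leibniz, pderiv_ln, smul_eq_mul, smul_eq_mul, mul_one, map_add, map_mul,
      hx, zero_mul, zero_add, map_mul, map_mul, eval_C, map_prod, eval_vt]
    refine mul_ne_zero (mul_ne_zero ha (Finset.prod_ne_zero_iff.mpr fun i hi => ?_)) htne
    rw [hev i (Finset.mem_of_mem_erase hi)]
    refine mul_ne_zero htne (sub_ne_zero.mpr ?_)
    exact hne i2 h2 i (Finset.mem_of_mem_erase hi) (Finset.ne_of_mem_erase hi).symm
  · rw [hGp, map_mul, map_pow, hcG]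
    ring
  · rw [hB]
    refine (Polynomial.natDegree_C_mul_le _ _).trans ((Polynomial.natDegree_prod_le _ _).trans ?_)
    have h5 : ∑ i ∈ I.erase i1, (Polynomial.C (i1.1 - i.1) + Polynomial.C κ * Y).natDegree ≤
        (I.erase i1).card • 1 := by
      refine Finset.sum_le_card_nsmul _ _ _ fun i _ => ?_
      refine (Polynomial.natDegree_add_le _ _).trans (max_le ?_ ?_)
      · rw [Polynomial.natDegree_C]; omega
      · refine (Polynomial.natDegree_C_mul_le _ _).trans ?_
        rw [hY, Polynomial.natDegree_X_sub_C]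
    rw [Finset.card_erase_of_mem h1, hI] at h5
    refine h5.trans ?_
    norm_num

/-- a product of lines -/
theorem pot_lines (M : Matrix (Fin 4) (Fin 4) (MvPolynomial (Fin 2) k)) (hM : Mᵀ = M)
    (hw : WtR M) (G p : MvPolynomial (Fin 2) Ω) (hGp : (bM Ω M).det = G * p ^ 2)
    (hp0 : p ≠ 0) (hGd : G.totalDegree ≤ 6) (hG1 : 4 < degreeOf 1 G) (hG0 : degreeOf 0 G ≠ 0)
    (hG4 : degreeOf 0 G ≤ 4) (hsq : Squarefree G) (a : Ω) (ha : a ≠ 0) (I : Finset (Ω × Ω))
    (J : Finset Ω) (hG : G = C a * (∏ i ∈ I, ln i) * ∏ j ∈ J, vt j) : PotDenseR Ω M := by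
  classical
  obtain ⟨d0, d1, -⟩ := lines_degrees a I J ha
  rw [← hG] at d0 d1
  have hI1 : 1 ≤ I.card := by omega
  have hJ1 : 1 ≤ J.card := by omega
  by_cases hα : ∃ i ∈ I, ∃ i' ∈ I, ∃ j ∈ J, i.1 * j + i.2 ≠ i'.1 * j + i'.2
  · obtain ⟨i, hi, i', hi', j, hj, hne⟩ := hα
    have hii : i ≠ i' := by
      rintro rfl
      exact hne rfl
    -- the component through `i'`, the singular point over `j`
    have hfac : G = ln i' * (C a * (∏ i ∈ I.erase i', ln i) * ∏ j ∈ J, vt j) := by
      rw [hG, ← Finset.mul_prod_erase I _ hi']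
      ring
    have hirr : Irreducible (ln i' : MvPolynomial (Fin 2) Ω) := by
      obtain ⟨P, hP, hPd⟩ := WfDvdMonoid.exists_irreducible_factor (ln_not_unit i')
        (ln_ne_zero i')
      obtain ⟨q, hq⟩ := hPd
      rcases lt_or_ge 0 P.totalDegree with h | h
      · have hq0 : q ≠ 0 := by
          rintro rfl
          exact ln_ne_zero i' (by rw [hq, mul_zero])
        have h2 := totalDegree_mul_of_isDomain hP.ne_zero hq0
        rw [← hq] at h2
        have h3 := totalDegree_ln i'
        have h4 : q.totalDegree = 0 := by omega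
        rw [totalDegree_eq_zero_iff_eq_C] at h4
        have h5 : IsUnit q := by
          rw [h4]
          refine (isUnit_iff_ne_zero.mpr ?_).map (C : Ω →+* MvPolynomial (Fin 2) Ω)
          intro h5
          rw [h5, C_0] at h4
          exact hq0 h4
        rw [hq]
        exact (irreducible_mul_isUnit h5).mpr hP
      · exfalso
        have h4 : P.totalDegree = 0 := by omega
        rw [totalDegree_eq_zero_iff_eq_C] at h4
        apply hP.not_isUnit
        rw [h4]
        refine (isUnit_iff_ne_zero.mpr ?_).map (C : Ω →+* MvPolynomial (Fin 2) Ω)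
        intro h5
        rw [h5, C_0] at h4
        exact hP.ne_zero h4
    have hnd : ¬ ln i' ∣ C a * (∏ i ∈ I.erase i', ln i) * ∏ j ∈ J, vt j := by
      intro h
      apply ln_not_unit i'
      apply hsq
      rw [hfac]
      exact mul_dvd_mul_left _ h
    -- the singular point
    have hfac2 : G = ln i * (vt j * (C a * (∏ i ∈ I.erase i, ln i) * ∏ j ∈ J.erase j, vt j)) := by
      rw [hG, ← Finset.mul_prod_erase I _ hi, ← Finset.mul_prod_erase J _ hj]
      ring
    have e1 : eval ![i.1 * j + i.2, j] (ln i) = 0 := by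
      rw [eval_ln]
      show i.1 * j + i.2 - i.1 * j - i.2 = 0
      ring
    have e2 : eval ![i.1 * j + i.2, j] (vt j) = 0 := by
      rw [eval_vt]
      exact sub_self _
    have e3 : eval ![i.1 * j + i.2, j] (ln i') ≠ 0 := by
      rw [eval_ln]
      show i.1 * j + i.2 - i'.1 * j - i'.2 ≠ 0
      intro h
      apply hne
      linear_combination h
    refine pot_node M hM hw G p hGp hp0 hGd (ln i') _ hfac hirr
      (by rw [degreeOf_zero_ln]; exact one_ne_zero) hnd ![i.1 * j + i.2, j] e3 ?_ ?_ ?_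
    · rw [hfac2, map_mul, e1, zero_mul]
    · rw [hfac2]
      exact pderiv_two _ _ _ _ e1 e2 0
    · rw [hfac2]
      exact pderiv_two _ _ _ _ e1 e2 1
  · push Not at hα
    obtain ⟨i, hi⟩ := Finset.card_pos.mp hI1
    obtain ⟨j, hj⟩ := Finset.card_pos.mp hJ1
    by_cases hI2 : I.card = 1
    · -- one line
      obtain ⟨i, rfl⟩ := Finset.card_eq_one.mp hI2
      refine pot_one M hM hw G p hGp hp0 i
        (Polynomial.C a * ∏ j ∈ J, (Polynomial.X - Polynomial.C j)) ?_ ?_
      · refine mul_ne_zero (by rw [Ne, Polynomial.C_eq_zero]; exact ha)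
          (Finset.prod_ne_zero_iff.mpr fun j _ => Polynomial.X_sub_C_ne_zero _)
      · rw [hG, Finset.prod_singleton, map_mul, map_prod, Polynomial.aeval_C,
          MvPolynomial.algebraMap_eq]
        have : ∀ j : Ω, Polynomial.aeval (X 1 : MvPolynomial (Fin 2) Ω)
            (Polynomial.X - Polynomial.C j) = vt j := by
          intro j
          rw [map_sub, Polynomial.aeval_X, Polynomial.aeval_C, MvPolynomial.algebraMap_eq, vt]
        simp only [this]
        ring
    · -- several concurrent lines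
      obtain ⟨i1, h1, i2, h2, h12⟩ := Finset.one_lt_card.mp (show 1 < I.card by omega)
      have hJ : J = {j} := by
        refine Finset.eq_singleton_iff_unique_mem.mpr ⟨hj, fun j' hj' => ?_⟩
        have e1 := hα i1 h1 i2 h2 j hj
        have e2 := hα i1 h1 i2 h2 j' hj'
        have e3 : (i1.1 - i2.1) * (j' - j) = 0 := by linear_combination e2 - e1
        rcases mul_eq_zero.mp e3 with h | h
        · exfalso
          apply h12
          have h' := sub_eq_zero.mp h
          refine Prod.ext h' ?_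
          rw [h'] at e1
          exact add_left_cancel e1
        · exact sub_eq_zero.mp h
      subst hJ
      rw [Finset.card_singleton] at d1
      have hI4 : I.card = 4 := by omega
      exact pot_five M hM hw G p hGp hp0 a ha I j (i.1 * j + i.2) hI4
        (fun i' hi' => hα i' hi' i hi j hj) (by rw [hG, Finset.prod_singleton])

/-- **Potential density for discriminants of degree at most six.** -/
theorem pot_six (M : Matrix (Fin 4) (Fin 4) (MvPolynomial (Fin 2) k)) (hM : Mᵀ = M)
    (hw : WtR M) (hD : M.det ≠ 0) (G p : MvPolynomial (Fin 2) Ω)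
    (hGp : (bM Ω M).det = G * p ^ 2)
    (hG : degreeOf 1 G ≤ 4 ∨ (G.totalDegree ≤ 6 ∧ degreeOf 0 G ≠ 0)) : PotDenseR Ω M := by
  classical
  by_cases h4 : degreeOf 1 G ≤ 4
  · exact pot_all M hM hw hD G p hGp h4
  obtain ⟨h6, h0⟩ := hG.resolve_left h4
  have hF : (bM Ω M).det ≠ 0 := by
    intro h
    apply hD
    apply MvPolynomial.map_injective (algebraMap k Ω) (algebraMap k Ω).injective
    rw [map_zero, ← bM_det]
    exact h
  have hG0 : G ≠ 0 := by
    rintro rfl
    exact hF (by rw [hGp, zero_mul])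
  have hp0 : p ≠ 0 := by
    rintro rfl
    apply hF
    rw [hGp]
    ring
  have hr4 : degreeOf 0 G ≤ 4 := by
    have hwΩ : WtR (bM Ω M) := hw.map _
    refine le_trans ?_ hwΩ.degreeOf_det
    rw [hGp, degreeOf_mul_eq hG0 (pow_ne_zero 2 hp0)]
    omega
  by_cases hsq : Squarefree G
  · by_cases hlin : ∀ P, Irreducible P → P ∣ G → P.totalDegree ≤ 1
    · obtain ⟨a, I, J, ha, hG'⟩ := lines_fact G hsq hlin
      exact pot_lines M hM hw G p hGp hp0 h6 (by omega) h0 hr4 hsq a ha I J hG'
    · push Not at hlin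
      obtain ⟨P, hP, ⟨H, hPH⟩, hPd⟩ := hlin
      refine pot_tangent M hM hw G p hGp hp0 h6 P H hPH hP (by omega) ?_
      intro h
      apply hP.not_isUnit
      apply hsq
      rw [hPH]
      exact mul_dvd_mul_left _ h
  · -- a square factor
    rw [Squarefree] at hsq
    push Not at hsq
    obtain ⟨Q, ⟨G', hG'⟩, hQ⟩ := hsq
    have hG'0 : G' ≠ 0 := by
      rintro rfl
      exact hG0 (by rw [hG', mul_zero])
    have hQ0 : Q ≠ 0 := by
      rintro rfl
      exact hG0 (by rw [hG']; ring)
    have hQd : Q.totalDegree ≠ 0 := by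
      intro h
      rw [totalDegree_eq_zero_iff_eq_C] at h
      apply hQ
      rw [h]
      refine (isUnit_iff_ne_zero.mpr ?_).map (C : Ω →+* MvPolynomial (Fin 2) Ω)
      intro h5
      rw [h5, C_0] at h
      exact hQ0 h
    refine pot_all M hM hw hD G' (Q * p) (by rw [hGp, hG']; ring) ?_
    refine (degreeOf_le_totalDegree _ _).trans ?_
    rw [hG', totalDegree_mul_of_isDomain (mul_ne_zero hQ0 hQ0) hG'0,
      totalDegree_mul_of_isDomain hQ0 hQ0] at h6
    omega

end pot

end Pool.Agent.Work.Pencil
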